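import Mathlib
import Pool.Agent.Helper94.SF.Core

/-!
# Project FP (MP_d5570f_nt): the second moment of a sum of monomials in local test functions
-/

set_option linter.unusedSectionVars false

open Finset Pool.Agent.Helper94.SF

namespace Pool.Agent.Helper24.FP

variable {ι : Type*} [Fintype ι] [DecidableEq ι]
variable (m : ι → ℕ) [∀ i, NeZero (m i)] (u : ι → ℤ) (F : ∀ i, ZMod (m i) → ℝ)

/-- A sum of monomials in the local test functions. -/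
noncomputable def Psi {α : Type*} (Q : Finset α) (e : α → ι → ℕ) (x : ∀ i, ZMod (m i)) : ℝ :=
  ∑ a ∈ Q, ∏ i, F i (x i) ^ (e a i)

theorem Psi_sq {α : Type*} (Q : Finset α) (e : α → ι → ℕ) (x : ∀ i, ZMod (m i)) :
    ((Psi m F Q e x ^ 2 : ℝ) : ℂ)
      = ∑ w ∈ Q ×ˢ Q, ∏ i, ((F i (x i) : ℝ) : ℂ) ^ ((e w.1 + e w.2) i) := by
  rw [Finset.sum_product]
  unfold Psi
  push_cast
  rw [sq, Finset.sum_mul_sum]
  refine Finset.sum_congr rfl fun a _ => Finset.sum_congr rfl fun b _ => ?_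
  rw [← Finset.prod_mul_distrib]
  refine Finset.prod_congr rfl fun i _ => ?_
  rw [Pi.add_apply, pow_add]

theorem expand2 {α : Type*} (R : ℕ) (Q : Finset α) (e : α → ι → ℕ) :
    ((∑ x : (∀ i, ZMod (m i)), ‖DD m u R x‖ ^ 2 * Psi m F Q e x ^ 2 : ℝ) : ℂ)
      = ∑ w ∈ Q ×ˢ Q, ∑ s ∈ range R, ∑ s' ∈ range R,
          cc m u F ((s : ℤ) - s') (e w.1 + e w.2) := by
  have h1 : ∀ x : (∀ i, ZMod (m i)), ((‖DD m u R x‖ ^ 2 * Psi m F Q e x ^ 2 : ℝ) : ℂ)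
      = ∑ w ∈ Q ×ˢ Q, ∑ s ∈ range R, ∑ s' ∈ range R,
          ch m u ((s : ℤ) - s') x * ∏ i, ((F i (x i) : ℝ) : ℂ) ^ ((e w.1 + e w.2) i) := by
    intro x
    rw [Complex.ofReal_mul, normSq_DD, Psi_sq, Finset.mul_sum]
    refine Finset.sum_congr rfl fun w _ => ?_
    rw [Finset.sum_mul]
    refine Finset.sum_congr rfl fun s _ => ?_
    rw [Finset.sum_mul]
  rw [Complex.ofReal_sum]
  simp only [h1]
  rw [Finset.sum_comm]
  refine Finset.sum_congr rfl fun w _ => ?_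
  rw [Finset.sum_comm]
  refine Finset.sum_congr rfl fun s _ => ?_
  rw [Finset.sum_comm]
  refine Finset.sum_congr rfl fun s' _ => ?_
  rw [sum_ch]

theorem full2 {α : Type*} (R : ℕ) (Q : Finset α) (e : α → ι → ℕ) :
    ∑ x : (∀ i, ZMod (m i)), ‖DD m u R x‖ ^ 2 * Psi m F Q e x ^ 2
      ≤ R * ∑ w ∈ Q ×ˢ Q, ∑ t ∈ Finset.Ioo (-(R : ℤ)) R, ‖cc m u F t (e w.1 + e w.2)‖ := by
  classical
  have hnn : 0 ≤ ∑ x : (∀ i, ZMod (m i)), ‖DD m u R x‖ ^ 2 * Psi m F Q e x ^ 2 :=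
    Finset.sum_nonneg fun x _ => mul_nonneg (sq_nonneg _) (sq_nonneg _)
  have h1 : ∑ x : (∀ i, ZMod (m i)), ‖DD m u R x‖ ^ 2 * Psi m F Q e x ^ 2
      = ‖((∑ x : (∀ i, ZMod (m i)), ‖DD m u R x‖ ^ 2 * Psi m F Q e x ^ 2 : ℝ) : ℂ)‖ := by
    rw [Complex.norm_real, Real.norm_eq_abs, abs_of_nonneg hnn]
  rw [h1, expand2]
  have h3 : ‖∑ w ∈ Q ×ˢ Q, ∑ s ∈ range R, ∑ s' ∈ range R,
          cc m u F ((s : ℤ) - s') (e w.1 + e w.2)‖
      ≤ ∑ w ∈ Q ×ˢ Q, R * ∑ t ∈ Finset.Ioo (-(R : ℤ)) R, ‖cc m u F t (e w.1 + e w.2)‖ := by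
    refine (norm_sum_le _ _).trans (Finset.sum_le_sum fun w _ => ?_)
    refine le_trans ?_ (sum_diff_le (fun t => ‖cc m u F t (e w.1 + e w.2)‖)
      (fun _ => norm_nonneg _) R)
    refine (norm_sum_le _ _).trans (Finset.sum_le_sum fun s _ => ?_)
    exact norm_sum_le _ _
  refine h3.trans ?_
  rw [← Finset.mul_sum]

/-- **The second moment.** -/
theorem secmom {α : Type*} (hc : ∀ i j, i ≠ j → Nat.Coprime (m i) (m j))
    (Q : Finset α) (e : α → ι → ℕ) (N : ℕ) (hN : 0 < N) (hM : 8 * N ≤ ∏ i, m i) :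
    ∃ u : ι → ℤ,
      (∀ i, ((u i * ∏ j ∈ Finset.univ.erase i, (m j : ℤ) : ℤ) : ZMod (m i)) = 1) ∧
      (∏ i, (m i : ℝ)) * ∑ n ∈ Icc 1 N, Psi m F Q e (fun i => (n : ZMod (m i))) ^ 2
        ≤ 32 * N * ∑ w ∈ Q ×ˢ Q, ∑ t ∈ Finset.Ioo (-(((∏ i, m i) / (8 * N) : ℕ) : ℤ))
            (((∏ i, m i) / (8 * N) : ℕ) : ℤ), ‖cc m u F t (e w.1 + e w.2)‖ := by
  classical
  obtain ⟨u, hu, hch⟩ := exists_units m hc
  refine ⟨u, hu, ?_⟩
  set M : ℕ := ∏ i, m i with hMdef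
  set R : ℕ := M / (8 * N) with hRdef
  have hR : 8 * N * R ≤ M := Nat.mul_div_le M (8 * N)
  have hR1 : 1 ≤ R := Nat.div_pos hM (by omega)
  have hMR : M ≤ 16 * N * R := by
    have h3 : M < 8 * N * (R + 1) := Nat.lt_mul_div_succ M (by omega)
    nlinarith
  have hM0 : 0 < M := by omega
  let f : ℕ → (∀ i, ZMod (m i)) := fun n i => (n : ZMod (m i))
  have hDD : ∀ n ∈ Icc 1 N, (R : ℝ) ^ 2 / 2 ≤ ‖DD m u R (f n)‖ ^ 2 := by
    intro n hn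
    have h3 := kernel_large R N M hR hM0 n (Finset.mem_Icc.1 hn).2
    refine h3.trans (le_of_eq ?_)
    congr 2
    unfold DD ch
    refine Finset.sum_congr rfl fun s _ => ?_
    have h4 := hch ((s : ℤ) * n)
    rw [show (((s * n : ℕ) : ℂ)) = (((s : ℤ) * n : ℤ) : ℂ) by push_cast; ring]
    rw [← h4]
    refine Finset.prod_congr rfl fun i _ => ?_
    congr 1
    simp only [f]
    push_cast
    ring
  have hinj : Set.InjOn f (Icc 1 N : Finset ℕ) := by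
    intro a ha b hb hab
    rw [Finset.coe_Icc, Set.mem_Icc] at ha hb
    exact cast_inj m hc N (by omega) a b ha.2 hb.2 (fun i => congrFun hab i)
  have h3 := full2 m u F R Q e
  have h4 : ∑ n ∈ Icc 1 N, ‖DD m u R (f n)‖ ^ 2 * Psi m F Q e (f n) ^ 2
      ≤ ∑ x : (∀ i, ZMod (m i)), ‖DD m u R x‖ ^ 2 * Psi m F Q e x ^ 2 := by
    rw [← Finset.sum_image (f := fun x => ‖DD m u R x‖ ^ 2 * Psi m F Q e x ^ 2) hinj]
    exact Finset.sum_le_sum_of_subset_of_nonneg (Finset.subset_univ _)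
      (fun _ _ _ => mul_nonneg (sq_nonneg _) (sq_nonneg _))
  have h5 : (R : ℝ) ^ 2 / 2 * ∑ n ∈ Icc 1 N, Psi m F Q e (f n) ^ 2
      ≤ ∑ n ∈ Icc 1 N, ‖DD m u R (f n)‖ ^ 2 * Psi m F Q e (f n) ^ 2 := by
    rw [Finset.mul_sum]
    exact Finset.sum_le_sum fun n hn => mul_le_mul_of_nonneg_right (hDD n hn) (sq_nonneg _)
  have h6 := h5.trans (h4.trans h3)
  have hMc : (∏ i, (m i : ℝ)) = (M : ℝ) := by rw [hMdef]; push_cast; rfl
  rw [hMc]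
  have hMR' : (M : ℝ) ≤ 16 * N * R := by exact_mod_cast hMR
  have hRpos : (0 : ℝ) < R := by exact_mod_cast hR1
  set T : ℝ := ∑ w ∈ Q ×ˢ Q, ∑ t ∈ Finset.Ioo (-(R : ℤ)) R, ‖cc m u F t (e w.1 + e w.2)‖
    with hT
  have hT0 : 0 ≤ T := Finset.sum_nonneg fun w _ => Finset.sum_nonneg fun t _ => norm_nonneg _
  have hS0 : 0 ≤ ∑ n ∈ Icc 1 N, Psi m F Q e (f n) ^ 2 :=
    Finset.sum_nonneg fun n _ => sq_nonneg _
  have h7 : (R : ℝ) * ∑ n ∈ Icc 1 N, Psi m F Q e (f n) ^ 2 ≤ 2 * T := by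
    have h8 : (R : ℝ) * ((R : ℝ) * ∑ n ∈ Icc 1 N, Psi m F Q e (f n) ^ 2) ≤ R * (2 * T) := by
      nlinarith
    exact le_of_mul_le_mul_left h8 hRpos
  calc (M : ℝ) * ∑ n ∈ Icc 1 N, Psi m F Q e (f n) ^ 2
      ≤ (16 * N * R) * ∑ n ∈ Icc 1 N, Psi m F Q e (f n) ^ 2 :=
        mul_le_mul_of_nonneg_right hMR' hS0
    _ = 16 * N * (R * ∑ n ∈ Icc 1 N, Psi m F Q e (f n) ^ 2) := by ring
    _ ≤ 16 * N * (2 * T) := mul_le_mul_of_nonneg_left h7 (by positivity)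
    _ = 32 * N * T := by ring

end Pool.Agent.Helper24.FP
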