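import Mathlib
import Pool.Agent.Helper24.FP.Mom

/-!
# Project FP (MP_d5570f_nt): the frequencies of a product of four monomials
-/

set_option linter.unusedSectionVars false

open Finset Pool.Agent.Helper94.SF

namespace Pool.Agent.Helper24.FP

variable {ι : Type*} [Fintype ι] [DecidableEq ι]
variable (m : ι → ℕ) [∀ i, NeZero (m i)] (u : ι → ℤ) (F : ∀ i, ZMod (m i) → ℝ)

/-- The exponents of a pair of sets. -/
def ee (a : Finset ι × Finset ι) (i : ι) : ℕ :=
  (if i ∈ a.1 then 1 else 0) + (if i ∈ a.2 then 1 else 0)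

/-- The support. -/
def su (w : (Finset ι × Finset ι) × (Finset ι × Finset ι)) : Finset ι :=
  (w.1.1 ∪ w.1.2) ∪ (w.2.1 ∪ w.2.2)

theorem su_swap (w : (Finset ι × Finset ι) × (Finset ι × Finset ι)) : su w.swap = su w := by
  unfold su
  exact Finset.union_comm _ _

theorem ee_of_not_mem (w : (Finset ι × Finset ι) × (Finset ι × Finset ι)) (i : ι)
    (h : i ∉ su w) : (ee w.1 + ee w.2) i = 0 := by
  unfold su at h
  simp only [Finset.mem_union, not_or] at h
  simp [ee, h.1.1, h.1.2, h.2.1, h.2.2]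

/-- The product of the moduli outside of the support. -/
def Wt (w : (Finset ι × Finset ι) × (Finset ι × Finset ι)) : ℕ := ∏ i ∈ (su w)ᶜ, m i

theorem Wt_pos (w : (Finset ι × Finset ι) × (Finset ι × Finset ι)) : 0 < Wt m w :=
  Finset.prod_pos fun i _ => Nat.pos_of_ne_zero (NeZero.ne (m i))

theorem Wt_mul (w : (Finset ι × Finset ι) × (Finset ι × Finset ι)) :
    Wt m w * ∏ i ∈ su w, m i = ∏ i, m i :=
  Finset.prod_compl_mul_prod _ _

theorem Wt_swap (w : (Finset ι × Finset ι) × (Finset ι × Finset ι)) :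
    Wt m w.swap = Wt m w := by
  unfold Wt; rw [su_swap]

/-- Nonzero numerators. -/
noncomputable def bz (K : ℕ) : Finset ℤ := (Finset.Icc (-(K : ℤ)) K).erase 0

theorem mem_bz (K : ℕ) (b : ℤ) : b ∈ bz K ↔ b ≠ 0 ∧ |b| ≤ K := by
  unfold bz
  rw [Finset.mem_erase, Finset.mem_Icc, abs_le]

theorem exists_b (hc : ∀ i j, i ≠ j → Nat.Coprime (m i) (m j))
    (hu : ∀ i, ((u i * ∏ j ∈ Finset.univ.erase i, (m j : ℤ) : ℤ) : ZMod (m i)) = 1)
    (N R : ℕ) (hN : 0 < N) (hR : 8 * N * R ≤ ∏ i, m i)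
    (w : (Finset ι × Finset ι) × (Finset ι × Finset ι))
    (X : ℕ) (hX : ∏ i ∈ su w, m i ≤ X)
    (t : ℤ) (ht : |t| < R) (ht0 : t ≠ 0) (h : cc m u F t (ee w.1 + ee w.2) ≠ 0) :
    ∃ b ∈ bz (X / (8 * N)), t = b * Wt m w := by
  have hd := dvd_of_cc_ne m u F hc hu t _ (su w) (ee_of_not_mem w) h
  change ((Wt m w : ℕ) : ℤ) ∣ t at hd
  obtain ⟨b, hb⟩ := hd
  refine ⟨b, ?_, by rw [hb]; ring⟩
  rw [mem_bz]
  refine ⟨by rintro rfl; exact ht0 (by simpa using hb), ?_⟩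
  have hW : (0 : ℤ) < Wt m w := by exact_mod_cast Wt_pos m w
  have h2 : |t| = Wt m w * |b| := by rw [hb, abs_mul, abs_of_pos hW]
  have h1 : (8 * N * R : ℤ) ≤ Wt m w * X := by
    have : 8 * N * R ≤ Wt m w * X :=
      hR.trans (by rw [← Wt_mul m w]; exact Nat.mul_le_mul_left _ hX)
    exact_mod_cast this
  have hN8 : (0 : ℤ) < 8 * N := by omega
  have h3 : (8 * N : ℤ) * (Wt m w * |b|) < 8 * N * R := by
    rw [← h2]; exact mul_lt_mul_of_pos_left ht hN8
  have h4 : (Wt m w : ℤ) * (8 * N * |b|) < (Wt m w : ℤ) * X := by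
    calc (Wt m w : ℤ) * (8 * N * |b|) = (8 * N : ℤ) * (Wt m w * |b|) := by ring
      _ < 8 * N * R := h3
      _ ≤ Wt m w * X := h1
  have h5 : (8 * N * |b| : ℤ) < X := lt_of_mul_lt_mul_left h4 hW.le
  have h6 : ((8 * N : ℕ) : ℤ) * |b| ≤ (X : ℤ) := by push_cast; exact h5.le
  have h7 : |b| = ((b.natAbs : ℕ) : ℤ) := (Int.natCast_natAbs b).symm
  rw [h7] at h6 ⊢
  have h8 : 8 * N * b.natAbs ≤ X := by exact_mod_cast h6
  have h9 : b.natAbs ≤ X / (8 * N) := by
    rw [Nat.le_div_iff_mul_le (by omega)]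
    calc b.natAbs * (8 * N) = 8 * N * b.natAbs := by ring
      _ ≤ X := h8
  exact_mod_cast h9

theorem ee_le_two (P L : Finset ι) (hPL : Disjoint P L)
    (w : (Finset ι × Finset ι) × (Finset ι × Finset ι))
    (h1 : w.1.1 ⊆ P) (h2 : w.1.2 ⊆ L) (h3 : w.2.1 ⊆ P) (h4 : w.2.2 ⊆ L) (i : ι) :
    (ee w.1 + ee w.2) i ≤ 2 := by
  have h5 : i ∈ P → i ∉ L := fun h h' => (Finset.disjoint_left.1 hPL h) h'
  by_cases hi : i ∈ P
  · have a : i ∉ w.1.2 := fun h => h5 hi (h2 h)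
    have b : i ∉ w.2.2 := fun h => h5 hi (h4 h)
    simp only [Pi.add_apply, ee, a, b, if_false]
    split_ifs <;> omega
  · have a : i ∉ w.1.1 := fun h => hi (h1 h)
    have b : i ∉ w.2.1 := fun h => hi (h3 h)
    simp only [Pi.add_apply, ee, a, b, if_false]
    split_ifs <;> omega

theorem cc_le (P L : Finset ι) (hPL : Disjoint P L)
    (w : (Finset ι × Finset ι) × (Finset ι × Finset ι))
    (h1 : w.1.1 ⊆ P) (h2 : w.1.2 ⊆ L) (h3 : w.2.1 ⊆ P) (h4 : w.2.2 ⊆ L)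
    (hF : ∀ i, ∑ y, F i y ^ 2 ≤ (m i : ℝ)) (t : ℤ) :
    ‖cc m u F t (ee w.1 + ee w.2)‖ ≤ (∏ i, (m i : ℝ)) *
      ((∏ i ∈ w.1.1 \ w.2.1, gg m F i ((u i * t : ℤ) : ZMod (m i)))
        * ∏ i ∈ w.2.1 \ w.1.1, gg m F i ((u i * t : ℤ) : ZMod (m i))) := by
  have h5 : ∀ i, i ∈ P → i ∉ L := fun i h h' => (Finset.disjoint_left.1 hPL h) h'
  have key : ‖cc m u F t (ee w.1 + ee w.2)‖ ≤ ∏ i, ((m i : ℝ) *
      ((if i ∈ w.1.1 \ w.2.1 then gg m F i ((u i * t : ℤ) : ZMod (m i)) else 1)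
        * (if i ∈ w.2.1 \ w.1.1 then gg m F i ((u i * t : ℤ) : ZMod (m i)) else 1))) := by
    unfold cc
    rw [norm_prod]
    apply Finset.prod_le_prod
    · intro i _; exact norm_nonneg _
    · intro i _
      by_cases ha : i ∈ w.1.1 \ w.2.1
      · have hb : i ∉ w.2.1 \ w.1.1 := by
          rw [Finset.mem_sdiff] at ha ⊢
          exact fun h => ha.2 h.1
        rw [if_pos ha, if_neg hb, mul_one]
        have hk : (ee w.1 + ee w.2) i = 1 := by
          rw [Finset.mem_sdiff] at ha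
          have hP := h1 ha.1
          have c1 : i ∉ w.1.2 := fun h => h5 i hP (h2 h)
          have c2 : i ∉ w.2.2 := fun h => h5 i hP (h4 h)
          simp [ee, ha.1, ha.2, c1, c2]
        rw [hh_norm_one m u F t _ i hk]
      · by_cases hb : i ∈ w.2.1 \ w.1.1
        · rw [if_neg ha, if_pos hb, one_mul]
          have hk : (ee w.1 + ee w.2) i = 1 := by
            rw [Finset.mem_sdiff] at hb
            have hP := h3 hb.1
            have c1 : i ∉ w.1.2 := fun h => h5 i hP (h2 h)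
            have c2 : i ∉ w.2.2 := fun h => h5 i hP (h4 h)
            simp [ee, hb.1, hb.2, c1, c2]
          rw [hh_norm_one m u F t _ i hk]
        · rw [if_neg ha, if_neg hb, mul_one, mul_one]
          exact hh_norm_le m u F t _ i (ee_le_two P L hPL w h1 h2 h3 h4 i) (hF i)
  refine key.trans (le_of_eq ?_)
  rw [Finset.prod_mul_distrib, Finset.prod_mul_distrib]
  congr 2
  · rw [Finset.prod_ite_mem, Finset.univ_inter]
  · rw [Finset.prod_ite_mem, Finset.univ_inter]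

/-- The contribution of one half. -/
noncomputable def VV (y k N : ℕ) (w : (Finset ι × Finset ι) × (Finset ι × Finset ι)) : ℝ :=
  ∑ b ∈ bz (y ^ (8 * k + 2 * (w.1.1 \ w.2.1).card) / (8 * N)),
    ∏ i ∈ w.1.1 \ w.2.1, gg m F i ((u i * (b * Wt m w) : ℤ) : ZMod (m i)) ^ 2

theorem VV_nonneg (y k N : ℕ) (w : (Finset ι × Finset ι) × (Finset ι × Finset ι)) :
    0 ≤ VV m u F y k N w :=
  Finset.sum_nonneg fun _ _ => Finset.prod_nonneg fun _ _ => sq_nonneg _

theorem card_su (k : ℕ) (w : (Finset ι × Finset ι) × (Finset ι × Finset ι))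
    (c1 : w.1.1.card = 2 * k) (c2 : w.1.2.card = k) (c3 : w.2.1.card = 2 * k)
    (c4 : w.2.2.card = k) : (su w).card ≤ 4 * k + (w.1.1 \ w.2.1).card := by
  have e1 : su w = (w.2.1 ∪ (w.1.1 \ w.2.1)) ∪ (w.1.2 ∪ w.2.2) := by
    unfold su
    ext i
    simp only [Finset.mem_union, Finset.mem_sdiff]
    tauto
  rw [e1]
  refine (Finset.card_union_le _ _).trans ?_
  have e2 := Finset.card_union_le w.2.1 (w.1.1 \ w.2.1)
  have e3 := Finset.card_union_le w.1.2 w.2.2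
  omega

theorem prod_su_le (y k : ℕ) (hy1 : 1 ≤ y) (P L : Finset ι)
    (hy : ∀ i ∈ P ∪ L, m i ≤ y ^ 2)
    (w : (Finset ι × Finset ι) × (Finset ι × Finset ι))
    (h1 : w.1.1 ⊆ P) (h2 : w.1.2 ⊆ L) (h3 : w.2.1 ⊆ P) (h4 : w.2.2 ⊆ L)
    (c1 : w.1.1.card = 2 * k) (c2 : w.1.2.card = k) (c3 : w.2.1.card = 2 * k)
    (c4 : w.2.2.card = k) :
    ∏ i ∈ su w, m i ≤ y ^ (8 * k + 2 * (w.1.1 \ w.2.1).card) := by
  have hsub : su w ⊆ P ∪ L := by
    unfold su
    exact Finset.union_subset (Finset.union_subset_union h1 h2)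
      (Finset.union_subset_union h3 h4)
  calc ∏ i ∈ su w, m i ≤ ∏ _i ∈ su w, y ^ 2 := Finset.prod_le_prod' fun i hi => hy i (hsub hi)
    _ = y ^ (2 * (su w).card) := by rw [Finset.prod_const, ← pow_mul]
    _ ≤ y ^ (8 * k + 2 * (w.1.1 \ w.2.1).card) := by
      apply Nat.pow_le_pow_right hy1
      have := card_su k w c1 c2 c3 c4
      omega

/-- One pair of monomials. -/
theorem one_pair (hc : ∀ i j, i ≠ j → Nat.Coprime (m i) (m j))
    (hu : ∀ i, ((u i * ∏ j ∈ Finset.univ.erase i, (m j : ℤ) : ℤ) : ZMod (m i)) = 1)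
    (h0 : ∀ i, ∑ y, F i y = 0) (hF : ∀ i, ∑ y, F i y ^ 2 ≤ (m i : ℝ))
    (y k N R : ℕ) (hy1 : 1 ≤ y) (hN : 0 < N) (hR : 8 * N * R ≤ ∏ i, m i)
    (P L : Finset ι) (hPL : Disjoint P L) (hy : ∀ i ∈ P ∪ L, m i ≤ y ^ 2)
    (w : (Finset ι × Finset ι) × (Finset ι × Finset ι))
    (h1 : w.1.1 ⊆ P) (h2 : w.1.2 ⊆ L) (h3 : w.2.1 ⊆ P) (h4 : w.2.2 ⊆ L)
    (c1 : w.1.1.card = 2 * k) (c2 : w.1.2.card = k) (c3 : w.2.1.card = 2 * k)
    (c4 : w.2.2.card = k) :
    ∑ t ∈ Finset.Ioo (-(R : ℤ)) R, ‖cc m u F t (ee w.1 + ee w.2)‖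
      ≤ (∏ i, (m i : ℝ)) * ((if w.1 = w.2 then 1 else 0)
        + (VV m u F y k N w + VV m u F y k N w.swap) / 2) := by
  classical
  set M : ℝ := ∏ i, (m i : ℝ) with hM
  have hM0 : 0 ≤ M := Finset.prod_nonneg fun i _ => Nat.cast_nonneg _
  set K : ℕ := y ^ (8 * k + 2 * (w.1.1 \ w.2.1).card) / (8 * N) with hK
  have hcard : (w.2.1 \ w.1.1).card = (w.1.1 \ w.2.1).card := by
    have e1 := Finset.card_sdiff_add_card_inter w.1.1 w.2.1
    have e2 := Finset.card_sdiff_add_card_inter w.2.1 w.1.1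
    rw [Finset.inter_comm] at e2
    omega
  -- zero frequency
  have hzero : ‖cc m u F 0 (ee w.1 + ee w.2)‖ ≤ M * (if w.1 = w.2 then 1 else 0) := by
    by_cases hw : w.1 = w.2
    · rw [if_pos hw, mul_one]
      exact cc_norm_le_all m u F 0 _ (ee_le_two P L hPL w h1 h2 h3 h4) hF
    · rw [if_neg hw, mul_zero]
      have hex : ∃ i, (ee w.1 + ee w.2) i = 1 := by
        by_contra hno
        push Not at hno
        apply hw
        have hne : ∀ i, i ∈ P → i ∉ L := fun i h h' => (Finset.disjoint_left.1 hPL h) h'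
        refine Prod.ext ?_ ?_
        · ext i
          have hi := hno i
          simp only [Pi.add_apply, ee] at hi
          constructor
          · intro ha
            have c1 : i ∉ w.1.2 := fun h => hne i (h1 ha) (h2 h)
            have c2 : i ∉ w.2.2 := fun h => hne i (h1 ha) (h4 h)
            by_contra hb
            simp [ha, c1, c2, hb] at hi
          · intro ha
            have c1 : i ∉ w.1.2 := fun h => hne i (h3 ha) (h2 h)
            have c2 : i ∉ w.2.2 := fun h => hne i (h3 ha) (h4 h)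
            by_contra hb
            simp [ha, c1, c2, hb] at hi
        · ext i
          have hi := hno i
          simp only [Pi.add_apply, ee] at hi
          constructor
          · intro ha
            have c1 : i ∉ w.1.1 := fun h => hne i (h1 h) (h2 ha)
            have c2 : i ∉ w.2.1 := fun h => hne i (h3 h) (h2 ha)
            by_contra hb
            simp [ha, c1, c2, hb] at hi
          · intro ha
            have c1 : i ∉ w.1.1 := fun h => hne i (h1 h) (h4 ha)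
            have c2 : i ∉ w.2.1 := fun h => hne i (h3 h) (h4 ha)
            by_contra hb
            simp [ha, c1, c2, hb] at hi
      obtain ⟨i, hi⟩ := hex
      rw [cc_zero_eq_zero m u F _ i hi (h0 i), norm_zero]
  -- nonzero frequencies
  have hnz : ∑ t ∈ (Finset.Ioo (-(R : ℤ)) R).erase 0, ‖cc m u F t (ee w.1 + ee w.2)‖
      ≤ ∑ b ∈ bz K, ‖cc m u F (b * Wt m w) (ee w.1 + ee w.2)‖ := by
    have h4' : ∑ b ∈ bz K, ‖cc m u F (b * Wt m w) (ee w.1 + ee w.2)‖
        = ∑ t ∈ (bz K).image (fun b => b * (Wt m w : ℤ)),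
            ‖cc m u F t (ee w.1 + ee w.2)‖ := by
      rw [Finset.sum_image]
      intro a _ b _ hab
      have hW : (Wt m w : ℤ) ≠ 0 := by exact_mod_cast (Wt_pos m w).ne'
      exact mul_right_cancel₀ hW hab
    rw [h4', ← Finset.sum_filter_ne_zero]
    apply Finset.sum_le_sum_of_subset_of_nonneg _ (fun _ _ _ => norm_nonneg _)
    intro t ht
    rw [Finset.mem_filter, Finset.mem_erase, Finset.mem_Ioo] at ht
    obtain ⟨⟨ht0, ht⟩, hne⟩ := ht
    obtain ⟨b, hb1, hb2⟩ := exists_b m u F hc hu N R hN hR w _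
      (prod_su_le m y k hy1 P L hy w h1 h2 h3 h4 c1 c2 c3 c4) t (abs_lt.2 ht) ht0
      (by intro h; apply hne; rw [h, norm_zero])
    rw [Finset.mem_image]
    exact ⟨b, hb1, hb2.symm⟩
  have hterm : ∀ b ∈ bz K, ‖cc m u F (b * Wt m w) (ee w.1 + ee w.2)‖
      ≤ M * (((∏ i ∈ w.1.1 \ w.2.1, gg m F i ((u i * (b * Wt m w) : ℤ) : ZMod (m i)) ^ 2)
        + ∏ i ∈ w.2.1 \ w.1.1, gg m F i ((u i * (b * Wt m w) : ℤ) : ZMod (m i)) ^ 2) / 2) := by
    intro b _
    refine (cc_le m u F P L hPL w h1 h2 h3 h4 hF _).trans ?_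
    apply mul_le_mul_of_nonneg_left _ hM0
    rw [Finset.prod_pow, Finset.prod_pow]
    nlinarith [sq_nonneg ((∏ i ∈ w.1.1 \ w.2.1, gg m F i ((u i * (b * Wt m w) : ℤ) : ZMod (m i)))
      - ∏ i ∈ w.2.1 \ w.1.1, gg m F i ((u i * (b * Wt m w) : ℤ) : ZMod (m i)))]
  have hV2 : VV m u F y k N w.swap = ∑ b ∈ bz K,
      ∏ i ∈ w.2.1 \ w.1.1, gg m F i ((u i * (b * Wt m w) : ℤ) : ZMod (m i)) ^ 2 := by
    unfold VV
    rw [Wt_swap]
    simp only [Prod.fst_swap, Prod.snd_swap]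
    rw [hcard]
  have hnz2 : ∑ t ∈ (Finset.Ioo (-(R : ℤ)) R).erase 0, ‖cc m u F t (ee w.1 + ee w.2)‖
      ≤ M * ((VV m u F y k N w + VV m u F y k N w.swap) / 2) := by
    refine hnz.trans ((Finset.sum_le_sum hterm).trans (le_of_eq ?_))
    rw [← Finset.mul_sum, ← Finset.sum_div, Finset.sum_add_distrib, hV2]
    rfl
  have hVn := VV_nonneg m u F y k N w
  have hVn' := VV_nonneg m u F y k N w.swap
  by_cases hR0 : (0 : ℤ) ∈ Finset.Ioo (-(R : ℤ)) R
  · rw [← Finset.add_sum_erase _ _ hR0]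
    calc _ ≤ M * (if w.1 = w.2 then 1 else 0)
          + M * ((VV m u F y k N w + VV m u F y k N w.swap) / 2) := add_le_add hzero hnz2
      _ = _ := by ring
  · rw [Finset.erase_eq_of_notMem hR0] at hnz2
    refine hnz2.trans ?_
    apply mul_le_mul_of_nonneg_left _ hM0
    have : (0 : ℝ) ≤ (if w.1 = w.2 then 1 else 0) := by split_ifs <;> norm_num
    linarith

end Pool.Agent.Helper24.FP
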