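import Mathlib
import Pool.Agent.Helper24.FP.Freq

/-!
# Project FP (MP_d5570f_nt): products of sums over disjoint blocks of primes
-/

set_option linter.unusedSectionVars false

open Finset Pool.Agent.Helper94.SF

namespace Pool.Agent.Helper24.FP

section
variable {ι : Type*} [Fintype ι] [DecidableEq ι] {κ : Type*} [Fintype κ] [DecidableEq κ]
variable (m : ι → ℕ) [∀ i, NeZero (m i)] (u : ι → ℤ) (F : ∀ i, ZMod (m i) → ℝ)

/-- The exponents of a choice function. -/
def ef (f : κ → ι) (i : ι) : ℕ := ∑ j, if i = f j then 1 else 0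

theorem prod_ef (f : κ → ι) (x : ∀ i, ZMod (m i)) :
    ∏ i, F i (x i) ^ ef f i = ∏ j, F (f j) (x (f j)) := by
  unfold ef
  simp only [← Finset.prod_pow_eq_pow_sum]
  rw [Finset.prod_comm]
  refine Finset.prod_congr rfl fun j _ => ?_
  simp only [pow_ite, pow_one, pow_zero]
  rw [Finset.prod_ite_eq' Finset.univ (f j) (fun i => F i (x i))]
  simp

theorem Psi_block (B : κ → Finset ι) (x : ∀ i, ZMod (m i)) :
    Psi m F (Fintype.piFinset B) ef x = ∏ j, ∑ i ∈ B j, F i (x i) := by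
  unfold Psi
  rw [Finset.prod_univ_sum]
  exact Finset.sum_congr rfl fun f _ => prod_ef m F f x

theorem ef_le_one (B : κ → Finset ι) (hdis : ∀ j j', j ≠ j' → Disjoint (B j) (B j'))
    (f : κ → ι) (hf : ∀ j, f j ∈ B j) (i : ι) : ef f i ≤ 1 := by
  unfold ef
  rw [← Finset.card_filter]
  apply Finset.card_le_one.2
  intro a ha b hb
  rw [Finset.mem_filter] at ha hb
  by_contra hab
  have h1 := hf a
  have h2 := hf b
  rw [← ha.2] at h1
  rw [← hb.2] at h2
  exact (Finset.disjoint_left.1 (hdis a b hab) h1) h2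

theorem ef_self (f : κ → ι) (j : κ) : 1 ≤ ef f (f j) := by
  unfold ef
  have := Finset.single_le_sum (f := fun j' => if f j = f j' then 1 else 0)
    (fun _ _ => Nat.zero_le _) (Finset.mem_univ j)
  simpa using this

theorem ef_other (B : κ → Finset ι) (hdis : ∀ j j', j ≠ j' → Disjoint (B j) (B j'))
    (f g : κ → ι) (hf : ∀ j, f j ∈ B j) (hg : ∀ j, g j ∈ B j) (j : κ) (h : f j ≠ g j) :
    ef g (f j) = 0 := by
  unfold ef
  apply Finset.sum_eq_zero
  intro j' _
  rw [if_neg]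
  intro h'
  by_cases hj : j = j'
  · subst hj; exact h h'
  · have h1 := hf j
    have h2 := hg j'
    rw [← h'] at h2
    exact (Finset.disjoint_left.1 (hdis j j' hj) h1) h2

/-- Only the zero frequency contributes. -/
theorem zero_freq (hc : ∀ i j, i ≠ j → Nat.Coprime (m i) (m j))
    (hu : ∀ i, ((u i * ∏ j ∈ Finset.univ.erase i, (m j : ℤ) : ℤ) : ZMod (m i)) = 1)
    (N R : ℕ) (hR : 8 * N * R ≤ ∏ i, m i) (k : ι → ℕ) (S : Finset ι)
    (hS : ∀ i, i ∉ S → k i = 0) (hw : ∏ i ∈ S, m i ≤ 8 * N)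
    (t : ℤ) (ht : |t| < R) (h : cc m u F t k ≠ 0) : t = 0 := by
  have hd := dvd_of_cc_ne m u F hc hu t k S hS h
  have hWR : R ≤ ∏ i ∈ Sᶜ, m i := by
    by_contra hlt
    push Not at hlt
    have h1 : ∏ i, m i < 8 * N * R := by
      rw [← Finset.prod_compl_mul_prod S]
      calc (∏ i ∈ Sᶜ, m i) * ∏ i ∈ S, m i ≤ (∏ i ∈ Sᶜ, m i) * (8 * N) :=
            Nat.mul_le_mul_left _ hw
        _ < R * (8 * N) := by
          apply Nat.mul_lt_mul_of_pos_right hlt
          have : 0 < ∏ i ∈ S, m i :=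
            Finset.prod_pos fun i _ => Nat.pos_of_ne_zero (NeZero.ne (m i))
          omega
        _ = 8 * N * R := by ring
    omega
  have : |t| < ((∏ i ∈ Sᶜ, m i : ℕ) : ℤ) := lt_of_lt_of_le ht (by exact_mod_cast hWR)
  exact Int.eq_zero_of_abs_lt_dvd hd this

theorem block_moment (q : ι → ℕ) (hm : ∀ i, m i = q i ^ 2) (hq : ∀ i, (q i).Prime)
    (hqi : Function.Injective q) (h0 : ∀ i, ∑ y, F i y = 0)
    (hF : ∀ i, ∑ y, F i y ^ 2 ≤ (m i : ℝ))
    (y N : ℕ) (hy1 : 1 ≤ y) (hN : 0 < N) (hM : 8 * N ≤ ∏ i, m i)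
    (B : κ → Finset ι) (hdis : ∀ j j', j ≠ j' → Disjoint (B j) (B j'))
    (hy : ∀ j, ∀ i ∈ B j, q i ≤ y) (hsz : y ^ (4 * Fintype.card κ) ≤ 8 * N) :
    ∑ n ∈ Icc 1 N, (∏ j, ∑ i ∈ B j, F i (n : ZMod (m i))) ^ 2
      ≤ 32 * N * ∏ j, ((B j).card : ℝ) := by
  classical
  have hc : ∀ i j, i ≠ j → Nat.Coprime (m i) (m j) := by
    intro i j hij
    rw [hm i, hm j]
    apply Nat.Coprime.pow
    rw [Nat.coprime_primes (hq i) (hq j)]
    exact fun h => hij (hqi h)
  obtain ⟨u, hu, h⟩ := secmom m F hc (Fintype.piFinset B) ef N hN hM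
  set R : ℕ := (∏ i, m i) / (8 * N) with hRdef
  have hR : 8 * N * R ≤ ∏ i, m i := Nat.mul_div_le _ _
  have hM0 : (0 : ℝ) < ∏ i, (m i : ℝ) := Finset.prod_pos fun i _ => by
    exact_mod_cast Nat.pos_of_ne_zero (NeZero.ne (m i))
  have hone : ∀ w ∈ Fintype.piFinset B ×ˢ Fintype.piFinset B,
      ∑ t ∈ Finset.Ioo (-(R : ℤ)) R, ‖cc m u F t (ef w.1 + ef w.2)‖
      ≤ if w.1 = w.2 then ∏ i, (m i : ℝ) else 0 := by
    intro w hw
    rw [Finset.mem_product, Fintype.mem_piFinset, Fintype.mem_piFinset] at hw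
    set S : Finset ι := Finset.univ.image w.1 ∪ Finset.univ.image w.2 with hS
    have hSk : ∀ i, i ∉ S → (ef w.1 + ef w.2) i = 0 := by
      intro i hi
      rw [hS, Finset.mem_union, not_or] at hi
      rw [Pi.add_apply]
      have e1 : ∀ f : κ → ι, i ∉ Finset.univ.image f → ef f i = 0 := by
        intro f hf
        unfold ef
        apply Finset.sum_eq_zero
        intro j _
        rw [if_neg]
        rintro rfl
        exact hf (Finset.mem_image_of_mem _ (Finset.mem_univ j))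
      rw [e1 _ hi.1, e1 _ hi.2]
    have hSm : ∏ i ∈ S, m i ≤ 8 * N := by
      refine le_trans ?_ hsz
      have h1 : ∀ i ∈ S, m i ≤ y ^ 2 := by
        intro i hi
        rw [hm i]
        apply Nat.pow_le_pow_left
        rw [hS, Finset.mem_union, Finset.mem_image, Finset.mem_image] at hi
        rcases hi with ⟨j, _, rfl⟩ | ⟨j, _, rfl⟩
        · exact hy j _ (hw.1 j)
        · exact hy j _ (hw.2 j)
      have h2 : S.card ≤ 2 * Fintype.card κ := by
        refine (Finset.card_union_le _ _).trans ?_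
        have e1 := Finset.card_image_le (s := Finset.univ) (f := w.1)
        have e2 := Finset.card_image_le (s := Finset.univ) (f := w.2)
        rw [Finset.card_univ] at e1 e2
        omega
      calc ∏ i ∈ S, m i ≤ ∏ _i ∈ S, y ^ 2 := Finset.prod_le_prod' h1
        _ = y ^ (2 * S.card) := by rw [Finset.prod_const, ← pow_mul]
        _ ≤ y ^ (4 * Fintype.card κ) := Nat.pow_le_pow_right hy1 (by omega)
    have hz : ∀ t ∈ Finset.Ioo (-(R : ℤ)) R, t ≠ 0 →
        ‖cc m u F t (ef w.1 + ef w.2)‖ = 0 := by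
      intro t ht ht0
      rw [Finset.mem_Ioo] at ht
      rw [norm_eq_zero]
      by_contra hcc
      exact ht0 (zero_freq m u F hc hu N R hR _ S hSk hSm t (abs_lt.2 ht) hcc)
    have hzero : ‖cc m u F 0 (ef w.1 + ef w.2)‖ ≤ if w.1 = w.2 then ∏ i, (m i : ℝ) else 0 := by
      split_ifs with hw12
      · apply cc_norm_le_all m u F 0 _ _ hF
        intro i
        have e1 := ef_le_one B hdis w.1 hw.1 i
        have e2 := ef_le_one B hdis w.2 hw.2 i
        rw [Pi.add_apply]
        omega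
      · have hex : ∃ j, w.1 j ≠ w.2 j := by
          by_contra hno
          push Not at hno
          exact hw12 (funext hno)
        obtain ⟨j, hj⟩ := hex
        rw [cc_zero_eq_zero m u F _ (w.1 j) _ (h0 _), norm_zero]
        rw [Pi.add_apply, ef_other B hdis w.1 w.2 hw.1 hw.2 j hj, add_zero]
        have e1 := ef_le_one B hdis w.1 hw.1 (w.1 j)
        have e2 := ef_self w.1 j
        omega
    by_cases hR0 : (0 : ℤ) ∈ Finset.Ioo (-(R : ℤ)) R
    · rw [Finset.sum_eq_single_of_mem 0 hR0 hz]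
      exact hzero
    · rw [Finset.sum_eq_zero (fun t ht => hz t ht (by rintro rfl; exact hR0 ht))]
      split_ifs
      · exact hM0.le
      · exact le_rfl
  have h1 : ∑ w ∈ Fintype.piFinset B ×ˢ Fintype.piFinset B,
      ∑ t ∈ Finset.Ioo (-(R : ℤ)) R, ‖cc m u F t (ef w.1 + ef w.2)‖
      ≤ (∏ i, (m i : ℝ)) * ∏ j, ((B j).card : ℝ) := by
    refine (Finset.sum_le_sum hone).trans (le_of_eq ?_)
    rw [Finset.sum_product]
    have e : ∀ f ∈ Fintype.piFinset B,
        ∑ g ∈ Fintype.piFinset B, (if (f, g).1 = (f, g).2 then ∏ i, (m i : ℝ) else 0)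
        = ∏ i, (m i : ℝ) := by
      intro f hf
      simp only
      rw [Finset.sum_ite_eq, if_pos hf]
    rw [Finset.sum_congr rfl e, Finset.sum_const, nsmul_eq_mul, Fintype.card_piFinset]
    push_cast
    ring
  have h2 := h.trans (mul_le_mul_of_nonneg_left h1 (by positivity))
  have h3 : (∏ i, (m i : ℝ)) * ∑ n ∈ Icc 1 N, (∏ j, ∑ i ∈ B j, F i (n : ZMod (m i))) ^ 2
      ≤ (∏ i, (m i : ℝ)) * (32 * N * ∏ j, ((B j).card : ℝ)) := by
    refine le_trans (le_of_eq ?_) (h2.trans (le_of_eq ?_))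
    · congr 1
      refine Finset.sum_congr rfl fun n _ => ?_
      rw [Psi_block]
    · ring
  exact le_of_mul_le_mul_left h3 hM0

end

end Pool.Agent.Helper24.FP
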