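import Mathlib

/-!
# Project FP (MP_d5570f_nt), piece FP-7: random hosts
-/

open Finset

namespace Pool.Agent.Helper24.FP

private theorem host_pow {X Y a b c e m : ℕ} (hc : 0 < c) (h : X * c ^ m ≤ Y * e ^ m)
    (h2 : a * e ≤ b * c) : X * a ^ m ≤ Y * b ^ m := by
  refine Nat.le_of_mul_le_mul_right (c := c ^ m) ?_ (pow_pos hc m)
  calc X * a ^ m * c ^ m = X * c ^ m * a ^ m := by ring
    _ ≤ Y * e ^ m * a ^ m := Nat.mul_le_mul_right _ h
    _ = Y * (a * e) ^ m := by rw [mul_pow]; ring
    _ ≤ Y * (b * c) ^ m := Nat.mul_le_mul_left _ (Nat.pow_le_pow_left h2 m)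
    _ = Y * b ^ m * c ^ m := by rw [mul_pow]; ring

private theorem host_choose (N r : ℕ) (hr : r ≤ N) (m : ℕ) :
    N.choose r * (N + m) ^ m ≤ (N + m).choose (r + m) * (r + m) ^ m := by
  induction m with
  | zero => simp
  | succ m ih =>
    have h1 : (N + m + 1) * (N + m).choose (r + m) = (N + m + 1).choose (r + m + 1) * (r + m + 1) :=
      Nat.add_one_mul_choose_eq (N + m) (r + m)
    have h3 : N.choose r * (N + m + 1) ^ m ≤ (N + m).choose (r + m) * (r + m + 1) ^ m := by
      rcases Nat.eq_zero_or_pos (N + m) with h0 | h0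
      · have hm : m = 0 := by omega
        have hN : N = 0 := by omega
        have hr0 : r = 0 := by omega
        subst hm hN hr0
        simp
      · exact host_pow h0 ih (by nlinarith)
    calc N.choose r * (N + (m + 1)) ^ (m + 1)
        = N.choose r * (N + m + 1) ^ m * (N + m + 1) := by
          rw [pow_succ, ← mul_assoc]; rfl
      _ ≤ (N + m).choose (r + m) * (r + m + 1) ^ m * (N + m + 1) := Nat.mul_le_mul_right _ h3
      _ = (N + m + 1) * (N + m).choose (r + m) * (r + m + 1) ^ m := by ring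
      _ = (N + m + 1).choose (r + m + 1) * (r + m + 1) * (r + m + 1) ^ m := by rw [h1]
      _ = (N + (m + 1)).choose (r + (m + 1)) * (r + (m + 1)) ^ (m + 1) := by
          rw [pow_succ]
          have e1 : N + (m + 1) = N + m + 1 := rfl
          have e2 : r + (m + 1) = r + m + 1 := rfl
          rw [e1, e2]
          ring

private theorem host_one (Ω A : Finset ℕ) (m r : ℕ) (hA : A ⊆ Ω) (hm : A.card = m)
    (hr : r ≤ Ω.card) :
    ((Ω.powersetCard r).filter (fun R => A ⊆ R)).card * Ω.card ^ m ≤ r ^ m * Ω.card.choose r := by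
  by_cases hmr : m ≤ r
  · have h1 : ((Ω.powersetCard r).filter (fun R => A ⊆ R)).card ≤
        ((Ω \ A).powersetCard (r - m)).card := by
      refine Finset.card_le_card_of_injOn (fun R => R \ A) ?_ ?_
      · intro R hR
        rw [Finset.mem_coe, Finset.mem_filter, Finset.mem_powersetCard] at hR
        obtain ⟨⟨h2, h3⟩, h4⟩ := hR
        rw [Finset.mem_coe, Finset.mem_powersetCard]
        refine ⟨Finset.sdiff_subset_sdiff h2 le_rfl, ?_⟩
        change (R \ A).card = r - m
        rw [Finset.card_sdiff_of_subset h4, h3, hm]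
      · intro R hR R' hR' h
        rw [Finset.mem_coe, Finset.mem_filter] at hR hR'
        have h' : R \ A = R' \ A := h
        rw [← Finset.sdiff_union_of_subset hR.2, ← Finset.sdiff_union_of_subset hR'.2, h']
    rw [Finset.card_powersetCard, Finset.card_sdiff_of_subset hA, hm] at h1
    obtain ⟨r', rfl⟩ := Nat.exists_eq_add_of_le' hmr
    obtain ⟨N', hN'⟩ := Nat.exists_eq_add_of_le' (hmr.trans hr)
    have hr' : r' ≤ N' := by omega
    have h5 := host_choose N' r' hr' m
    rw [hN'] at h1 ⊢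
    rw [Nat.add_sub_cancel, Nat.add_sub_cancel] at h1
    calc _ ≤ N'.choose r' * (N' + m) ^ m := Nat.mul_le_mul_right _ h1
      _ ≤ (N' + m).choose (r' + m) * (r' + m) ^ m := h5
      _ = _ := mul_comm _ _
  · have h1 : (Ω.powersetCard r).filter (fun R => A ⊆ R) = ∅ := by
      rw [Finset.filter_eq_empty_iff]
      intro R hR h2
      rw [Finset.mem_powersetCard] at hR
      have h3 := Finset.card_le_card h2
      omega
    rw [h1, Finset.card_empty, zero_mul]
    exact Nat.zero_le _

/-- Proof.  For a given `A` with `m` elements the `r`-element sets `R` with `A ⊆ R ⊆ Ω` are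
`(N - m).choose (r - m)` (none if `r < m`), where `N = Ω.card` (`R ↦ R \ A` is a bijection onto
the `(r - m)`-element subsets of `Ω \ A`), and `(N - m).choose (r - m) * N ^ m ≤ r ^ m *
N.choose r` for `m ≤ r ≤ N`: induction on `m` with `(N - 1).choose (r - 1) * N = r * N.choose r`
(`Nat.add_one_mul_choose_eq`) and `N * (r - m) ≤ r * (N - m)`.  For `r > N` both sides vanish.
Then the union bound over `A ∈ Z` (`Finset.card_biUnion_le`). -/
theorem host_count (Ω : Finset ℕ) (m r : ℕ) (Z : Finset (Finset ℕ))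
    (hZ : ∀ A ∈ Z, A ⊆ Ω ∧ A.card = m) :
    ((Ω.powersetCard r).filter (fun R => ∃ A ∈ Z, A ⊆ R)).card * Ω.card ^ m
      ≤ Z.card * r ^ m * Ω.card.choose r := by
  by_cases hr : r ≤ Ω.card
  · have h1 : (Ω.powersetCard r).filter (fun R => ∃ A ∈ Z, A ⊆ R) ⊆
        Z.biUnion (fun A => (Ω.powersetCard r).filter (fun R => A ⊆ R)) := by
      intro R hR
      rw [Finset.mem_filter] at hR
      obtain ⟨h2, A, hA, h3⟩ := hR
      rw [Finset.mem_biUnion]
      exact ⟨A, hA, Finset.mem_filter.2 ⟨h2, h3⟩⟩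
    calc _ ≤ (∑ A ∈ Z, ((Ω.powersetCard r).filter (fun R => A ⊆ R)).card) * Ω.card ^ m :=
          Nat.mul_le_mul_right _ ((Finset.card_le_card h1).trans Finset.card_biUnion_le)
      _ = ∑ A ∈ Z, ((Ω.powersetCard r).filter (fun R => A ⊆ R)).card * Ω.card ^ m := by
          rw [Finset.sum_mul]
      _ ≤ ∑ A ∈ Z, r ^ m * Ω.card.choose r :=
          Finset.sum_le_sum fun A hA => host_one Ω A m r (hZ A hA).1 (hZ A hA).2 hr
      _ = _ := by rw [Finset.sum_const, smul_eq_mul, mul_assoc]
  · have h1 : Ω.powersetCard r = ∅ := Finset.powersetCard_eq_empty.2 (by omega)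
    rw [h1, Finset.filter_empty, Finset.card_empty, zero_mul]
    exact Nat.zero_le _

end Pool.Agent.Helper24.FP
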