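import Mathlib

/-!
# Project FP (MP_d5570f_nt), piece FP-1: one local factor
-/

open Finset

namespace Pool.Agent.Helper24.FP

private lemma FP1_unit {p mm : ℕ} [NeZero mm] (hmm : mm = p ^ 2) (hp : p.Prime) {ν : ZMod mm}
    (h : IsUnit ν) : ¬ (p : ℤ) ∣ (ν.val : ℤ) := by
  intro h1
  have h2 : IsUnit ((ν.val : ℕ) : ZMod mm) := by rwa [ZMod.natCast_zmod_val]
  rw [ZMod.isUnit_iff_coprime] at h2
  have h3 : p ∣ ν.val := by exact_mod_cast h1
  have h4 : p ∣ mm := by
    rw [hmm]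
    exact dvd_pow_self p two_ne_zero
  have h5 := Nat.dvd_gcd h3 h4
  rw [Nat.Coprime] at h2
  rw [h2] at h5
  exact hp.one_lt.ne' (Nat.dvd_one.1 h5)

private lemma FP1_card {p mm : ℕ} [NeZero mm] (hmm : mm = p ^ 2) (hp : p.Prime) (c : ℤ)
    [DecidablePred fun ν : ZMod mm => (p : ℤ) ∣ (ν.val : ℤ) - c] :
    (univ.filter fun ν : ZMod mm => (p : ℤ) ∣ (ν.val : ℤ) - c).card ≤ p := by
  have h1 : (univ.filter fun ν : ZMod mm => (p : ℤ) ∣ (ν.val : ℤ) - c).card ≤
      (Finset.range p).card := by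
    refine Finset.card_le_card_of_injOn (fun ν => ν.val / p) ?_ ?_
    · intro ν _
      rw [Finset.mem_coe, Finset.mem_range]
      refine Nat.div_lt_of_lt_mul ?_
      rw [← sq]
      exact lt_of_lt_of_eq (ZMod.val_lt ν) hmm
    · intro ν hν ν' hν' h
      rw [Finset.mem_coe, Finset.mem_filter] at hν hν'
      have h2 : (p : ℤ) ∣ (ν.val : ℤ) - ν'.val := by
        have h3 := dvd_sub hν.2 hν'.2
        rw [sub_sub_sub_cancel_right] at h3
        exact h3
      have h4 : ν'.val % p = ν.val % p := by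
        have h5 : ((ν'.val : ℕ) : ℤ) ≡ ((ν.val : ℕ) : ℤ) [ZMOD p] := (Int.modEq_iff_dvd).2 h2
        exact (Int.natCast_modEq_iff.1 h5)
      have h6 : ν.val / p = ν'.val / p := h
      apply ZMod.val_injective
      rw [← Nat.div_add_mod ν.val p, ← Nat.div_add_mod ν'.val p, h6, h4]
  rwa [Finset.card_range] at h1

open Classical in
private lemma FP1_fibre (p mm : ℕ) [NeZero mm] (hmm : mm = p ^ 2) (hp : p.Prime) (hp2 : p ≠ 2)
    (b : ℤ) (hb : ¬ (mm : ℤ) ∣ b) (D : ZMod mm) :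
    (univ.filter fun ν : ZMod mm => IsUnit ν ∧ ν ^ 2 * D = (b : ZMod mm)).card
      ≤ 2 * (if (p : ℤ) ∣ b then p else 1) := by
  have hpZ : Prime (p : ℤ) := Nat.prime_iff_prime_int.1 hp
  have hmmZ : (mm : ℤ) = (p : ℤ) ^ 2 := by rw [hmm]; push_cast; rfl
  rcases (univ.filter fun ν : ZMod mm => IsUnit ν ∧ ν ^ 2 * D = (b : ZMod mm)).eq_empty_or_nonempty
    with h0 | ⟨ν₀, hν₀⟩
  · rw [h0, Finset.card_empty]
    exact Nat.zero_le _
  rw [Finset.mem_filter] at hν₀
  obtain ⟨-, hu0, h0⟩ := hν₀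
  have hdvd : ∀ ν : ZMod mm, ν ^ 2 * D = (b : ZMod mm) →
      (p : ℤ) ^ 2 ∣ b * (((ν.val : ℤ) - ν₀.val) * ((ν.val : ℤ) + ν₀.val)) := by
    intro ν hν
    rw [← hmmZ, ← ZMod.intCast_zmod_eq_zero_iff_dvd]
    push_cast
    rw [ZMod.natCast_zmod_val, ZMod.natCast_zmod_val]
    have h1 : (b : ZMod mm) * ν ^ 2 = (b : ZMod mm) * ν₀ ^ 2 := by
      nth_rewrite 1 [← h0]
      rw [← hν]
      ring
    calc (b : ZMod mm) * ((ν - ν₀) * (ν + ν₀)) = (b : ZMod mm) * ν ^ 2 - (b : ZMod mm) * ν₀ ^ 2 := by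
          ring
      _ = 0 := by rw [h1, sub_self]
  by_cases hpb : (p : ℤ) ∣ b
  · rw [if_pos hpb, two_mul]
    obtain ⟨b', rfl⟩ := hpb
    have hb' : ¬ (p : ℤ) ∣ b' := by
      rintro ⟨c, rfl⟩
      apply hb
      rw [hmmZ]
      exact ⟨c, by ring⟩
    refine le_trans (Finset.card_le_card (t := (univ.filter fun ν : ZMod mm =>
      (p : ℤ) ∣ (ν.val : ℤ) - (ν₀.val : ℤ)) ∪ (univ.filter fun ν : ZMod mm =>
      (p : ℤ) ∣ (ν.val : ℤ) - (-(ν₀.val : ℤ)))) ?_)
      (le_trans (Finset.card_union_le _ _) (Nat.add_le_add (FP1_card hmm hp _)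
        (FP1_card hmm hp _)))
    intro ν hν
    rw [Finset.mem_filter] at hν
    have h1 := hdvd ν hν.2.2
    have h2 : (p : ℤ) ∣ b' * (((ν.val : ℤ) - ν₀.val) * ((ν.val : ℤ) + ν₀.val)) := by
      rw [sq, mul_assoc] at h1
      exact Int.dvd_of_mul_dvd_mul_left (by exact_mod_cast hp.ne_zero) h1
    have h3 := (hpZ.dvd_or_dvd h2).resolve_left hb'
    rw [Finset.mem_union, Finset.mem_filter, Finset.mem_filter, sub_neg_eq_add]
    exact (hpZ.dvd_or_dvd h3).imp (fun h => ⟨Finset.mem_univ _, h⟩) fun h => ⟨Finset.mem_univ _, h⟩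
  · rw [if_neg hpb, mul_one]
    refine le_trans (Finset.card_le_card (t := ({ν₀, -ν₀} : Finset (ZMod mm))) ?_)
      (Finset.card_le_two)
    intro ν hν
    rw [Finset.mem_filter] at hν
    have h1 := hdvd ν hν.2.2
    have hcop : IsCoprime ((p : ℤ) ^ 2) b := by
      refine IsCoprime.pow_left ?_
      exact (hpZ.coprime_iff_not_dvd).2 hpb
    have h2 : (p : ℤ) ^ 2 ∣ ((ν.val : ℤ) - ν₀.val) * ((ν.val : ℤ) + ν₀.val) :=
      hcop.dvd_of_dvd_mul_left h1
    rw [Finset.mem_insert, Finset.mem_singleton]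
    by_cases h3 : (p : ℤ) ∣ (ν.val : ℤ) - ν₀.val
    · have h4 : ¬ (p : ℤ) ∣ (ν.val : ℤ) + ν₀.val := by
        intro h5
        have h6 : (p : ℤ) ∣ 2 * (ν.val : ℤ) := by
          have := dvd_add h3 h5
          have h7 : (ν.val : ℤ) - ν₀.val + ((ν.val : ℤ) + ν₀.val) = 2 * (ν.val : ℤ) := by ring
          rwa [h7] at this
        rcases hpZ.dvd_or_dvd h6 with h7 | h7
        · apply hp2
          have h8 : p ∣ 2 := by exact_mod_cast h7
          exact (Nat.prime_dvd_prime_iff_eq hp Nat.prime_two).1 h8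
        · exact FP1_unit hmm hp hν.2.1 h7
      left
      have h5 : (p : ℤ) ^ 2 ∣ (ν.val : ℤ) - ν₀.val := by
        have hc : IsCoprime ((p : ℤ) ^ 2) ((ν.val : ℤ) + ν₀.val) :=
          IsCoprime.pow_left ((hpZ.coprime_iff_not_dvd).2 h4)
        exact hc.dvd_of_dvd_mul_right h2
      rw [← hmmZ, ← ZMod.intCast_zmod_eq_zero_iff_dvd] at h5
      push_cast at h5
      rw [ZMod.natCast_zmod_val, ZMod.natCast_zmod_val, sub_eq_zero] at h5
      exact h5
    · right
      have h5 : (p : ℤ) ^ 2 ∣ (ν.val : ℤ) + ν₀.val := by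
        have hc : IsCoprime ((p : ℤ) ^ 2) ((ν.val : ℤ) - ν₀.val) :=
          IsCoprime.pow_left ((hpZ.coprime_iff_not_dvd).2 h3)
        exact hc.dvd_of_dvd_mul_left h2
      rw [← hmmZ, ← ZMod.intCast_zmod_eq_zero_iff_dvd] at h5
      push_cast at h5
      rw [ZMod.natCast_zmod_val, ZMod.natCast_zmod_val] at h5
      exact eq_neg_of_add_eq_zero_left h5

open Classical in
/-- Proof.  If `p ^ 2` divides `b` then `j ν = 0` for every unit `ν` (as `ν ^ 2 * C` is a unit),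
and all the terms vanish by `hG0`.  Otherwise: two units `ν, ν'` with `j ν = j ν'` satisfy
`b * (ν ^ 2 - ν' ^ 2) = 0` (multiply `C * j ν = b * ν ^ (-2)` out).  If `p` does not divide `b`,
then `(ν - ν') * (ν + ν') = 0`, and as `p` is odd and `ν` a unit, `p` does not divide both
factors: `ν = ν'` or `ν = - ν'`, so every fibre of `j` on the units has at most `2` elements
and the sum is at most `2 * ∑ G`.  If `p` divides `b` exactly once, then `p` divides
`(ν - ν') * (ν + ν')`, so `ν` is congruent to `ν'` or to `- ν'` modulo `p`, and the fibres have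
at most `2 * p` elements.  (`Finset.sum_comp` or `Finset.sum_fiberwise`, and a bound of the
cardinality of the fibres.)  See `Pool.Agent.Helper61.SF.SF3` for a similar count. -/
theorem local_sum (p mm : ℕ) [NeZero mm] (hmm : mm = p ^ 2) (hp : p.Prime) (hp2 : p ≠ 2) (b : ℤ)
    (C : ZMod mm) (hC : IsUnit C) (G : ZMod mm → ℝ) (hG : ∀ j, 0 ≤ G j) (hG0 : G 0 = 0)
    (hG1 : ∑ j, G j ≤ 1) (j : ZMod mm → ZMod mm)
    (hj : ∀ ν, IsUnit ν → ν ^ 2 * (C * j ν) = (b : ZMod mm)) :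
    ∑ ν : ZMod mm, (if IsUnit ν then G (j ν) else 0)
      ≤ 2 * (if (p : ℤ) ∣ b then (p : ℝ) else 1) := by
  have hK : (0 : ℝ) ≤ 2 * (if (p : ℤ) ∣ b then (p : ℝ) else 1) := by
    split_ifs
    · positivity
    · norm_num
  by_cases hb : (mm : ℤ) ∣ b
  · have h0 : ∀ ν : ZMod mm, (if IsUnit ν then G (j ν) else 0) = 0 := by
      intro ν
      split_ifs with hν
      · have h1 := hj ν hν
        rw [(ZMod.intCast_zmod_eq_zero_iff_dvd b mm).2 hb] at h1
        have h2 := (hν.pow 2).mul_right_eq_zero.1 h1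
        have h3 := hC.mul_right_eq_zero.1 h2
        rw [h3, hG0]
      · rfl
    rw [Finset.sum_congr rfl fun ν _ => h0 ν, Finset.sum_const_zero]
    exact hK
  · rw [← Finset.sum_filter, ← Finset.sum_fiberwise (univ.filter fun ν : ZMod mm => IsUnit ν) j]
    have h1 : ∀ y : ZMod mm,
        ∑ ν ∈ univ.filter (fun ν : ZMod mm => IsUnit ν) with j ν = y, G (j ν) ≤
          (2 * (if (p : ℤ) ∣ b then (p : ℝ) else 1)) * G y := by
      intro y
      have h2 : ∑ ν ∈ univ.filter (fun ν : ZMod mm => IsUnit ν) with j ν = y, G (j ν) =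
          ∑ ν ∈ univ.filter (fun ν : ZMod mm => IsUnit ν) with j ν = y, G y :=
        Finset.sum_congr rfl fun ν hν => by rw [(Finset.mem_filter.1 hν).2]
      rw [h2, Finset.sum_const, nsmul_eq_mul]
      refine mul_le_mul_of_nonneg_right ?_ (hG y)
      have h3 := FP1_fibre p mm hmm hp hp2 b hb (C * y)
      have h4 : ((univ.filter (fun ν : ZMod mm => IsUnit ν)).filter (fun ν => j ν = y)).card ≤
          (univ.filter fun ν : ZMod mm => IsUnit ν ∧ ν ^ 2 * (C * y) = (b : ZMod mm)).card := by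
        refine Finset.card_le_card fun ν hν => ?_
        rw [Finset.mem_filter, Finset.mem_filter] at hν
        rw [Finset.mem_filter]
        refine ⟨Finset.mem_univ _, hν.1.2, ?_⟩
        rw [← hν.2]
        exact hj ν hν.1.2
      have h5 := h4.trans h3
      have h6 : ((((univ.filter (fun ν : ZMod mm => IsUnit ν)).filter
          (fun ν => j ν = y)).card : ℕ) : ℝ) ≤
          ((2 * (if (p : ℤ) ∣ b then p else 1) : ℕ) : ℝ) := by exact_mod_cast h5
      refine h6.trans (le_of_eq ?_)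
      push_cast
      rfl
    refine (Finset.sum_le_sum fun y _ => h1 y).trans ?_
    rw [← Finset.mul_sum]
    calc _ ≤ (2 * (if (p : ℤ) ∣ b then (p : ℝ) else 1)) * 1 := mul_le_mul_of_nonneg_left hG1 hK
      _ = _ := mul_one _

end Pool.Agent.Helper24.FP
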