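import Mathlib

/-!
# Project FP (MP_d5570f_nt), piece FP-2: a product of periodic functions on an interval
-/

open Finset

namespace Pool.Agent.Helper24.FP

/-- Proof.  The tuple `(n mod m i)`, `i ∈ U`, determines `n` modulo `P = ∏ m i` (Chinese
remainder theorem, `Finset.prod_dvd_of_coprime` or `Nat.chineseRemainderOfFinset`), so at most
`X / P + 1` of the `n ≤ X` have a given tuple (`n ↦ n / P` is injective on them, with values
`≤ X / P`), and the sum over all tuples of the product is the product of the sums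
(`Finset.prod_univ_sum` over the subtype, or `Finset.prod_sum`). -/
theorem crt_sum {ι : Type*} [DecidableEq ι] (U : Finset ι) (m : ι → ℕ) [∀ i, NeZero (m i)]
    (hc : ∀ i ∈ U, ∀ j ∈ U, i ≠ j → Nat.Coprime (m i) (m j)) (X : ℕ)
    (φ : ∀ i, ZMod (m i) → ℝ) (hφ : ∀ i ν, 0 ≤ φ i ν) :
    ∑ n ∈ Finset.range (X + 1), ∏ i ∈ U, φ i (n : ZMod (m i))
      ≤ ((X : ℝ) / (∏ i ∈ U, (m i : ℝ)) + 1) * ∏ i ∈ U, ∑ ν : ZMod (m i), φ i ν := by
  classical
  have hcast : ∏ i ∈ U, (m i : ℝ) = ((∏ i ∈ U, m i : ℕ) : ℝ) := by push_cast; rfl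
  rw [hcast]
  set P := ∏ i ∈ U, m i with hP
  have hPpos : 0 < P := Finset.prod_pos fun i _ => Nat.pos_of_ne_zero (NeZero.ne (m i))
  let F : ℕ → (∀ i ∈ U, ZMod (m i)) := fun n i _ => (n : ZMod (m i))
  have hcard : ∀ p : (∀ i ∈ U, ZMod (m i)),
      (((range (X + 1)).filter (fun n => F n = p)).card : ℝ) ≤ (X : ℝ) / P + 1 := by
    intro p
    have h1 : ((range (X + 1)).filter (fun n => F n = p)).card ≤ (range (X / P + 1)).card := by
      refine Finset.card_le_card_of_injOn (fun n => n / P) ?_ ?_
      · intro n hn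
        have hn' : n < X + 1 := Finset.mem_range.1 (Finset.mem_filter.1 (Finset.mem_coe.1 hn)).1
        exact Finset.mem_coe.2 (Finset.mem_range.2
          (Nat.lt_succ_of_le (Nat.div_le_div_right (Nat.le_of_lt_succ hn'))))
      · intro n hn n' hn' he
        have e1 : F n = p := (Finset.mem_filter.1 (Finset.mem_coe.1 hn)).2
        have e2 : F n' = p := (Finset.mem_filter.1 (Finset.mem_coe.1 hn')).2
        have e3 : ∀ i ∈ U, (n : ZMod (m i)) = (n' : ZMod (m i)) := by
          intro i hi
          have := congrFun (congrFun (e1.trans e2.symm) i) hi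
          exact this
        have e4 : ((P : ℕ) : ℤ) ∣ (n : ℤ) - (n' : ℤ) := by
          rw [hP]
          push_cast
          refine Finset.prod_dvd_of_coprime ?_ ?_
          · intro i hi j hj hij
            exact (Nat.isCoprime_iff_coprime).2 (hc i hi j hj hij)
          · intro i hi
            have h5 := (ZMod.natCast_eq_natCast_iff' n n' (m i)).1 (e3 i hi)
            exact (Nat.modEq_iff_dvd.1 (Nat.ModEq.symm h5))
        have e5 : n % P = n' % P := by
          have := (Nat.modEq_iff_dvd.2 e4)
          exact this.symm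
        have he' : n / P = n' / P := he
        calc n = P * (n / P) + n % P := (Nat.div_add_mod n P).symm
          _ = P * (n' / P) + n' % P := by rw [he', e5]
          _ = n' := Nat.div_add_mod n' P
    rw [Finset.card_range] at h1
    have h2 : ((X / P : ℕ) : ℝ) ≤ (X : ℝ) / P := Nat.cast_div_le
    have h3 : (((range (X + 1)).filter (fun n => F n = p)).card : ℝ) ≤ ((X / P + 1 : ℕ) : ℝ) := by
      exact_mod_cast h1
    push_cast at h3
    linarith
  rw [Finset.prod_sum, Finset.mul_sum,
    ← Finset.sum_fiberwise_of_maps_to (s := range (X + 1)) (t := U.pi fun i => Finset.univ)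
      (g := F) (fun n _ => by simp)]
  refine Finset.sum_le_sum fun p _ => ?_
  have h4 : ∀ n ∈ (range (X + 1)).filter (fun n => F n = p),
      ∏ i ∈ U, φ i (n : ZMod (m i)) = ∏ x ∈ U.attach, φ x.1 (p x.1 x.2) := by
    intro n hn
    have e1 : F n = p := (Finset.mem_filter.1 hn).2
    rw [← Finset.prod_attach]
    refine Finset.prod_congr rfl fun x _ => ?_
    rw [← e1]
  rw [Finset.sum_congr rfl h4, Finset.sum_const, nsmul_eq_mul]
  exact mul_le_mul_of_nonneg_right (hcard p) (Finset.prod_nonneg fun x _ => hφ _ _)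

end Pool.Agent.Helper24.FP
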