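import Mathlib

/-!
# Project FP (MP_d5570f_nt), piece FP-3: the sum over the numerators
-/

open Finset

namespace Pool.Agent.Helper24.FP

private lemma b_count (d K : ℕ) (hd : 0 < d) :
    (((Finset.Icc (-(K : ℤ)) K).erase 0).filter (fun b => (d : ℤ) ∣ b)).card * d ≤ 2 * K := by
  have h1 : (((Finset.Icc (-(K : ℤ)) K).erase 0).filter (fun b => (d : ℤ) ∣ b)).card ≤
      ((Finset.Icc (-((K / d : ℕ) : ℤ)) ((K / d : ℕ) : ℤ)).erase 0).card := by
    refine Finset.card_le_card_of_injOn (fun b => b / (d : ℤ)) ?_ ?_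
    · intro b hb
      rw [Finset.mem_coe, Finset.mem_filter, Finset.mem_erase, Finset.mem_Icc] at hb
      obtain ⟨⟨hb0, hb1, hb2⟩, c, rfl⟩ := hb
      have hd' : (0 : ℤ) < d := by exact_mod_cast hd
      rw [Finset.mem_coe, Finset.mem_erase, Finset.mem_Icc]
      dsimp only
      rw [Int.mul_ediv_cancel_left _ hd'.ne']
      refine ⟨?_, ?_, ?_⟩
      · rintro rfl
        exact hb0 (mul_zero _)
      · rw [Int.natCast_div, neg_le, Int.le_ediv_iff_mul_le hd']
        linarith [mul_comm (d : ℤ) c]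
      · rw [Int.natCast_div, Int.le_ediv_iff_mul_le hd']
        linarith [mul_comm (d : ℤ) c]
    · intro b hb b' hb' h
      rw [Finset.mem_coe, Finset.mem_filter] at hb hb'
      have h2 : b / (d : ℤ) = b' / (d : ℤ) := h
      rw [← Int.ediv_mul_cancel hb.2, ← Int.ediv_mul_cancel hb'.2, h2]
  have h2 : ((Finset.Icc (-((K / d : ℕ) : ℤ)) ((K / d : ℕ) : ℤ)).erase 0).card =
      2 * (K / d) := by
    generalize K / d = t
    rw [Finset.card_erase_of_mem (by rw [Finset.mem_Icc]; omega), Int.card_Icc]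
    omega
  rw [h2] at h1
  calc _ ≤ 2 * (K / d) * d := Nat.mul_le_mul_right _ h1
    _ = 2 * (K / d * d) := by ring
    _ ≤ 2 * K := Nat.mul_le_mul_left _ (Nat.div_mul_le_self K d)

/-- Proof.  `if q i ∣ b then q i else 1 ≤ 1 + (if q i ∣ b then q i else 0)`; expand the product
over `i ∈ U` into the sum over the subsets `D` of `U` (`Finset.prod_one_add` or
`Finset.prod_add`): the term of `D` is `∏ q i` over `D` if `∏ q i` divides `b` (distinct primes)
and `0` otherwise; the nonzero `b` with `|b| ≤ K` and `d ∣ b` are at most `2 * (K / d)`. -/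
theorem b_sum {ι : Type*} [DecidableEq ι] (U : Finset ι) (q : ι → ℕ) (hq : ∀ i ∈ U, (q i).Prime)
    (hqi : Set.InjOn q U) (K : ℕ) :
    ∑ b ∈ (Finset.Icc (-(K : ℤ)) K).erase 0, ∏ i ∈ U, (if (q i : ℤ) ∣ b then (q i : ℝ) else 1)
      ≤ 2 ^ U.card * (2 * K) := by
  classical
  have h1 : ∀ b ∈ (Finset.Icc (-(K : ℤ)) K).erase 0,
      ∏ i ∈ U, (if (q i : ℤ) ∣ b then (q i : ℝ) else 1) ≤
        ∑ D ∈ U.powerset, ∏ i ∈ D, (if (q i : ℤ) ∣ b then (q i : ℝ) else 0) := by
    intro b _
    rw [← Finset.prod_one_add]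
    refine Finset.prod_le_prod (fun i _ => ?_) (fun i _ => ?_)
    · split_ifs
      · exact Nat.cast_nonneg _
      · exact zero_le_one
    · split_ifs
      · linarith
      · linarith
  refine (Finset.sum_le_sum h1).trans ?_
  rw [Finset.sum_comm]
  have h2 : ∀ D ∈ U.powerset, ∑ b ∈ (Finset.Icc (-(K : ℤ)) K).erase 0,
      ∏ i ∈ D, (if (q i : ℤ) ∣ b then (q i : ℝ) else 0) ≤ 2 * K := by
    intro D hD
    rw [Finset.mem_powerset] at hD
    have h3 : ∀ b ∈ (Finset.Icc (-(K : ℤ)) K).erase 0,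
        ∏ i ∈ D, (if (q i : ℤ) ∣ b then (q i : ℝ) else 0) ≤
          if ((∏ i ∈ D, q i : ℕ) : ℤ) ∣ b then ((∏ i ∈ D, q i : ℕ) : ℝ) else 0 := by
      intro b _
      by_cases hb : ∀ i ∈ D, (q i : ℤ) ∣ b
      · have h4 : ((∏ i ∈ D, q i : ℕ) : ℤ) ∣ b := by
          push_cast
          refine Finset.prod_dvd_of_coprime ?_ hb
          intro i hi j hj hij
          rw [Function.onFun, Nat.isCoprime_iff_coprime, Nat.coprime_primes (hq i (hD hi)) (hq j (hD hj))]
          exact fun h => hij (hqi (hD hi) (hD hj) h)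
        rw [if_pos h4]
        push_cast
        refine (Finset.prod_congr rfl fun i hi => ?_).le
        rw [if_pos (hb i hi)]
      · push Not at hb
        obtain ⟨i, hi, hb⟩ := hb
        rw [Finset.prod_eq_zero hi (if_neg hb)]
        split_ifs
        · exact Nat.cast_nonneg _
        · exact le_rfl
    refine (Finset.sum_le_sum h3).trans ?_
    rw [← Finset.sum_filter, Finset.sum_const, nsmul_eq_mul]
    have hd : 0 < ∏ i ∈ D, q i := Finset.prod_pos fun i hi => (hq i (hD hi)).pos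
    exact_mod_cast b_count (∏ i ∈ D, q i) K hd
  refine (Finset.sum_le_card_nsmul _ _ _ h2).trans ?_
  rw [Finset.card_powerset, nsmul_eq_mul]
  push_cast
  exact le_rfl

/-- Lower bound for a binomial coefficient: `(n choose k) = ∏ (n - i) / (k - i)`, `i < k`, and
`(n - i) / (k - i) ≥ n / k` for `i < k ≤ n` (induction on `k` with
`Nat.succ_mul_choose_eq` or `Nat.choose_succ_right_eq` also works). -/
theorem choose_lower (n k : ℕ) (hk : 1 ≤ k) (hkn : k ≤ n) :
    ((n : ℝ) / k) ^ k ≤ (n.choose k : ℝ) := by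
  induction k generalizing n with
  | zero => exact absurd hk (by norm_num)
  | succ k ih =>
    obtain ⟨m, rfl⟩ : ∃ m, n = m + 1 := ⟨n - 1, by omega⟩
    rcases Nat.eq_zero_or_pos k with h0 | h0
    · subst h0
      norm_num
    · have h1 := ih m h0 (by omega)
      have h2 : ((m + 1 : ℕ) : ℝ) * (m.choose k : ℝ) =
          ((m + 1).choose (k + 1) : ℝ) * ((k + 1 : ℕ) : ℝ) := by
        exact_mod_cast Nat.add_one_mul_choose_eq m k
      have hk0 : (0 : ℝ) < k := by exact_mod_cast h0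
      have hk1 : (0 : ℝ) < ((k + 1 : ℕ) : ℝ) := by positivity
      have hmk : (k : ℝ) ≤ m := by exact_mod_cast (by omega : k ≤ m)
      have h3 : ((m + 1).choose (k + 1) : ℝ) =
          ((m + 1 : ℕ) : ℝ) / ((k + 1 : ℕ) : ℝ) * (m.choose k : ℝ) := by
        rw [div_mul_eq_mul_div, h2, mul_div_assoc, div_self hk1.ne', mul_one]
      have h4 : ((m + 1 : ℕ) : ℝ) / ((k + 1 : ℕ) : ℝ) ≤ (m : ℝ) / k := by
        rw [div_le_div_iff₀ hk1 hk0]
        push_cast
        nlinarith
      have h5 : 0 ≤ ((m + 1 : ℕ) : ℝ) / ((k + 1 : ℕ) : ℝ) := by positivity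
      rw [h3, pow_succ']
      exact mul_le_mul_of_nonneg_left ((pow_le_pow_left₀ h5 h4 k).trans h1) h5

end Pool.Agent.Helper24.FP
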