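import Mathlib
import Pool.Agent.Helper24.FP.Freq
import Pool.Agent.Helper24.FP.FP1
import Pool.Agent.Helper24.FP.FP2
import Pool.Agent.Helper24.FP.FP3

/-!
# Project FP (MP_d5570f_nt): the contribution of one set `S` and one difference `U`
-/

set_option linter.unusedSectionVars false

open Finset Pool.Agent.Helper94.SF

namespace Pool.Agent.Helper24.FP

variable {ι : Type*} [Fintype ι] [DecidableEq ι]
variable (m : ι → ℕ) [∀ i, NeZero (m i)] (u : ι → ℤ) (F : ∀ i, ZMod (m i) → ℝ)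

/-- The indices outside of `S`. -/
def Yx (S : Finset ι) (x : Finset ι × Finset ι × Finset ι) : Finset ι :=
  (x.1 ∪ (x.2.1 ∪ x.2.2)) \ S

/-- The product of the primes outside of `S`. -/
def nn (q : ι → ℕ) (S : Finset ι) (x : Finset ι × Finset ι × Finset ι) : ℕ :=
  ∏ j ∈ Yx S x, q j

/-- The pair of monomials. -/
def wx (S : Finset ι) (x : Finset ι × Finset ι × Finset ι) :
    (Finset ι × Finset ι) × (Finset ι × Finset ι) := ((S, x.2.1), (x.1, x.2.2))

theorem su_wx (S : Finset ι) (x : Finset ι × Finset ι × Finset ι) :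
    su (wx S x) = S ∪ Yx S x := by
  unfold su wx Yx
  ext i
  simp only [Finset.mem_union, Finset.mem_sdiff]
  tauto

theorem disj_S (S : Finset ι) (x : Finset ι × Finset ι × Finset ι) :
    Disjoint S (Yx S x) := Finset.disjoint_sdiff

/-- The constants. -/
def Cc (q : ι → ℕ) (S : Finset ι) (i : ι) : ZMod (m i) :=
  ((∏ j ∈ S.erase i, q j : ℕ) : ZMod (m i)) ^ 2

theorem unit_prod (q : ι → ℕ) (hm : ∀ i, m i = q i ^ 2) (hq : ∀ i, (q i).Prime)
    (hqi : Function.Injective q) (T : Finset ι) (i : ι) (hi : i ∉ T) :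
    IsUnit ((∏ j ∈ T, q j : ℕ) : ZMod (m i)) := by
  rw [ZMod.isUnit_iff_coprime, hm i]
  apply Nat.Coprime.pow_right
  apply Nat.Coprime.prod_left
  intro j hj
  rw [Nat.coprime_primes (hq j) (hq i)]
  intro h
  exact hi (hqi h ▸ hj)

theorem rel_i (q : ι → ℕ) (hm : ∀ i, m i = q i ^ 2)
    (hu : ∀ i, ((u i * ∏ j ∈ Finset.univ.erase i, (m j : ℤ) : ℤ) : ZMod (m i)) = 1)
    (S : Finset ι) (x : Finset ι × Finset ι × Finset ι) (i : ι) (hi : i ∈ S) (b : ℤ) :
    ((nn q S x : ℕ) : ZMod (m i)) ^ 2 * (Cc m q S i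
      * ((u i * (b * Wt m (wx S x)) : ℤ) : ZMod (m i))) = (b : ZMod (m i)) := by
  have hS : (∏ j ∈ Finset.univ.erase i, (m j : ℤ))
      = (Wt m (wx S x) : ℤ) * (((∏ j ∈ S.erase i, q j : ℕ) : ℤ) ^ 2
        * ((nn q S x : ℕ) : ℤ) ^ 2) := by
    have e1 : (∏ j ∈ Finset.univ.erase i, m j) * m i = ∏ j, m j :=
      Finset.prod_erase_mul _ _ (Finset.mem_univ i)
    have e2 := Wt_mul m (wx S x)
    have e3 : ∏ j ∈ su (wx S x), m j = (∏ j ∈ S.erase i, m j) * m i * ∏ j ∈ Yx S x, m j := by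
      rw [su_wx, Finset.prod_union (disj_S S x), Finset.prod_erase_mul _ _ hi]
    have hmp : 0 < m i := Nat.pos_of_ne_zero (NeZero.ne (m i))
    have e5 : ∀ T : Finset ι, ∏ j ∈ T, m j = (∏ j ∈ T, q j) ^ 2 := by
      intro T
      rw [← Finset.prod_pow]
      exact Finset.prod_congr rfl fun j _ => hm j
    have e4 : (∏ j ∈ Finset.univ.erase i, m j)
        = Wt m (wx S x) * ((∏ j ∈ S.erase i, q j) ^ 2 * (nn q S x) ^ 2) := by
      apply Nat.eq_of_mul_eq_mul_right hmp
      rw [e1, ← e2, e3, e5 (S.erase i), e5 (Yx S x)]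
      unfold nn
      ring
    exact_mod_cast e4
  have h := hu i
  rw [hS] at h
  unfold Cc
  calc ((nn q S x : ℕ) : ZMod (m i)) ^ 2 * (((∏ j ∈ S.erase i, q j : ℕ) : ZMod (m i)) ^ 2
        * ((u i * (b * Wt m (wx S x)) : ℤ) : ZMod (m i)))
      = (b : ZMod (m i)) * ((u i * ((Wt m (wx S x) : ℤ) * (((∏ j ∈ S.erase i, q j : ℕ) : ℤ) ^ 2
        * ((nn q S x : ℕ) : ℤ) ^ 2)) : ℤ) : ZMod (m i)) := by
        push_cast; ring
    _ = b := by rw [h, mul_one]

/-- The position in the local group. -/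
noncomputable def Jj (q : ι → ℕ) (S : Finset ι) (b : ℤ) (i : ι) (ν : ZMod (m i)) : ZMod (m i) :=
  (b : ZMod (m i)) * (ν ^ 2 * Cc m q S i)⁻¹

open Classical in
/-- The local factor. -/
noncomputable def ph (q : ι → ℕ) (S : Finset ι) (b : ℤ) (i : ι) (ν : ZMod (m i)) : ℝ :=
  if IsUnit ν then gg m F i (Jj m q S b i ν) ^ 2 else 0

theorem ph_nonneg (q : ι → ℕ) (S : Finset ι) (b : ℤ) (i : ι) (ν : ZMod (m i)) :
    0 ≤ ph m F q S b i ν := by
  unfold ph
  split_ifs
  · exact sq_nonneg _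
  · exact le_rfl

theorem Jj_rel (q : ι → ℕ) (hm : ∀ i, m i = q i ^ 2) (hq : ∀ i, (q i).Prime)
    (hqi : Function.Injective q) (S : Finset ι) (b : ℤ) (i : ι) (ν : ZMod (m i))
    (hν : IsUnit ν) : ν ^ 2 * (Cc m q S i * Jj m q S b i ν) = (b : ZMod (m i)) := by
  have hC : IsUnit (Cc m q S i) :=
    (unit_prod m q hm hq hqi (S.erase i) i (Finset.notMem_erase i S)).pow 2
  have h1 : IsUnit (ν ^ 2 * Cc m q S i) := (hν.pow 2).mul hC
  unfold Jj
  calc ν ^ 2 * (Cc m q S i * ((b : ZMod (m i)) * (ν ^ 2 * Cc m q S i)⁻¹))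
      = (b : ZMod (m i)) * ((ν ^ 2 * Cc m q S i) * (ν ^ 2 * Cc m q S i)⁻¹) := by ring
    _ = (b : ZMod (m i)) := by rw [ZMod.mul_inv_of_unit _ h1, mul_one]

theorem gg_eq_ph (q : ι → ℕ) (hm : ∀ i, m i = q i ^ 2) (hq : ∀ i, (q i).Prime)
    (hqi : Function.Injective q)
    (hu : ∀ i, ((u i * ∏ j ∈ Finset.univ.erase i, (m j : ℤ) : ℤ) : ZMod (m i)) = 1)
    (S : Finset ι) (x : Finset ι × Finset ι × Finset ι) (i : ι) (hi : i ∈ S) (b : ℤ) :
    gg m F i ((u i * (b * Wt m (wx S x)) : ℤ) : ZMod (m i)) ^ 2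
      = ph m F q S b i ((nn q S x : ℕ) : ZMod (m i)) := by
  have hi' : i ∉ Yx S x := fun h => (Finset.disjoint_left.1 (disj_S S x) hi) h
  have hν : IsUnit ((nn q S x : ℕ) : ZMod (m i)) := unit_prod m q hm hq hqi _ i hi'
  have hC : IsUnit (Cc m q S i) :=
    (unit_prod m q hm hq hqi (S.erase i) i (Finset.notMem_erase i S)).pow 2
  unfold ph
  rw [if_pos hν]
  have h1 := rel_i m u q hm hu S x i hi b
  have h2 := Jj_rel m q hm hq hqi S b i _ hν
  have h3 : IsUnit (((nn q S x : ℕ) : ZMod (m i)) ^ 2 * Cc m q S i) := (hν.pow 2).mul hC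
  have h4 : ((u i * (b * Wt m (wx S x)) : ℤ) : ZMod (m i))
      = Jj m q S b i ((nn q S x : ℕ) : ZMod (m i)) := by
    apply h3.mul_left_cancel
    rw [mul_assoc, mul_assoc, h1, h2]
  rw [h4]

theorem sum_ph (q : ι → ℕ) (hm : ∀ i, m i = q i ^ 2) (hq : ∀ i, (q i).Prime)
    (hqi : Function.Injective q) (h0 : ∀ i, ∑ y, F i y = 0)
    (hF : ∀ i, ∑ y, F i y ^ 2 ≤ (m i : ℝ)) (S : Finset ι) (b : ℤ) (i : ι) (hi : q i ≠ 2) :
    ∑ ν : ZMod (m i), ph m F q S b i ν ≤ 2 * (if (q i : ℤ) ∣ b then (q i : ℝ) else 1) := by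
  classical
  have hC : IsUnit (Cc m q S i) :=
    (unit_prod m q hm hq hqi (S.erase i) i (Finset.notMem_erase i S)).pow 2
  have h := local_sum (q i) (m i) (hm i) (hq i) hi b (Cc m q S i) hC
    (fun j => gg m F i j ^ 2) (fun j => sq_nonneg _) (by
      simp only [gg, zero_mul, AddChar.map_zero_eq_one, one_mul]
      rw [← Complex.ofReal_sum, h0 i, Complex.ofReal_zero, norm_zero, zero_div]
      norm_num) (sum_gg_sq m F i (hF i)) (Jj m q S b i)
    (fun ν hν => Jj_rel m q hm hq hqi S b i ν hν)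
  refine le_trans (le_of_eq ?_) h
  refine Finset.sum_congr rfl fun ν _ => ?_
  unfold ph
  split_ifs <;> rfl

/-- The triples. -/
def Ex (P L S U : Finset ι) (k : ℕ) : Finset (Finset ι × Finset ι × Finset ι) :=
  (P.powersetCard (2 * k) ×ˢ L.powersetCard k ×ˢ L.powersetCard k).filter
    (fun x => S \ x.1 = U)

theorem mem_Ex (P L S U : Finset ι) (k : ℕ) (x : Finset ι × Finset ι × Finset ι) :
    x ∈ Ex P L S U k ↔ ((x.1 ⊆ P ∧ x.1.card = 2 * k) ∧ (x.2.1 ⊆ L ∧ x.2.1.card = k)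
      ∧ (x.2.2 ⊆ L ∧ x.2.2.card = k)) ∧ S \ x.1 = U := by
  unfold Ex
  simp only [Finset.mem_filter, Finset.mem_product, Finset.mem_powersetCard]

/-- The primes of the second kind that divide `n`. -/
def Ln (q : ι → ℕ) (L : Finset ι) (n : ℕ) : Finset ι := L.filter (fun i => q i ∣ n)

theorem dvd_nn (q : ι → ℕ) (hq : ∀ i, (q i).Prime) (hqi : Function.Injective q)
    (S : Finset ι) (x : Finset ι × Finset ι × Finset ι) (i : ι) :
    q i ∣ nn q S x ↔ i ∈ Yx S x := by
  unfold nn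
  rw [Prime.dvd_finsetProd_iff (hq i).prime]
  constructor
  · rintro ⟨j, hj, hd⟩
    rw [Nat.prime_dvd_prime_iff_eq (hq i) (hq j)] at hd
    rw [hqi hd]; exact hj
  · intro h
    exact ⟨i, h, dvd_rfl⟩

theorem fibre16 (k : ℕ) (q : ι → ℕ) (hq : ∀ i, (q i).Prime) (hqi : Function.Injective q)
    (P L S U : Finset ι) (hPL : Disjoint P L) (hS : S ⊆ P)
    (n : ℕ) : ((Ex P L S U k).filter (fun x => nn q S x = n)).card ≤ 16 ^ k := by
  classical
  rcases ((Ex P L S U k).filter (fun x => nn q S x = n)).eq_empty_or_nonempty with h0 | ⟨z, hz⟩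
  · rw [h0]; simp
  have hne : ∀ i, i ∈ P → i ∉ L := fun i h h' => (Finset.disjoint_left.1 hPL h) h'
  have hLn : ∀ x ∈ (Ex P L S U k).filter (fun x => nn q S x = n),
      x.2.1 ∪ x.2.2 = Ln q L n := by
    intro x hx
    rw [Finset.mem_filter, mem_Ex] at hx
    obtain ⟨⟨⟨⟨a1, a2⟩, ⟨b1, b2⟩, ⟨c1, c2⟩⟩, hU⟩, hn⟩ := hx
    ext i
    unfold Ln
    rw [Finset.mem_filter, ← hn, dvd_nn q hq hqi]
    unfold Yx
    simp only [Finset.mem_union, Finset.mem_sdiff]
    constructor
    · intro h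
      have hi : i ∈ L := by rcases h with h | h; exacts [b1 h, c1 h]
      exact ⟨hi, Or.inr h, fun h' => hne i (hS h') hi⟩
    · rintro ⟨hi, h, _⟩
      rcases h with h | h
      · exact absurd hi (hne i (a1 h))
      · exact h
  have hLc : (Ln q L n).card ≤ 2 * k := by
    rw [← hLn z hz]
    rw [Finset.mem_filter, mem_Ex] at hz
    refine (Finset.card_union_le _ _).trans ?_
    have := hz.1.1.2.1.2
    have := hz.1.1.2.2.2
    omega
  calc ((Ex P L S U k).filter (fun x => nn q S x = n)).card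
      ≤ ((Ln q L n).powerset ×ˢ (Ln q L n).powerset).card := by
        apply Finset.card_le_card_of_injOn (fun x => x.2)
        · intro x hx
          have hx' : x ∈ (Ex P L S U k).filter (fun x => nn q S x = n) := hx
          have h := hLn x hx'
          simp only [Finset.coe_product, Set.mem_prod, Finset.mem_coe, Finset.mem_powerset]
          rw [← h]
          exact ⟨Finset.subset_union_left, Finset.subset_union_right⟩
        · intro x hx x' hx' hxx
          have hxE : x ∈ (Ex P L S U k).filter (fun x => nn q S x = n) := hx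
          have hxE' : x' ∈ (Ex P L S U k).filter (fun x => nn q S x = n) := hx'
          rw [Finset.mem_filter, mem_Ex] at hxE hxE'
          obtain ⟨⟨⟨⟨a1, a2⟩, ⟨b1, b2⟩, ⟨c1, c2⟩⟩, hU⟩, hn⟩ := hxE
          obtain ⟨⟨⟨⟨a1', a2'⟩, ⟨b1', b2'⟩, ⟨c1', c2'⟩⟩, hU'⟩, hn'⟩ := hxE'
          refine Prod.ext ?_ hxx
          have key : ∀ i, i ∉ S → (i ∈ x.1 ↔ i ∈ x'.1) := by
            intro i hi
            have h1 := dvd_nn q hq hqi S x i
            have h2 := dvd_nn q hq hqi S x' i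
            rw [hn] at h1
            rw [hn'] at h2
            have h3 := h1.symm.trans h2
            unfold Yx at h3
            simp only [Finset.mem_union, Finset.mem_sdiff] at h3
            constructor
            · intro h
              have h4 := (h3.1 ⟨Or.inl h, hi⟩).1
              rcases h4 with h4 | h4
              · exact h4
              · exfalso
                rcases h4 with h4 | h4
                · exact hne i (a1 h) (b1' h4)
                · exact hne i (a1 h) (c1' h4)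
            · intro h
              have h4 := (h3.2 ⟨Or.inl h, hi⟩).1
              rcases h4 with h4 | h4
              · exact h4
              · exfalso
                rcases h4 with h4 | h4
                · exact hne i (a1' h) (b1 h4)
                · exact hne i (a1' h) (c1 h4)
          ext i
          by_cases hi : i ∈ S
          · have e1 : i ∈ x.1 ↔ i ∉ U := by
              rw [← hU, Finset.mem_sdiff]; tauto
            have e2 : i ∈ x'.1 ↔ i ∉ U := by
              rw [← hU', Finset.mem_sdiff]; tauto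
            rw [e1, e2]
          · exact key i hi
    _ = 2 ^ (Ln q L n).card * 2 ^ (Ln q L n).card := by
        rw [Finset.card_product, Finset.card_powerset]
    _ ≤ 2 ^ (2 * k) * 2 ^ (2 * k) :=
        Nat.mul_le_mul (Nat.pow_le_pow_right (by norm_num) hLc)
          (Nat.pow_le_pow_right (by norm_num) hLc)
    _ = 16 ^ k := by
        rw [← pow_add, show (16 : ℕ) = 2 ^ 4 by norm_num, ← pow_mul]
        congr 1; ring

end Pool.Agent.Helper24.FP
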