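import Mathlib
import Pool.Agent.Helper24.FP.Fix

/-!
# Project FP (MP_d5570f_nt): the total second moment
-/

set_option linter.unusedSectionVars false

open Finset Pool.Agent.Helper94.SF

namespace Pool.Agent.Helper24.FP

variable {ι : Type*} [Fintype ι] [DecidableEq ι]
variable (m : ι → ℕ) [∀ i, NeZero (m i)] (u : ι → ℤ) (F : ∀ i, ZMod (m i) → ℝ)

theorem card_swap_sdiff (S T : Finset ι) (h : S.card = T.card) :
    (T \ S).card = (S \ T).card := by
  have e1 := Finset.card_sdiff_add_card_inter S T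
  have e2 := Finset.card_sdiff_add_card_inter T S
  rw [Finset.inter_comm] at e2
  omega

theorem nn_le (y k : ℕ) (hy1 : 1 ≤ y) (q : ι → ℕ) (P L S U : Finset ι)
    (hy : ∀ i ∈ P ∪ L, q i ≤ y) (hSc : S.card = 2 * k)
    (x : Finset ι × Finset ι × Finset ι) (hx : x ∈ Ex P L S U k) :
    nn q S x ≤ y ^ (2 * k + U.card) := by
  rw [mem_Ex] at hx
  obtain ⟨⟨⟨a1, a2⟩, ⟨b1, b2⟩, ⟨c1, c2⟩⟩, hU⟩ := hx
  have h1 : (Yx S x).card ≤ 2 * k + U.card := by
    have e1 : Yx S x ⊆ (x.1 \ S) ∪ (x.2.1 ∪ x.2.2) := by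
      intro i hi
      unfold Yx at hi
      simp only [Finset.mem_union, Finset.mem_sdiff] at hi ⊢
      tauto
    refine (Finset.card_le_card e1).trans ((Finset.card_union_le _ _).trans ?_)
    have e2 := Finset.card_union_le x.2.1 x.2.2
    have e3 := card_swap_sdiff S x.1 (by rw [hSc, a2])
    rw [hU] at e3
    omega
  unfold nn
  calc ∏ j ∈ Yx S x, q j ≤ ∏ _j ∈ Yx S x, y := by
        apply Finset.prod_le_prod' fun i hi => hy i ?_
        unfold Yx at hi
        simp only [Finset.mem_union, Finset.mem_sdiff] at hi ⊢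
        rcases hi.1 with h | h | h
        · exact Or.inl (a1 h)
        · exact Or.inr (b1 h)
        · exact Or.inr (c1 h)
    _ = y ^ (Yx S x).card := by rw [Finset.prod_const]
    _ ≤ y ^ (2 * k + U.card) := Nat.pow_le_pow_right hy1 h1

/-- The numbers. -/
theorem num_fix (y : ℝ) (hy : 1 ≤ y) (N : ℝ) (hN : 0 < N) (k v : ℕ) (hv : v ≤ 2 * k)
    (Q K : ℝ) (hQ0 : 0 < Q) (hQ : y ^ (2 * v) ≤ 16 ^ v * Q) (hK0 : 0 ≤ K)
    (hK : K ≤ y ^ (8 * k + 2 * v) / (8 * N)) :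
    16 ^ k * (y ^ (2 * k + v) / Q + 1) * (2 ^ v * (2 ^ v * (2 * K)))
      ≤ 65536 ^ k * y ^ (12 * k) / (2 * N) := by
  have hy0 : 0 < y := by linarith
  have h1 : y ^ (2 * k + v) / Q ≤ 16 ^ v * y ^ (2 * k - v) := by
    rw [div_le_iff₀ hQ0]
    calc y ^ (2 * k + v) = y ^ (2 * k - v) * y ^ (2 * v) := by
          rw [← pow_add]; congr 1; omega
      _ ≤ y ^ (2 * k - v) * (16 ^ v * Q) := mul_le_mul_of_nonneg_left hQ (by positivity)
      _ = 16 ^ v * y ^ (2 * k - v) * Q := by ring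
  have h2 : (1 : ℝ) ≤ 16 ^ v * y ^ (2 * k - v) :=
    one_le_mul_of_one_le_of_one_le (one_le_pow₀ (by norm_num)) (one_le_pow₀ hy)
  have h3 : y ^ (2 * k + v) / Q + 1 ≤ 2 * (16 ^ v * y ^ (2 * k - v)) := by linarith
  have h4 : (0 : ℝ) ≤ 2 ^ v * (2 ^ v * (2 * K)) := by positivity
  calc 16 ^ k * (y ^ (2 * k + v) / Q + 1) * (2 ^ v * (2 ^ v * (2 * K)))
      ≤ 16 ^ k * (2 * (16 ^ v * y ^ (2 * k - v))) * (2 ^ v * (2 ^ v * (2 * K))) := by
        apply mul_le_mul_of_nonneg_right _ h4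
        exact mul_le_mul_of_nonneg_left h3 (by positivity)
    _ ≤ 16 ^ k * (2 * (16 ^ v * y ^ (2 * k - v)))
          * (2 ^ v * (2 ^ v * (2 * (y ^ (8 * k + 2 * v) / (8 * N))))) := by
        apply mul_le_mul_of_nonneg_left _ (by positivity)
        gcongr
    _ = (16 ^ k * (64 ^ v * (y ^ (2 * k - v) * y ^ (8 * k + 2 * v)))) / (2 * N) := by
        have : (64 : ℝ) ^ v = 16 ^ v * (2 ^ v * 2 ^ v) := by
          rw [← mul_pow, ← mul_pow]; norm_num
        rw [this]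
        field_simp
        norm_num
    _ = (16 ^ k * (64 ^ v * y ^ (10 * k + v))) / (2 * N) := by
        rw [← pow_add]; congr 4; omega
    _ ≤ (16 ^ k * (64 ^ (2 * k) * y ^ (12 * k))) / (2 * N) := by
        apply div_le_div_of_nonneg_right _ (by positivity)
        apply mul_le_mul_of_nonneg_left _ (by positivity)
        apply mul_le_mul (pow_le_pow_right₀ (by norm_num) hv)
          (pow_le_pow_right₀ hy (by omega)) (by positivity) (by positivity)
    _ = 65536 ^ k * y ^ (12 * k) / (2 * N) := by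
        have : (65536 : ℝ) ^ k = 16 ^ k * 64 ^ (2 * k) := by
          rw [pow_mul, ← mul_pow]; norm_num
        rw [this]; ring

theorem fixU (q : ι → ℕ) (hm : ∀ i, m i = q i ^ 2) (hq : ∀ i, (q i).Prime)
    (hqi : Function.Injective q) (hc : ∀ i j, i ≠ j → Nat.Coprime (m i) (m j))
    (hu : ∀ i, ((u i * ∏ j ∈ Finset.univ.erase i, (m j : ℤ) : ℤ) : ZMod (m i)) = 1)
    (h0 : ∀ i, ∑ y, F i y = 0) (hF : ∀ i, ∑ y, F i y ^ 2 ≤ (m i : ℝ))
    (y k N : ℕ) (hy8 : 8 ≤ y) (hN : 0 < N)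
    (P L : Finset ι) (hPL : Disjoint P L) (hy : ∀ i ∈ P ∪ L, q i ≤ y)
    (hlow : ∀ i ∈ P, y < 4 * q i)
    (S U : Finset ι) (hS : S ⊆ P) (hSc : S.card = 2 * k) (hUS : U ⊆ S) :
    ∑ x ∈ Ex P L S U k, VV m u F y k N (wx S x)
      ≤ 65536 ^ k * (y : ℝ) ^ (12 * k) / (2 * N) := by
  classical
  set v := U.card with hv
  have hv2 : v ≤ 2 * k := by rw [← hSc]; exact Finset.card_le_card hUS
  set K : ℕ := y ^ (8 * k + 2 * v) / (8 * N) with hK
  set X : ℕ := y ^ (2 * k + v) with hX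
  have hq2 : ∀ i ∈ U, q i ≠ 2 := by
    intro i hi
    have := hlow i (hS (hUS hi))
    omega
  have h1 : ∑ x ∈ Ex P L S U k, VV m u F y k N (wx S x)
      = ∑ b ∈ bz K, ∑ x ∈ Ex P L S U k, ∏ i ∈ U, ph m F q S b i ((nn q S x : ℕ) : ZMod (m i)) := by
    rw [Finset.sum_comm]
    refine Finset.sum_congr rfl fun x hx => ?_
    have hU : S \ x.1 = U := ((mem_Ex P L S U k x).1 hx).2
    unfold VV
    have e : (wx S x).1.1 \ (wx S x).2.1 = U := hU
    rw [e]
    refine Finset.sum_congr rfl fun b _ => Finset.prod_congr rfl fun i hi => ?_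
    exact gg_eq_ph m u F q hm hq hqi hu S x i (hUS hi) b
  rw [h1]
  set Q : ℝ := ∏ i ∈ U, (m i : ℝ) with hQ
  have hQ0 : 0 < Q := Finset.prod_pos fun i _ => by
    exact_mod_cast Nat.pos_of_ne_zero (NeZero.ne (m i))
  have hb : ∀ b ∈ bz K, ∑ x ∈ Ex P L S U k, ∏ i ∈ U, ph m F q S b i ((nn q S x : ℕ) : ZMod (m i))
      ≤ 16 ^ k * ((X : ℝ) / Q + 1)
        * (2 ^ v * ∏ i ∈ U, (if (q i : ℤ) ∣ b then (q i : ℝ) else 1)) := by
    intro b _
    have hmaps : ∀ x ∈ Ex P L S U k, nn q S x ∈ Finset.range (X + 1) := by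
      intro x hx
      rw [Finset.mem_range]
      exact Nat.lt_succ_of_le (nn_le y k (by omega) q P L S U hy hSc x hx)
    rw [← Finset.sum_fiberwise_of_maps_to hmaps]
    have h2 : ∀ n ∈ Finset.range (X + 1),
        ∑ x ∈ (Ex P L S U k).filter (fun x => nn q S x = n),
          ∏ i ∈ U, ph m F q S b i ((nn q S x : ℕ) : ZMod (m i))
        ≤ 16 ^ k * ∏ i ∈ U, ph m F q S b i ((n : ℕ) : ZMod (m i)) := by
      intro n _
      have e1 : ∑ x ∈ (Ex P L S U k).filter (fun x => nn q S x = n),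
          ∏ i ∈ U, ph m F q S b i ((nn q S x : ℕ) : ZMod (m i))
          = ((Ex P L S U k).filter (fun x => nn q S x = n)).card
            * ∏ i ∈ U, ph m F q S b i ((n : ℕ) : ZMod (m i)) := by
        rw [← nsmul_eq_mul, ← Finset.sum_const]
        refine Finset.sum_congr rfl fun x hx => ?_
        rw [(Finset.mem_filter.1 hx).2]
      rw [e1]
      apply mul_le_mul_of_nonneg_right _ (Finset.prod_nonneg fun i _ => ph_nonneg m F q S b i _)
      exact_mod_cast fibre16 k q hq hqi P L S U hPL hS n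
    refine (Finset.sum_le_sum h2).trans ?_
    rw [← Finset.mul_sum, mul_assoc]
    apply mul_le_mul_of_nonneg_left _ (by positivity)
    have h3 := crt_sum U m (fun i _ j _ hij => hc i j hij) X
      (fun i ν => ph m F q S b i ν) (fun i ν => ph_nonneg m F q S b i ν)
    refine h3.trans ?_
    apply mul_le_mul_of_nonneg_left _ (by positivity)
    have h4 : ∏ i ∈ U, ∑ ν : ZMod (m i), ph m F q S b i ν
        ≤ ∏ i ∈ U, (2 * (if (q i : ℤ) ∣ b then (q i : ℝ) else 1)) := by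
      apply Finset.prod_le_prod
      · intro i _
        exact Finset.sum_nonneg fun ν _ => ph_nonneg m F q S b i ν
      · intro i hi
        exact sum_ph m F q hm hq hqi h0 hF S b i (hq2 i hi)
    refine h4.trans (le_of_eq ?_)
    rw [Finset.prod_mul_distrib, Finset.prod_const]
  refine (Finset.sum_le_sum hb).trans ?_
  rw [← Finset.mul_sum, ← Finset.mul_sum]
  have h5 := b_sum U q (fun i _ => hq i) (fun i _ j _ h => hqi h) K
  have h6 : ∑ b ∈ bz K, ∏ i ∈ U, (if (q i : ℤ) ∣ b then (q i : ℝ) else 1)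
      ≤ 2 ^ v * (2 * (K : ℝ)) := h5
  have h7 : (16 : ℝ) ^ k * ((X : ℝ) / Q + 1)
        * (2 ^ v * ∑ b ∈ bz K, ∏ i ∈ U, (if (q i : ℤ) ∣ b then (q i : ℝ) else 1))
      ≤ 16 ^ k * ((X : ℝ) / Q + 1) * (2 ^ v * (2 ^ v * (2 * (K : ℝ)))) := by
    apply mul_le_mul_of_nonneg_left _ (by positivity)
    exact mul_le_mul_of_nonneg_left h6 (by positivity)
  refine h7.trans ?_
  rw [hX]
  push_cast
  apply num_fix (y : ℝ) (by exact_mod_cast (by omega : 1 ≤ y)) N (by exact_mod_cast hN) k v hv2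
    Q K hQ0 _ (Nat.cast_nonneg _) _
  · rw [hQ, hv, pow_mul, ← Finset.prod_const, ← Finset.prod_const, ← Finset.prod_mul_distrib]
    apply Finset.prod_le_prod
    · intro i _; positivity
    · intro i hi
      rw [hm i]
      have h8 := hlow i (hS (hUS hi))
      have h9 : (y : ℝ) ≤ 4 * q i := by exact_mod_cast h8.le
      push_cast
      have h10 : (0 : ℝ) ≤ y := Nat.cast_nonneg _
      nlinarith
  · rw [hK]
    refine (Nat.cast_div_le).trans (le_of_eq ?_)
    push_cast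
    ring

/-- **The total.** -/
theorem total2 (q : ι → ℕ) (hm : ∀ i, m i = q i ^ 2) (hq : ∀ i, (q i).Prime)
    (hqi : Function.Injective q) (hc : ∀ i j, i ≠ j → Nat.Coprime (m i) (m j))
    (hu : ∀ i, ((u i * ∏ j ∈ Finset.univ.erase i, (m j : ℤ) : ℤ) : ZMod (m i)) = 1)
    (h0 : ∀ i, ∑ y, F i y = 0) (hF : ∀ i, ∑ y, F i y ^ 2 ≤ (m i : ℝ))
    (y k N R : ℕ) (hy8 : 8 ≤ y) (hN : 0 < N) (hR : 8 * N * R ≤ ∏ i, m i)
    (P L : Finset ι) (hPL : Disjoint P L) (hy : ∀ i ∈ P ∪ L, q i ≤ y)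
    (hlow : ∀ i ∈ P, y < 4 * q i) :
    ∑ w ∈ (P.powersetCard (2 * k) ×ˢ L.powersetCard k) ×ˢ
        (P.powersetCard (2 * k) ×ˢ L.powersetCard k),
      ∑ t ∈ Finset.Ioo (-(R : ℤ)) R, ‖cc m u F t (ee w.1 + ee w.2)‖
      ≤ (∏ i, (m i : ℝ)) * ((P.powersetCard (2 * k)).card * (L.powersetCard k).card
        + (P.powersetCard (2 * k)).card * (262144 ^ k * (y : ℝ) ^ (12 * k) / (2 * N))) := by
  classical
  set A1 := P.powersetCard (2 * k) with hA1
  set A2 := L.powersetCard k with hA2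
  set M : ℝ := ∏ i, (m i : ℝ) with hM
  have hM0 : 0 ≤ M := Finset.prod_nonneg fun i _ => Nat.cast_nonneg _
  have hy2 : ∀ i ∈ P ∪ L, m i ≤ y ^ 2 := by
    intro i hi
    rw [hm i]
    exact Nat.pow_le_pow_left (hy i hi) 2
  have hone : ∀ w ∈ (A1 ×ˢ A2) ×ˢ (A1 ×ˢ A2),
      ∑ t ∈ Finset.Ioo (-(R : ℤ)) R, ‖cc m u F t (ee w.1 + ee w.2)‖
      ≤ M * ((if w.1 = w.2 then 1 else 0)
        + (VV m u F y k N w + VV m u F y k N w.swap) / 2) := by
    intro w hw
    simp only [Finset.mem_product, hA1, hA2, Finset.mem_powersetCard] at hw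
    obtain ⟨⟨⟨a1, a2⟩, b1, b2⟩, ⟨c1, c2⟩, d1, d2⟩ := hw
    exact one_pair m u F hc hu h0 hF y k N R (by omega) hN hR P L hPL hy2 w a1 b1 c1 d1 a2 b2 c2 d2
  refine (Finset.sum_le_sum hone).trans ?_
  rw [← Finset.mul_sum]
  apply mul_le_mul_of_nonneg_left _ hM0
  rw [Finset.sum_add_distrib]
  apply add_le_add
  · rw [← Finset.sum_filter, Finset.sum_const, nsmul_eq_mul, mul_one]
    have : (((A1 ×ˢ A2) ×ˢ (A1 ×ˢ A2)).filter (fun w => w.1 = w.2)).card
        ≤ (A1 ×ˢ A2).card := by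
      apply Finset.card_le_card_of_injOn (fun w => w.1)
      · intro w hw
        have hw' : w ∈ ((A1 ×ˢ A2) ×ˢ (A1 ×ˢ A2)).filter (fun w => w.1 = w.2) := hw
        rw [Finset.mem_filter, Finset.mem_product] at hw'
        exact hw'.1.1
      · intro w hw w' hw' h
        have hw1 : w ∈ ((A1 ×ˢ A2) ×ˢ (A1 ×ˢ A2)).filter (fun w => w.1 = w.2) := hw
        have hw2 : w' ∈ ((A1 ×ˢ A2) ×ˢ (A1 ×ˢ A2)).filter (fun w => w.1 = w.2) := hw'
        rw [Finset.mem_filter] at hw1 hw2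
        refine Prod.ext h ?_
        rw [← hw1.2, ← hw2.2]
        exact h
    rw [Finset.card_product] at this
    exact_mod_cast this
  · have hsw : ∑ w ∈ (A1 ×ˢ A2) ×ˢ (A1 ×ˢ A2), VV m u F y k N w.swap
        = ∑ w ∈ (A1 ×ˢ A2) ×ˢ (A1 ×ˢ A2), VV m u F y k N w := by
      apply Finset.sum_nbij' (i := Prod.swap) (j := Prod.swap)
      · intro w hw
        rw [Finset.mem_product] at hw ⊢
        exact ⟨hw.2, hw.1⟩
      · intro w hw
        rw [Finset.mem_product] at hw ⊢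
        exact ⟨hw.2, hw.1⟩
      · intro w _; rfl
      · intro w _; rfl
      · intro w _; rfl
    rw [← Finset.sum_div, Finset.sum_add_distrib, hsw]
    have e1 : ∑ w ∈ (A1 ×ˢ A2) ×ˢ (A1 ×ˢ A2), VV m u F y k N w
        = ∑ S ∈ A1, ∑ x ∈ A1 ×ˢ A2 ×ˢ A2, VV m u F y k N (wx S x) := by
      rw [← Finset.sum_product' (s := A1) (t := A1 ×ˢ A2 ×ˢ A2)
        (f := fun S x => VV m u F y k N (wx S x))]
      apply Finset.sum_nbij' (i := fun w => (w.1.1, (w.2.1, w.1.2, w.2.2)))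
        (j := fun z => wx z.1 z.2)
      · intro w hw
        simp only [Finset.mem_product] at hw ⊢
        exact ⟨hw.1.1, hw.2.1, hw.1.2, hw.2.2⟩
      · intro z hz
        simp only [Finset.mem_product, wx] at hz ⊢
        exact ⟨⟨hz.1, hz.2.2.1⟩, hz.2.1, hz.2.2.2⟩
      · intro w _; rfl
      · intro z _; rfl
      · intro w _; rfl
    have e2 : ∀ S ∈ A1, ∑ x ∈ A1 ×ˢ A2 ×ˢ A2, VV m u F y k N (wx S x)
        ≤ 262144 ^ k * (y : ℝ) ^ (12 * k) / (2 * N) := by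
      intro S hS
      rw [hA1, Finset.mem_powersetCard] at hS
      have hmaps : ∀ x ∈ A1 ×ˢ A2 ×ˢ A2, S \ x.1 ∈ S.powerset := by
        intro x _
        rw [Finset.mem_powerset]
        exact Finset.sdiff_subset
      rw [← Finset.sum_fiberwise_of_maps_to hmaps]
      have h3 : ∀ U ∈ S.powerset,
          ∑ x ∈ (A1 ×ˢ A2 ×ˢ A2).filter (fun x => S \ x.1 = U), VV m u F y k N (wx S x)
          ≤ 65536 ^ k * (y : ℝ) ^ (12 * k) / (2 * N) := by
        intro U hU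
        rw [Finset.mem_powerset] at hU
        exact fixU m u F q hm hq hqi hc hu h0 hF y k N hy8 hN P L hPL hy hlow S U hS.1 hS.2 hU
      refine (Finset.sum_le_sum h3).trans (le_of_eq ?_)
      rw [Finset.sum_const, Finset.card_powerset, hS.2, nsmul_eq_mul]
      push_cast
      have : (262144 : ℝ) ^ k = 2 ^ (2 * k) * 65536 ^ k := by
        rw [pow_mul, ← mul_pow]; norm_num
      rw [this]
      ring
    rw [e1]
    have e3 := Finset.sum_le_sum e2
    rw [Finset.sum_const, nsmul_eq_mul] at e3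
    linarith

end Pool.Agent.Helper24.FP
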