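import Mathlib
import Pool.Agent.Helper24.FP.Tot
import Pool.Agent.Helper24.FP.FP5K
import Pool.Agent.Helper94.SF.Main

/-!
# Project FP (MP_d5570f_nt): the bound for two sets, few primes
-/

set_option linter.unusedSectionVars false

open Finset Pool.Agent.Helper94.SF

namespace Pool.Agent.Helper24.FP

section
variable {ι : Type*} [Fintype ι] [DecidableEq ι]
variable (m : ι → ℕ) [∀ i, NeZero (m i)] (F : ∀ i, ZMod (m i) → ℝ)

/-- The right hand side. -/
noncomputable def Er (y k N : ℕ) : ℝ := 262144 ^ k * (y : ℝ) ^ (12 * k) / (2 * N)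

theorem core2 (q : ι → ℕ) (hm : ∀ i, m i = q i ^ 2) (hq : ∀ i, (q i).Prime)
    (hqi : Function.Injective q)
    (h0 : ∀ i, ∑ y, F i y = 0) (hF : ∀ i, ∑ y, F i y ^ 2 ≤ (m i : ℝ))
    (y k N : ℕ) (hy8 : 8 ≤ y) (hN : 0 < N) (hM : 8 * N ≤ ∏ i, m i)
    (P L : Finset ι) (hPL : Disjoint P L) (hy : ∀ i ∈ P ∪ L, q i ≤ y)
    (hlow : ∀ i ∈ P, y < 4 * q i) :
    ∑ n ∈ Icc 1 N, Psi m F (P.powersetCard (2 * k) ×ˢ L.powersetCard k) ee
        (fun i => (n : ZMod (m i))) ^ 2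
      ≤ 32 * N * ((P.powersetCard (2 * k)).card * (L.powersetCard k).card
        + (P.powersetCard (2 * k)).card * Er y k N) := by
  have hc : ∀ i j, i ≠ j → Nat.Coprime (m i) (m j) := by
    intro i j hij
    rw [hm i, hm j]
    apply Nat.Coprime.pow
    rw [Nat.coprime_primes (hq i) (hq j)]
    exact fun h => hij (hqi h)
  obtain ⟨u, hu, h⟩ := secmom m F hc (P.powersetCard (2 * k) ×ˢ L.powersetCard k) ee N hN hM
  have hR : 8 * N * ((∏ i, m i) / (8 * N)) ≤ ∏ i, m i := Nat.mul_div_le _ _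
  have ht := total2 m u F q hm hq hqi hc hu h0 hF y k N _ hy8 hN hR P L hPL hy hlow
  have hM0 : (0 : ℝ) < ∏ i, (m i : ℝ) := Finset.prod_pos fun i _ => by
    exact_mod_cast Nat.pos_of_ne_zero (NeZero.ne (m i))
  have h1 := h.trans (mul_le_mul_of_nonneg_left ht (by positivity))
  have h2 : (∏ i, (m i : ℝ)) * ∑ n ∈ Icc 1 N,
      Psi m F (P.powersetCard (2 * k) ×ˢ L.powersetCard k) ee (fun i => (n : ZMod (m i))) ^ 2
      ≤ (∏ i, (m i : ℝ)) * (32 * N * ((P.powersetCard (2 * k)).card * (L.powersetCard k).card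
        + (P.powersetCard (2 * k)).card * Er y k N)) := by
    refine h1.trans (le_of_eq ?_)
    unfold Er
    ring
  exact le_of_mul_le_mul_left h2 hM0

theorem Psi_val (g : ι → ℝ) (P L : Finset ι) (k : ℕ) (x : ∀ i, ZMod (m i))
    (hx : ∀ i ∈ P ∪ L, F i (x i) = g i) :
    Psi m F (P.powersetCard (2 * k) ×ˢ L.powersetCard k) ee x
      = (∑ S ∈ P.powersetCard (2 * k), ∏ i ∈ S, g i) * ∑ T ∈ L.powersetCard k, ∏ i ∈ T, g i := by
  unfold Psi
  rw [Finset.sum_product, Finset.sum_mul_sum]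
  refine Finset.sum_congr rfl fun S hS => Finset.sum_congr rfl fun T hT => ?_
  rw [Finset.mem_powersetCard] at hS hT
  have h1 : ∏ i, F i (x i) ^ ee (S, T) i = (∏ i ∈ S, F i (x i)) * ∏ i ∈ T, F i (x i) := by
    unfold ee
    simp only [pow_add, Finset.prod_mul_distrib, pow_ite, pow_one, pow_zero]
    rw [Finset.prod_ite_mem, Finset.prod_ite_mem, Finset.univ_inter, Finset.univ_inter]
  rw [h1]
  congr 1
  · exact Finset.prod_congr rfl fun i hi => hx i (Finset.mem_union_left _ (hS.1 hi))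
  · exact Finset.prod_congr rfl fun i hi => hx i (Finset.mem_union_right _ (hT.1 hi))

theorem sideI (q : ι → ℕ) (hm : ∀ i, m i = q i ^ 2) (hq : ∀ i, (q i).Prime)
    (hqi : Function.Injective q)
    (h0 : ∀ i, ∑ y, F i y = 0) (hF : ∀ i, ∑ y, F i y ^ 2 ≤ (m i : ℝ))
    (y k N : ℕ) (hy8 : 8 ≤ y) (hN : 0 < N) (hM : 8 * N ≤ ∏ i, m i)
    (P L : Finset ι) (hPL : Disjoint P L) (hy : ∀ i ∈ P ∪ L, q i ≤ y)
    (hlow : ∀ i ∈ P, y < 4 * q i) (A : Finset ℕ) (hA : A ⊆ Icc 1 N) (g : ι → ℝ)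
    (hg : ∀ n ∈ A, ∀ i ∈ P ∪ L, F i (n : ZMod (m i)) = g i) :
    (A.card : ℝ) * ((∑ S ∈ P.powersetCard (2 * k), ∏ i ∈ S, g i)
        * ∑ T ∈ L.powersetCard k, ∏ i ∈ T, g i) ^ 2
      ≤ 32 * N * ((P.powersetCard (2 * k)).card * (L.powersetCard k).card
        + (P.powersetCard (2 * k)).card * Er y k N) := by
  refine le_trans ?_ (core2 m F q hm hq hqi h0 hF y k N hy8 hN hM P L hPL hy hlow)
  calc (A.card : ℝ) * ((∑ S ∈ P.powersetCard (2 * k), ∏ i ∈ S, g i)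
        * ∑ T ∈ L.powersetCard k, ∏ i ∈ T, g i) ^ 2
      = ∑ n ∈ A, Psi m F (P.powersetCard (2 * k) ×ˢ L.powersetCard k) ee
          (fun i => (n : ZMod (m i))) ^ 2 := by
        rw [← nsmul_eq_mul, ← Finset.sum_const]
        exact Finset.sum_congr rfl fun n hn => by rw [Psi_val m F g P L k _ (hg n hn)]
    _ ≤ _ := Finset.sum_le_sum_of_subset_of_nonneg hA (fun _ _ _ => sq_nonneg _)

end

/-- Cauchy-Schwarz. -/
theorem card_sq_le' {α : Type*} (P : Finset α) (f g : α → ℝ) (hf : ∀ p, 0 ≤ f p)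
    (hg : ∀ p, 0 ≤ g p) (η : ℝ) (hη : 0 ≤ η)
    (h : ∀ p ∈ P, η ≤ f p * g p) : η * (P.card : ℝ) ^ 2 ≤ (∑ p ∈ P, f p) * ∑ p ∈ P, g p := by
  have h1 := Real.sum_sqrt_mul_sqrt_le P hf hg
  have h2 : (P.card : ℝ) * √η ≤ ∑ p ∈ P, √(f p) * √(g p) := by
    rw [← nsmul_eq_mul, ← Finset.sum_const]
    refine Finset.sum_le_sum fun p hp => ?_
    rw [← Real.sqrt_mul (hf p)]
    exact Real.sqrt_le_sqrt (h p hp)
  have hF : 0 ≤ ∑ p ∈ P, f p := Finset.sum_nonneg fun p _ => hf p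
  have hG : 0 ≤ ∑ p ∈ P, g p := Finset.sum_nonneg fun p _ => hg p
  have h3 := h2.trans h1
  rw [← Real.sqrt_mul hF] at h3
  have h4 := Real.sq_sqrt (mul_nonneg hF hG)
  have h5 : (0 : ℝ) ≤ P.card := Nat.cast_nonneg _
  have h6 := Real.sq_sqrt hη
  have h7 : ((P.card : ℝ) * √η) ^ 2 ≤ (√((∑ p ∈ P, f p) * ∑ p ∈ P, g p)) ^ 2 :=
    pow_le_pow_left₀ (by positivity) h3 2
  rw [mul_pow, h6, h4] at h7
  linarith

/-- Two sets. -/
theorem pairI (N y k n₁ n₂ : ℕ) (hy8 : 8 ≤ y) (hN : 0 < N) (hn : n₁ + n₂ ≤ (prs y).card)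
    (A B : Finset ℕ) (hA : A ⊆ Icc 1 N) (hB : B ⊆ Icc 1 N) (hA0 : A.Nonempty) (hB0 : B.Nonempty)
    (η : ℝ) (hη : 0 < η)
    (hlt : ∀ p ∈ prs y, ncl (p ^ 2) A < p ^ 2 ∧ ncl (p ^ 2) B < p ^ 2)
    (hcl : ∀ p ∈ prs y, η ^ 2 * ((ncl (p ^ 2) A : ℝ) * ncl (p ^ 2) B)
      ≤ ((p : ℝ) ^ 2 - ncl (p ^ 2) A) * ((p : ℝ) ^ 2 - ncl (p ^ 2) B)) :
    η ^ (6 * k) * ((A.card : ℝ) * B.card)
        * ((n₁.choose (2 * k) : ℝ) * (n₂.choose k : ℝ)) ^ 4
      ≤ (32 * N * ((n₁.choose (2 * k) : ℝ) * (n₂.choose k : ℝ)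
        + (n₁.choose (2 * k) : ℝ) * Er y k N)) ^ 2 := by
  classical
  obtain ⟨r, hr1, hr⟩ := Nat.exists_infinite_primes (8 * N + y + 1)
  set S : Finset ℕ := insert r (prs y) with hS
  have hSp : ∀ x ∈ S, x.Prime := by
    intro x hx
    rw [hS, Finset.mem_insert] at hx
    rcases hx with rfl | hx
    · exact hr
    · exact ((mem_prs _ _).1 hx).2.1
  let ι := {x : ℕ // x ∈ S}
  let q : ι → ℕ := fun i => i.val
  let m : ι → ℕ := fun i => i.val ^ 2
  have : ∀ i, NeZero (m i) := fun i => ⟨pow_ne_zero 2 (hSp i.val i.2).ne_zero⟩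
  -- the two sets of primes
  obtain ⟨P₀, hP₀, hPc₀⟩ := Finset.exists_subset_card_eq (show n₁ ≤ (prs y).card by omega)
  have hrest : n₂ ≤ (prs y \ P₀).card := by
    rw [Finset.card_sdiff_of_subset hP₀]
    omega
  obtain ⟨L₀, hL₀, hLc₀⟩ := Finset.exists_subset_card_eq hrest
  have hLprs : L₀ ⊆ prs y := hL₀.trans Finset.sdiff_subset
  have hPS : ∀ x ∈ P₀, x ∈ S := fun x hx => Finset.mem_insert_of_mem (hP₀ hx)
  have hLS : ∀ x ∈ L₀, x ∈ S := fun x hx => Finset.mem_insert_of_mem (hLprs hx)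
  let P : Finset ι := P₀.subtype (· ∈ S)
  let L : Finset ι := L₀.subtype (· ∈ S)
  have hPmem : ∀ i, i ∈ P ↔ i.val ∈ P₀ := fun i => Finset.mem_subtype
  have hLmem : ∀ i, i ∈ L ↔ i.val ∈ L₀ := fun i => Finset.mem_subtype
  have hPc : P.card = n₁ := by
    rw [Finset.card_subtype, Finset.filter_true_of_mem hPS, hPc₀]
  have hLc : L.card = n₂ := by
    rw [Finset.card_subtype, Finset.filter_true_of_mem hLS, hLc₀]
  have hPL : Disjoint P L := by
    rw [Finset.disjoint_left]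
    intro i hi hi'
    have h1 := (hPmem i).1 hi
    have h2 := hL₀ ((hLmem i).1 hi')
    rw [Finset.mem_sdiff] at h2
    exact h2.2 h1
  have hprs : ∀ i ∈ P ∪ L, i.val ∈ prs y := by
    intro i hi
    rw [Finset.mem_union] at hi
    rcases hi with hi | hi
    · exact hP₀ ((hPmem i).1 hi)
    · exact hLprs ((hLmem i).1 hi)
  have hM : 8 * N ≤ ∏ i, m i := by
    have hrS : r ∈ S := Finset.mem_insert_self _ _
    have h1 : m ⟨r, hrS⟩ ≤ ∏ i, m i :=
      Nat.le_of_dvd (Finset.prod_pos fun i _ => Nat.pos_of_ne_zero (NeZero.ne (m i)))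
        (Finset.dvd_prod_of_mem m (Finset.mem_univ _))
    have h2 : m ⟨r, hrS⟩ = r ^ 2 := rfl
    have h3 : r ≤ r ^ 2 := by nlinarith [hr.one_le]
    omega
  have hnr : ∀ i : ι, i.val ≠ r → i.val ∈ prs y := by
    intro i hi
    have h : i.val ∈ insert r (prs y) := i.2
    exact (Finset.mem_insert.1 h).resolve_left hi
  have hne : ∀ i : ι, i.val ∈ prs y → i.val ≠ r := by
    intro i hi h
    have := ((mem_prs _ _).1 hi).1
    omega
  have main : ∀ D : Finset ℕ, D ⊆ Icc 1 N → D.Nonempty → (∀ p ∈ prs y, ncl (p ^ 2) D < p ^ 2) →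
      (D.card : ℝ) * ((∑ S ∈ P.powersetCard (2 * k), ∏ i ∈ S, gam (m i) D)
        * ∑ T ∈ L.powersetCard k, ∏ i ∈ T, gam (m i) D) ^ 2
      ≤ 32 * N * ((P.powersetCard (2 * k)).card * (L.powersetCard k).card
        + (P.powersetCard (2 * k)).card * Er y k N) := by
    intro D hD hD0 hDlt
    let F : ∀ i : ι, ZMod (m i) → ℝ := fun i => if i.val = r then 0 else tst (m i) D
    apply sideI m F q (fun i => rfl) (fun i => hSp i.val i.2) (fun a b h => Subtype.ext h)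
      _ _ y k N hy8 hN hM P L hPL _ _ D hD (fun i => gam (m i) D)
    · intro n hn i hi
      have h1 := hprs i hi
      simp only [F]
      rw [if_neg (hne i h1)]
      exact tst_mem (m i) D n hn
    · intro i
      simp only [F]
      split_ifs with h
      · simp
      · exact sum_tst (m i) D hD0 (hDlt i.val (hnr i h))
    · intro i
      simp only [F]
      split_ifs with h
      · simp
      · exact sum_tst_sq (m i) D hD0 (hDlt i.val (hnr i h))
    · intro i hi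
      exact ((mem_prs _ _).1 (hprs i hi)).1
    · intro i hi
      exact ((mem_prs _ _).1 (hprs i (Finset.mem_union_left _ hi))).2.2
  have eA := main A hA hA0 (fun p hp => (hlt p hp).1)
  have eB := main B hB hB0 (fun p hp => (hlt p hp).2)
  rw [Finset.card_powersetCard, Finset.card_powersetCard, hPc, hLc] at eA eB
  have hgam : ∀ i : ι, i.val ∈ prs y → η ≤ gam (m i) A * gam (m i) B := by
    intro i hi
    apply le_gam_mul (m i) A B hA0 hB0 (hlt i.val hi).1.le η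
    have := hcl i.val hi
    simp only [m]
    push_cast
    exact this
  have hcs : ∀ (j : ℕ) (T : Finset ι), (∀ i ∈ T, i.val ∈ prs y) →
      η ^ j * ((T.powersetCard j).card : ℝ) ^ 2
        ≤ (∑ S ∈ T.powersetCard j, ∏ i ∈ S, gam (m i) A)
          * ∑ S ∈ T.powersetCard j, ∏ i ∈ S, gam (m i) B := by
    intro j T hT
    apply card_sq_le' (T.powersetCard j) (fun S => ∏ i ∈ S, gam (m i) A)
      (fun S => ∏ i ∈ S, gam (m i) B) (fun S => Finset.prod_nonneg fun i _ => gam_nonneg _ _)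
      (fun S => Finset.prod_nonneg fun i _ => gam_nonneg _ _) _ (by positivity)
    intro S hS
    rw [Finset.mem_powersetCard] at hS
    rw [← Finset.prod_mul_distrib, ← hS.2, ← Finset.prod_const]
    exact Finset.prod_le_prod (fun i _ => hη.le) (fun i hi => hgam i (hT i (hS.1 hi)))
  have c1 := hcs (2 * k) P (fun i hi => hprs i (Finset.mem_union_left _ hi))
  have c2 := hcs k L (fun i hi => hprs i (Finset.mem_union_right _ hi))
  rw [Finset.card_powersetCard, hPc] at c1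
  rw [Finset.card_powersetCard, hLc] at c2
  set s := ∑ S ∈ P.powersetCard (2 * k), ∏ i ∈ S, gam (m i) A
  set s' := ∑ S ∈ P.powersetCard (2 * k), ∏ i ∈ S, gam (m i) B
  set t := ∑ S ∈ L.powersetCard k, ∏ i ∈ S, gam (m i) A
  set t' := ∑ S ∈ L.powersetCard k, ∏ i ∈ S, gam (m i) B
  set p : ℝ := (n₁.choose (2 * k) : ℝ)
  set l : ℝ := (n₂.choose k : ℝ)
  set x : ℝ := p * l + p * Er y k N with hx
  have hp0 : 0 ≤ p := Nat.cast_nonneg _
  have hl0 : 0 ≤ l := Nat.cast_nonneg _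
  have hE0 : 0 ≤ Er y k N := by unfold Er; positivity
  have hx0 : 0 ≤ x := by positivity
  have h5 : ((A.card : ℝ) * (s * t) ^ 2) * (B.card * (s' * t') ^ 2)
      ≤ (32 * N * x) * (32 * N * x) :=
    mul_le_mul eA eB (by positivity) (by positivity)
  have h8 : (η ^ (2 * k) * p ^ 2) * (η ^ k * l ^ 2) ≤ (s * s') * (t * t') :=
    mul_le_mul c1 c2 (by positivity) ((by positivity : (0 : ℝ) ≤ η ^ (2 * k) * p ^ 2).trans c1)
  have h9 : ((η ^ (2 * k) * p ^ 2) * (η ^ k * l ^ 2)) ^ 2 ≤ ((s * s') * (t * t')) ^ 2 :=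
    pow_le_pow_left₀ (by positivity) h8 2
  have h10 := mul_le_mul_of_nonneg_left h9
    (show (0 : ℝ) ≤ (A.card : ℝ) * B.card by positivity)
  have e1 : η ^ (6 * k) = η ^ (2 * k) * η ^ k * (η ^ (2 * k) * η ^ k) := by
    rw [← pow_add, ← pow_add]; congr 1; ring
  calc η ^ (6 * k) * ((A.card : ℝ) * B.card) * (p * l) ^ 4
      = (A.card : ℝ) * B.card * ((η ^ (2 * k) * p ^ 2) * (η ^ k * l ^ 2)) ^ 2 := by
        rw [e1]; ring
    _ ≤ (A.card : ℝ) * B.card * ((s * s') * (t * t')) ^ 2 := h10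
    _ = ((A.card : ℝ) * (s * t) ^ 2) * (B.card * (s' * t') ^ 2) := by ring
    _ ≤ (32 * N * x) * (32 * N * x) := h5
    _ = (32 * N * x) ^ 2 := by ring

end Pool.Agent.Helper24.FP
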