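import Mathlib
import Pool.Agent.Helper24.FP.Side

/-!
# Project FP (MP_d5570f_nt): the choice of the parameters and the bound for two sets
-/

set_option linter.unusedSectionVars false

open Finset Pool.Agent.Helper94.SF

namespace Pool.Agent.Helper24.FP

theorem half_card (y k : ℕ) (hy : 8 ≤ y) (hk : 1 ≤ k)
    (hcount : (y : ℝ) / (4 * Real.log y) ≤ ((prs y).card : ℝ))
    (h32 : 32 * k * Real.log y ≤ y) :
    (y : ℝ) / (16 * Real.log y) ≤ (((prs y).card / 2 : ℕ) : ℝ) := by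
  have hy8 : (8 : ℝ) ≤ y := by exact_mod_cast hy
  have hk1 : (1 : ℝ) ≤ k := by exact_mod_cast hk
  have hlog : 0 < Real.log y := Real.log_pos (by linarith)
  set c : ℕ := (prs y).card with hc
  have h1 : (c : ℝ) ≤ 2 * ((c / 2 : ℕ) : ℝ) + 1 := by
    have : c ≤ 2 * (c / 2) + 1 := by omega
    exact_mod_cast this
  have h2 : (y : ℝ) / (4 * Real.log y) = 4 * (y / (16 * Real.log y)) := by
    field_simp; norm_num
  have h3 : 1 ≤ (y : ℝ) / (16 * Real.log y) := by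
    rw [le_div_iff₀ (by positivity)]
    nlinarith
  linarith

theorem choose_big (n y k j : ℕ) (hy : 8 ≤ y) (hk : 1 ≤ k) (hj : 1 ≤ j) (hj2 : j ≤ 2 * k)
    (hn : (y : ℝ) / (16 * Real.log y) ≤ (n : ℝ)) (h32 : 32 * k * Real.log y ≤ y) :
    ((y : ℝ) / (32 * k * Real.log y)) ^ j ≤ (n.choose j : ℝ) := by
  have hy8 : (8 : ℝ) ≤ y := by exact_mod_cast hy
  have hk1 : (1 : ℝ) ≤ k := by exact_mod_cast hk
  have hj1 : (1 : ℝ) ≤ j := by exact_mod_cast hj
  have hj2' : (j : ℝ) ≤ 2 * k := by exact_mod_cast hj2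
  have hlog : 0 < Real.log y := Real.log_pos (by linarith)
  have h1 : (2 * k : ℝ) ≤ (y : ℝ) / (16 * Real.log y) := by
    rw [le_div_iff₀ (by positivity)]
    nlinarith
  have h2 : j ≤ n := by
    have : (j : ℝ) ≤ n := by linarith
    exact_mod_cast this
  refine le_trans ?_ (choose_lower n j hj h2)
  apply pow_le_pow_left₀ (by positivity)
  rw [div_le_div_iff₀ (by positivity) (by positivity)]
  have h3 : (y : ℝ) ≤ n * (16 * Real.log y) := by
    rwa [div_le_iff₀ (by positivity)] at hn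
  calc (y : ℝ) * j ≤ (n * (16 * Real.log y)) * (2 * k) :=
        mul_le_mul h3 hj2' (by positivity) (by positivity)
    _ = n * (32 * k * Real.log y) := by ring

/-- The algebra. -/
theorem alg (a N y lam η p l E : ℝ) (k : ℕ) (hN : 0 < N) (hy : 0 < y)
    (hlam : 1 ≤ lam) (hη : 0 < η)
    (hp : (y / lam) ^ (2 * k) ≤ p) (hl : (y / lam) ^ k ≤ l)
    (hE : E ≤ 262144 ^ k * y ^ k / 2) (hE0 : 0 ≤ E)
    (h : η ^ (6 * k) * a * (p * l) ^ 4 ≤ (32 * N * (p * l + p * E)) ^ 2) :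
    a ≤ (64 * N * (262144 / η ^ 3 * lam ^ 4) ^ k / y ^ (3 * k)) ^ 2 := by
  have hlam0 : 0 < lam := by linarith
  have hp0 : 0 < p := lt_of_lt_of_le (by positivity) hp
  have hl0 : 0 < l := lt_of_lt_of_le (by positivity) hl
  set X : ℝ := 32 * N * (p * l + p * E) / ((p * l) ^ 2 * η ^ (3 * k)) with hX
  have h1 : a ≤ X ^ 2 := by
    rw [hX, div_pow, le_div_iff₀ (by positivity)]
    refine le_trans (le_of_eq ?_) h
    have : η ^ (6 * k) = (η ^ (3 * k)) ^ 2 := by rw [← pow_mul]; congr 1; ring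
    rw [this]; ring
  refine h1.trans ?_
  have hX0 : 0 ≤ X := by positivity
  apply pow_le_pow_left₀ hX0
  -- `E / l`
  have h2 : E ≤ (262144 * lam) ^ k / 2 * l := by
    calc E ≤ 262144 ^ k * y ^ k / 2 := hE
      _ = (262144 * lam) ^ k / 2 * (y / lam) ^ k := by
          rw [mul_pow, div_pow]; field_simp
      _ ≤ (262144 * lam) ^ k / 2 * l := mul_le_mul_of_nonneg_left hl (by positivity)
  have h3 : (1 : ℝ) ≤ (262144 * lam) ^ k := one_le_pow₀ (by linarith)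
  have h4 : l + E ≤ 2 * (262144 * lam) ^ k * l := by nlinarith
  have h5 : (y / lam) ^ (3 * k) ≤ p * l := by
    calc (y / lam) ^ (3 * k) = (y / lam) ^ (2 * k) * (y / lam) ^ k := by
          rw [← pow_add]; congr 1; ring
      _ ≤ p * l := mul_le_mul hp hl (by positivity) hp0.le
  have e1 : X = 32 * N * (l + E) / (p * l * (l * η ^ (3 * k))) := by
    rw [hX]; field_simp
  rw [e1, div_le_div_iff₀ (by positivity) (by positivity)]
  have e2 : (y / lam) ^ (3 * k) = y ^ (3 * k) / lam ^ (3 * k) := div_pow _ _ _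
  rw [e2, div_le_iff₀ (by positivity)] at h5
  have e3 : (262144 / η ^ 3 * lam ^ 4) ^ k * η ^ (3 * k) = (262144 * lam) ^ k * lam ^ (3 * k) := by
    rw [mul_pow, div_pow, mul_pow, ← pow_mul, ← pow_mul, pow_mul lam 3, pow_mul lam 4]
    have : (lam ^ 4) ^ k = lam ^ k * (lam ^ 3) ^ k := by
      rw [← mul_pow]; congr 1; ring
    rw [this]
    field_simp
  calc 32 * N * (l + E) * y ^ (3 * k)
      ≤ 32 * N * (2 * (262144 * lam) ^ k * l) * (p * l * lam ^ (3 * k)) := by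
        apply mul_le_mul (mul_le_mul_of_nonneg_left h4 (by positivity)) h5 (by positivity)
          (by positivity)
    _ = 64 * N * ((262144 * lam) ^ k * lam ^ (3 * k)) * (p * l * l) := by ring
    _ = 64 * N * ((262144 / η ^ 3 * lam ^ 4) ^ k * η ^ (3 * k)) * (p * l * l) := by rw [e3]
    _ = 64 * N * (262144 / η ^ 3 * lam ^ 4) ^ k * (p * l * (l * η ^ (3 * k))) := by ring

/-- The class condition. -/
def Cl (η : ℝ) (p : ℕ) (A B : Finset ℕ) : Prop :=
  η ^ 2 * ((ncl (p ^ 2) A : ℝ) * ncl (p ^ 2) B)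
      ≤ ((p : ℝ) ^ 2 - ncl (p ^ 2) A) * ((p : ℝ) ^ 2 - ncl (p ^ 2) B)

/-- **The bound for two sets.** -/
theorem pair_few (ε η : ℝ) (hε : 0 < ε) (hη : 0 < η) :
    ∃ C : ℝ, 0 < C ∧ ∃ N₀ : ℕ, ∀ N : ℕ, N₀ ≤ N → ∃ y : ℕ, 1 ≤ y ∧ (y : ℝ) ^ 3 ≤ Real.log N ^ C ∧
      ∀ A B : Finset ℕ, A ⊆ Icc 1 N → B ⊆ Icc 1 N → (∀ p ∈ prs y, Cl η p A B) →
        (A.card : ℝ) * B.card ≤ (N : ℝ) ^ (16 / 11 + ε) := by
  obtain ⟨x₀, hx₀⟩ := primes_count
  obtain ⟨C, hC, N₀, hN₀⟩ := numericsK (262144 / η ^ 3) (ε / 2) (by positivity) (by positivity)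
    (max 8 x₀)
  refine ⟨C, hC, max 1 N₀, ?_⟩
  intro N hN
  have hN1 : 0 < N := lt_of_lt_of_le one_pos (le_trans (le_max_left _ _) hN)
  have hNr : (0 : ℝ) < N := by exact_mod_cast hN1
  obtain ⟨y, k, hy0, hk, hyC, hyN, h32, hbig⟩ := hN₀ N (le_trans (le_max_right _ _) hN)
  have hy8 : 8 ≤ y := le_trans (le_max_left _ _) hy0
  have hyx : x₀ ≤ y := le_trans (le_max_right _ _) hy0
  refine ⟨y, by omega, hyC, ?_⟩
  intro A B hA hB hcl
  rcases A.eq_empty_or_nonempty with rfl | hA0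
  · simp; positivity
  rcases B.eq_empty_or_nonempty with rfl | hB0
  · simp; positivity
  have hy8' : (8 : ℝ) ≤ y := by exact_mod_cast hy8
  have hk1 : (1 : ℝ) ≤ k := by exact_mod_cast hk
  have hlog1 : 1 ≤ Real.log y := by
    rw [Real.le_log_iff_exp_le (by linarith)]
    have := Real.exp_one_lt_d9
    linarith
  have hcount := hx₀ y hyx
  have hn := half_card y k hy8 hk hcount h32
  set n := (prs y).card / 2 with hndef
  have hpair := pairI N y k n n hy8 hN1 (by omega) A B hA hB hA0 hB0 η hη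
    (fun p hp => ncl_lt p ((mem_prs _ _).1 hp).2.1 A B hA0 hB0 η hη (hcl p hp)) hcl
  have hp := choose_big n y k (2 * k) hy8 hk (by omega) le_rfl hn h32
  have hl := choose_big n y k k hy8 hk hk (by omega) hn h32
  have hE : Er y k N ≤ 262144 ^ k * (y : ℝ) ^ k / 2 := by
    unfold Er
    rw [div_le_div_iff₀ (by positivity) (by norm_num)]
    have h1 : (y : ℝ) ^ (11 * k) ≤ N := by exact_mod_cast hyN
    have h2 : (y : ℝ) ^ (12 * k) = y ^ k * y ^ (11 * k) := by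
      rw [← pow_add]; congr 1; ring
    rw [h2]
    have h3 : (0 : ℝ) ≤ 262144 ^ k * (y : ℝ) ^ k := by positivity
    nlinarith [mul_le_mul_of_nonneg_left h1 h3]
  have hE0 : 0 ≤ Er y k N := by unfold Er; positivity
  have h1 := alg ((A.card : ℝ) * B.card) N y (32 * k * Real.log y) η _ _ (Er y k N) k hNr
    (by linarith) (by nlinarith) hη hp hl hE hE0 hpair
  refine h1.trans ?_
  have h2 : (64 * (N : ℝ) * (262144 / η ^ 3 * (32 * k * Real.log y) ^ 4) ^ k
      / (y : ℝ) ^ (3 * k)) ^ 2 ≤ ((N : ℝ) ^ (8 / 11 + ε / 2)) ^ 2 :=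
    pow_le_pow_left₀ (by positivity) hbig 2
  refine h2.trans (le_of_eq ?_)
  rw [← Real.rpow_natCast, ← Real.rpow_mul hNr.le]
  congr 1
  push_cast
  ring

end Pool.Agent.Helper24.FP
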