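import Mathlib
import Pool.Agent.Helper24.FP.Par
import Pool.Agent.Helper24.FP.FP7
import Pool.Agent.Helper94.SF.Final

/-!
# Project FP (MP_d5570f_nt): containers, counting and random hosts
-/

set_option linter.unusedSectionVars false

open Finset Pool.Agent.Helper94.SF

namespace Pool.Agent.Helper24.FP

/-- The integers up to `N` in the classes of `A` modulo the squares of the primes in `P`. -/
def Cn (N : ℕ) (P : Finset ℕ) (A : Finset ℕ) : Finset ℕ :=
  (Icc 1 N).filter (fun n => ∀ p ∈ P, n % p ^ 2 ∈ A.image (· % p ^ 2))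

theorem ncl_Cn (N : ℕ) (P : Finset ℕ) (A : Finset ℕ) (p : ℕ) (hp : p ∈ P) :
    ncl (p ^ 2) (Cn N P A) ≤ ncl (p ^ 2) A := by
  unfold ncl
  apply Finset.card_le_card
  intro x hx
  rw [Finset.mem_image] at hx
  obtain ⟨n, hn, rfl⟩ := hx
  unfold Cn at hn
  rw [Finset.mem_filter] at hn
  exact hn.2 p hp

theorem subset_Cn (N : ℕ) (P : Finset ℕ) (A : Finset ℕ) (hA : A ⊆ Icc 1 N) :
    A ⊆ Cn N P A := by
  intro n hn
  unfold Cn
  rw [Finset.mem_filter]
  exact ⟨hA hn, fun p _ => Finset.mem_image_of_mem _ hn⟩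

/-- Sets with small containers (the argument is that of FP-6 of helper75). -/
theorem family_count2 (N y m V : ℕ) (P : Finset ℕ) (hP : ∀ p ∈ P, 0 < p ∧ p ≤ y)
    (Z : Finset (Finset ℕ)) (hZ : ∀ A ∈ Z, A ⊆ Icc 1 N ∧ A.card = m ∧ (Cn N P A).card ≤ V) :
    Z.card * m.factorial ≤ 2 ^ (y ^ 3) * V ^ m := by
  classical
  obtain ⟨F, hF⟩ : ∃ F : Finset ℕ → (∀ p ∈ P, Finset ℕ),
      ∀ A p (hp : p ∈ P), F A p hp = A.image (fun n => n % p ^ 2) :=
    ⟨fun A p _ => A.image (fun n => n % p ^ 2), fun _ _ _ => rfl⟩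
  have hmap : ∀ A ∈ Z, F A ∈ P.pi (fun p => (Finset.range (p ^ 2)).powerset) := by
    intro A _
    rw [Finset.mem_pi]
    intro p hp
    rw [hF, Finset.mem_powerset]
    intro x hx
    rw [Finset.mem_image] at hx
    obtain ⟨n, -, rfl⟩ := hx
    rw [Finset.mem_range]
    exact Nat.mod_lt _ (pow_pos (hP p hp).1 2)
  have hfib : ∀ b ∈ P.pi (fun p => (Finset.range (p ^ 2)).powerset),
      (Z.filter (fun A => F A = b)).card ≤ V.choose m := by
    intro b _
    rcases (Z.filter (fun A => F A = b)).eq_empty_or_nonempty with h | ⟨A0, hA0⟩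
    · rw [h, Finset.card_empty]
      exact Nat.zero_le _
    · rw [Finset.mem_filter] at hA0
      refine le_trans (Finset.card_le_card (t := Finset.powersetCard m (Cn N P A0)) ?_) ?_
      · intro A hA
        rw [Finset.mem_filter] at hA
        rw [Finset.mem_powersetCard]
        refine ⟨?_, (hZ A hA.1).2.1⟩
        intro n hn
        unfold Cn
        rw [Finset.mem_filter]
        refine ⟨(hZ A hA.1).1 hn, ?_⟩
        intro p hp
        have h1 : A.image (fun n => n % p ^ 2) = A0.image (fun n => n % p ^ 2) := by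
          rw [← hF A p hp, ← hF A0 p hp, hA.2, hA0.2]
        have h2 : n % p ^ 2 ∈ A.image (fun n => n % p ^ 2) := Finset.mem_image_of_mem _ hn
        rw [h1] at h2
        exact h2
      · rw [Finset.card_powersetCard]
        exact Nat.choose_le_choose m (hZ A0 hA0.1).2.2
  have hcard : (P.pi (fun p => (Finset.range (p ^ 2)).powerset)).card ≤ 2 ^ (y ^ 3) := by
    rw [Finset.card_pi]
    have h1 : ∏ p ∈ P, ((Finset.range (p ^ 2)).powerset).card = 2 ^ (∑ p ∈ P, p ^ 2) := by
      rw [← Finset.prod_pow_eq_pow_sum]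
      refine Finset.prod_congr rfl fun p _ => ?_
      rw [Finset.card_powerset, Finset.card_range]
    rw [h1]
    refine Nat.pow_le_pow_right (by norm_num) ?_
    have h2 : P.card ≤ y := by
      have h3 : P ⊆ Finset.Icc 1 y := by
        intro p hp
        rw [Finset.mem_Icc]
        exact ⟨(hP p hp).1, (hP p hp).2⟩
      have h4 := Finset.card_le_card h3
      rwa [Nat.card_Icc, Nat.add_sub_cancel] at h4
    calc ∑ p ∈ P, p ^ 2 ≤ P.card • y ^ 2 :=
          Finset.sum_le_card_nsmul _ _ _ (fun p hp => Nat.pow_le_pow_left (hP p hp).2 2)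
      _ ≤ y * y ^ 2 := by
          rw [smul_eq_mul]
          exact Nat.mul_le_mul_right _ h2
      _ = y ^ 3 := by ring
  have hZc : Z.card ≤ 2 ^ (y ^ 3) * V.choose m := by
    rw [Finset.card_eq_sum_card_fiberwise hmap]
    refine le_trans (Finset.sum_le_card_nsmul _ _ _ hfib) ?_
    rw [smul_eq_mul]
    exact Nat.mul_le_mul_right _ hcard
  calc Z.card * m.factorial ≤ 2 ^ (y ^ 3) * V.choose m * m.factorial :=
        Nat.mul_le_mul_right _ hZc
    _ = 2 ^ (y ^ 3) * V.descFactorial m := by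
        rw [Nat.descFactorial_eq_factorial_mul_choose]
        ring
    _ ≤ 2 ^ (y ^ 3) * V ^ m := Nat.mul_le_mul_left _ (Nat.descFactorial_le_pow V m)

/-- Squarefree sums: one of the two containers is small. -/
theorem small_cn (N y V : ℕ) (W : ℝ) (hW : 0 ≤ W) (hV : W < V + 1)
    (hb : ∀ A B : Finset ℕ, A ⊆ Icc 1 N → B ⊆ Icc 1 N → (∀ p ∈ prs y, Cl 1 p A B) →
      (A.card : ℝ) * B.card ≤ W ^ 2)
    (A B : Finset ℕ) (h : ∀ a ∈ A, ∀ b ∈ B, Squarefree (a + b)) :
    (Cn N (prs y) A).card ≤ V ∨ (Cn N (prs y) B).card ≤ V := by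
  by_contra hno
  push Not at hno
  have h1 := hb (Cn N (prs y) A) (Cn N (prs y) B) (Finset.filter_subset _ _)
    (Finset.filter_subset _ _) (by
      intro p hp
      unfold Cl
      apply eta_one
      have h2 := classes_of_squarefree A B h p ((mem_prs _ _).1 hp).2.1
      have h3 := ncl_Cn N (prs y) A p hp
      have h4 := ncl_Cn N (prs y) B p hp
      omega)
  have h2 : (V : ℝ) + 1 ≤ (Cn N (prs y) A).card := by exact_mod_cast hno.1
  have h3 : (V : ℝ) + 1 ≤ (Cn N (prs y) B).card := by exact_mod_cast hno.2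
  have hV0 : (0 : ℝ) ≤ V := Nat.cast_nonneg _
  have h4 : ((V : ℝ) + 1) * (V + 1) ≤ (Cn N (prs y) A).card * (Cn N (prs y) B).card :=
    mul_le_mul h2 h3 (by positivity) (by positivity)
  nlinarith

end Pool.Agent.Helper24.FP
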