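import Mathlib

/-!
# Project FP (MP_d5570f_nt), piece FP-5: the choice of the parameters
-/

open Finset

namespace Pool.Agent.Helper24.FP

private theorem FP5_ev (K : ℝ) (ε : ℝ) (hε : 0 < ε) (x₀ c : ℕ) (hc : 4 ≤ c) :
    ∀ᶠ L : ℝ in Filter.atTop, (2 ≤ L ∧ 81 * K ≤ L) ∧ (x₀ : ℝ) + 33 ≤ L ^ c ∧ 11 * c * Real.log L ≤ L ∧
      64 * L ^ (3 * c) ≤ Real.exp (5 * ε / 11 * L) := by
  have hcpos : (0 : ℝ) < c := by exact_mod_cast (by omega : 0 < c)
  have h1 : ∀ᶠ L : ℝ in Filter.atTop, 2 ≤ L ∧ 81 * K ≤ L :=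
    (Filter.eventually_ge_atTop _).and (Filter.eventually_ge_atTop _)
  have h2 : ∀ᶠ L : ℝ in Filter.atTop, (x₀ : ℝ) + 33 ≤ L ^ c :=
    (Filter.tendsto_pow_atTop (by omega)).eventually_ge_atTop _
  have h3 : ∀ᶠ L : ℝ in Filter.atTop, 11 * c * Real.log L ≤ L := by
    have h := Real.isLittleO_log_id_atTop.bound (show (0 : ℝ) < 1 / (11 * c) by positivity)
    filter_upwards [h, Filter.eventually_ge_atTop (1 : ℝ)] with L hL hL1
    rw [id, Real.norm_eq_abs, Real.norm_eq_abs, abs_of_nonneg (Real.log_nonneg hL1),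
      abs_of_nonneg (by linarith)] at hL
    have h4 : 11 * (c : ℝ) * Real.log L ≤ 11 * c * (1 / (11 * c) * L) := by
      apply mul_le_mul_of_nonneg_left hL
      positivity
    have h5 : 11 * (c : ℝ) * (1 / (11 * c) * L) = L := by
      field_simp
    linarith
  have h4 : ∀ᶠ L : ℝ in Filter.atTop, 64 * L ^ (3 * c) ≤ Real.exp (5 * ε / 11 * L) := by
    have h := (isLittleO_pow_exp_pos_mul_atTop (k := 3 * c) (b := 5 * ε / 11)
      (by positivity)).bound (show (0 : ℝ) < 1 / 64 by norm_num)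
    filter_upwards [h, Filter.eventually_ge_atTop (0 : ℝ)] with L hL hL1
    rw [Real.norm_eq_abs, Real.norm_eq_abs, abs_of_nonneg (pow_nonneg hL1 _),
      abs_of_nonneg (Real.exp_pos _).le] at hL
    linarith
  filter_upwards [h1, h2, h3, h4] with L a b c d
  exact ⟨a, b, c, d⟩

/-- The same with an arbitrary constant `K`. -/
theorem numerics' (K : ℝ) (hK : 0 < K) (ε : ℝ) (hε : 0 < ε) (x₀ : ℕ) :
    ∃ C : ℝ, 0 < C ∧ ∃ N₀ : ℕ, ∀ N : ℕ, N₀ ≤ N →
    ∃ y k : ℕ, x₀ ≤ y ∧ 1 ≤ k ∧ (y : ℝ) ^ 3 ≤ (Real.log N) ^ C ∧ y ^ (11 * k) ≤ N ∧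
      32 * k * Real.log y ≤ y ∧
      64 * (N : ℝ) * (K * (32 * k * Real.log y) ^ 4) ^ k / (y : ℝ) ^ (3 * k)
        ≤ (N : ℝ) ^ (8 / 11 + ε) := by
  obtain ⟨c, hc4, hcε⟩ : ∃ c : ℕ, 4 ≤ c ∧ 1 / ε ≤ c := by
    obtain ⟨c, hc⟩ := exists_nat_ge (1 / ε)
    exact ⟨max c 4, le_max_right _ _, hc.trans (by exact_mod_cast le_max_left _ _)⟩
  have hcpos : (0 : ℝ) < c := by exact_mod_cast (by omega : 0 < c)
  have hcε' : 1 / (c : ℝ) ≤ ε := by
    rw [div_le_iff₀ hcpos]
    rw [div_le_iff₀ hε] at hcε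
    linarith
  refine ⟨3 * c, by positivity, ?_⟩
  have hev := FP5_ev K ε hε x₀ c hc4
  have hlog : Filter.Tendsto (fun N : ℕ => Real.log N) Filter.atTop Filter.atTop :=
    Real.tendsto_log_atTop.comp tendsto_natCast_atTop_atTop
  have hev2 := (hlog.eventually hev).and (Filter.eventually_ge_atTop 1)
  obtain ⟨N₀, hN₀⟩ := Filter.eventually_atTop.1 hev2
  refine ⟨N₀, fun N hN => ?_⟩
  obtain ⟨⟨⟨hL1, hLK⟩, hL2, hL3, hL4⟩, hN1⟩ := hN₀ N hN
  set L : ℝ := Real.log N with hLdef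
  have hLpos : 0 < L := by linarith
  have hNpos : (0 : ℝ) < N := by exact_mod_cast hN1
  have hNexp : (N : ℝ) = Real.exp L := (Real.exp_log hNpos).symm
  set y : ℕ := ⌊L ^ c⌋₊ with hy
  have hyle : (y : ℝ) ≤ L ^ c := Nat.floor_le (by positivity)
  have hylt : L ^ c < y + 1 := Nat.lt_floor_add_one _
  have hyx : (x₀ : ℝ) + 32 < y := by linarith
  have hx0 : (0 : ℝ) ≤ x₀ := Nat.cast_nonneg _
  have hy32 : (32 : ℝ) < y := by linarith
  have hypos : (0 : ℝ) < y := by linarith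
  have hlogy : 0 < Real.log y := Real.log_pos (by linarith)
  have hlogy1 : Real.log y ≤ c * Real.log L := by
    rw [← Real.log_pow]
    exact Real.log_le_log hypos hyle
  have hlogL : 0 ≤ Real.log L := Real.log_nonneg (by linarith)
  set k : ℕ := ⌊L / (11 * Real.log y)⌋₊ with hk
  have hkle : (k : ℝ) ≤ L / (11 * Real.log y) := Nat.floor_le (by positivity)
  have hklt : L / (11 * Real.log y) < k + 1 := Nat.lt_floor_add_one _
  have h11 : 0 < 11 * Real.log y := by linarith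
  have hk1 : 11 * k * Real.log y ≤ L := by
    rw [le_div_iff₀ h11] at hkle
    linarith
  have hk2 : L < 11 * (k + 1) * Real.log y := by
    rw [div_lt_iff₀ h11] at hklt
    linarith
  have hkpos : 1 ≤ k := by
    rw [hk]
    apply Nat.le_floor
    rw [Nat.cast_one, le_div_iff₀ h11]
    nlinarith
  have hyexp : (y : ℝ) = Real.exp (Real.log y) := (Real.exp_log hypos).symm
  refine ⟨y, k, ?_, hkpos, ?_, ?_, ?_, ?_⟩
  · have h : (x₀ : ℝ) ≤ y := by linarith
    exact_mod_cast h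
  · have e : L ^ ((3 : ℝ) * c) = (L ^ c) ^ 3 := by
      rw [← pow_mul, ← Real.rpow_natCast]
      congr 1
      push_cast
      ring
    rw [e]
    exact pow_le_pow_left₀ hypos.le hyle 3
  · have h : (y : ℝ) ^ (11 * k) ≤ N := by
      rw [hyexp, ← Real.exp_nat_mul, hNexp, Real.exp_le_exp]
      push_cast
      linarith
    exact_mod_cast h
  · have h1 : 32 * k * Real.log y ≤ 3 * L := by linarith
    have h2 : 3 * L + 1 ≤ L ^ c := by
      have h3 : L ^ 4 ≤ L ^ c := pow_le_pow_right₀ (by linarith) hc4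
      have h4 : 3 * L + 1 ≤ L ^ 4 := by
        have h5 : (1 : ℝ) ≤ L ^ 3 := one_le_pow₀ (by linarith)
        have h6 : L ^ 4 = L * L ^ 3 := by ring
        have h7 : (4 : ℝ) ≤ L ^ 3 := by
          have h8 : (2 : ℝ) ^ 3 ≤ L ^ 3 := pow_le_pow_left₀ (by norm_num) hL1 3
          norm_num at h8
          linarith
        nlinarith
      linarith
    linarith
  · have hA : K * (32 * k * Real.log y) ^ 4 ≤ L ^ 5 := by
      have h1 : 32 * k * Real.log y ≤ 3 * L := by linarith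
      have h0 : 0 ≤ 32 * k * Real.log y := by positivity
      have h2 : (32 * k * Real.log y) ^ 4 ≤ (3 * L) ^ 4 := pow_le_pow_left₀ h0 h1 4
      have h3 : (3 * L) ^ 4 = 81 * L ^ 4 := by ring
      have h4 : L ^ 5 = L * L ^ 4 := by ring
      have h5 : 0 ≤ L ^ 4 := by positivity
      calc K * (32 * k * Real.log y) ^ 4 ≤ K * (81 * L ^ 4) := by
            rw [← h3]
            exact mul_le_mul_of_nonneg_left h2 hK.le
        _ = (81 * K) * L ^ 4 := by ring
        _ ≤ L * L ^ 4 := mul_le_mul_of_nonneg_right hLK h5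
        _ = L ^ 5 := h4.symm
    have hB : (K * (32 * k * Real.log y) ^ 4) ^ k ≤ Real.exp (6 * ε / 11 * L) := by
      have h0 : 0 ≤ K * (32 * k * Real.log y) ^ 4 := by positivity
      refine (pow_le_pow_left₀ h0 hA k).trans ?_
      have e1 : (L ^ 5) ^ k = Real.exp (5 * k * Real.log L) := by
        have : L = Real.exp (Real.log L) := (Real.exp_log hLpos).symm
        rw [← pow_mul]
        conv_lhs => rw [this]
        rw [← Real.exp_nat_mul]
        congr 1
        push_cast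
        ring
      rw [e1, Real.exp_le_exp]
      have h6 : c * Real.log L ≤ 6 / 5 * Real.log y := by
        have h7 : c * Real.log L ≤ Real.log (y + 1) := by
          rw [← Real.log_pow]
          exact Real.log_le_log (by positivity) hylt.le
        have h8 : 5 * Real.log (y + 1) ≤ 6 * Real.log y := by
          have e2 : 5 * Real.log (y + 1) = Real.log ((y + 1) ^ 5) := by
            rw [Real.log_pow]; norm_num
          have e3 : 6 * Real.log y = Real.log ((y : ℝ) ^ 6) := by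
            rw [Real.log_pow]; norm_num
          rw [e2, e3]
          apply Real.log_le_log (by positivity)
          have h9 : (y : ℝ) + 1 ≤ y * (33 / 32) := by linarith
          have h10 : ((y : ℝ) + 1) ^ 5 ≤ (y * (33 / 32)) ^ 5 :=
            pow_le_pow_left₀ (by linarith) h9 5
          have h11 : ((y : ℝ) * (33 / 32)) ^ 5 = y ^ 5 * (33 / 32) ^ 5 := by ring
          have h12 : (y : ℝ) ^ 6 = y ^ 5 * y := by ring
          have h13 : ((33 : ℝ) / 32) ^ 5 ≤ y := by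
            have : ((33 : ℝ) / 32) ^ 5 ≤ 32 := by norm_num
            linarith
          have h14 : (y : ℝ) ^ 5 * (33 / 32) ^ 5 ≤ y ^ 5 * y :=
            mul_le_mul_of_nonneg_left h13 (by positivity)
          linarith
        linarith
      have h7 : 5 * k * Real.log L ≤ 6 * L / 11 * (1 / c) := by
        rw [mul_one_div, le_div_iff₀ hcpos]
        have hk0 : (0 : ℝ) ≤ k := Nat.cast_nonneg _
        have h8 : (k : ℝ) * (c * Real.log L) ≤ k * (6 / 5 * Real.log y) :=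
          mul_le_mul_of_nonneg_left h6 hk0
        nlinarith
      have h8 : 6 * L / 11 * (1 / (c : ℝ)) ≤ 6 * L / 11 * ε :=
        mul_le_mul_of_nonneg_left hcε' (by positivity)
      linarith
    have hy3k : (y : ℝ) ^ (3 * k) = Real.exp (3 * k * Real.log y) := by
      conv_lhs => rw [hyexp]
      rw [← Real.exp_nat_mul]
      congr 1
      push_cast
      ring
    have hy3 : (y : ℝ) ^ 3 = Real.exp (3 * Real.log y) := by
      conv_lhs => rw [hyexp]
      rw [← Real.exp_nat_mul]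
      congr 1
    have h64 : 64 * (y : ℝ) ^ 3 ≤ Real.exp (5 * ε / 11 * L) := by
      refine le_trans ?_ hL4
      have e : L ^ (3 * c) = (L ^ c) ^ 3 := by rw [← pow_mul, mul_comm]
      rw [e]
      have := pow_le_pow_left₀ hypos.le hyle 3
      linarith
    have hfin : (N : ℝ) ^ (8 / 11 + ε) = Real.exp (L * (8 / 11 + ε)) := by
      rw [Real.rpow_def_of_pos hNpos]
    rw [hfin, hy3k, div_le_iff₀ (Real.exp_pos _), ← Real.exp_add]
    have h1 : 64 * (N : ℝ) * (K * (32 * k * Real.log y) ^ 4) ^ k ≤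
        64 * Real.exp L * Real.exp (6 * ε / 11 * L) := by
      rw [hNexp]
      exact mul_le_mul_of_nonneg_left hB (by positivity)
    refine h1.trans ?_
    have h2 : 64 * (y : ℝ) ^ 3 * Real.exp (L + 6 * ε / 11 * L - 3 * Real.log y) ≤
        Real.exp (5 * ε / 11 * L) * Real.exp (L + 6 * ε / 11 * L - 3 * Real.log y) :=
      mul_le_mul_of_nonneg_right h64 (Real.exp_pos _).le
    have h3 : 64 * Real.exp L * Real.exp (6 * ε / 11 * L) =
        64 * (y : ℝ) ^ 3 * Real.exp (L + 6 * ε / 11 * L - 3 * Real.log y) := by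
      rw [hy3, mul_assoc, mul_assoc, ← Real.exp_add, ← Real.exp_add]
      congr 2
      ring
    rw [h3]
    refine h2.trans ?_
    rw [← Real.exp_add, Real.exp_le_exp]
    nlinarith

/-- Proof.  Let `c` be a natural number with `c ≥ 4` and `c ≥ 1 / ε`, let `L = log N`,
`y = ⌊L ^ c⌋` and `k = ⌊L / (11 * log y)⌋`, `C = 3 * c`.  Then `y ^ (11 * k) ≤ N` and
`N < y ^ (11 * (k + 1))`, so that `1 / y ^ (3 * k) ≤ y ^ 3 * N ^ (- 3 / 11)`.  With
`k * log y ≤ L / 11`: `32 * k * log y ≤ 3 * L ≤ y`, and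
`262144 * (32 * k * log y) ^ 4 ≤ 262144 * 81 * L ^ 4 ≤ L ^ 5` for large `L`; its `k`-th power is
at most `exp (5 * k * log L)`, and `log L ≤ log (y + 1) / c`, so it is at most
`exp (6 * L / (11 * c))`, that is `N ^ (6 / (11 c)) ≤ N ^ (6 ε / 11)`.  Finally
`64 * y ^ 3 ≤ 64 * L ^ (3 * c) ≤ N ^ (5 ε / 11)` for large `N`. -/
theorem numerics (ε : ℝ) (hε : 0 < ε) (x₀ : ℕ) : ∃ C : ℝ, 0 < C ∧ ∃ N₀ : ℕ, ∀ N : ℕ, N₀ ≤ N →
    ∃ y k : ℕ, x₀ ≤ y ∧ 1 ≤ k ∧ (y : ℝ) ^ 3 ≤ (Real.log N) ^ C ∧ y ^ (11 * k) ≤ N ∧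
      32 * k * Real.log y ≤ y ∧
      64 * (N : ℝ) * (262144 * (32 * k * Real.log y) ^ 4) ^ k / (y : ℝ) ^ (3 * k)
        ≤ (N : ℝ) ^ (8 / 11 + ε) := by
  exact numerics' 262144 (by norm_num) ε hε x₀

end Pool.Agent.Helper24.FP
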