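import Mathlib

/-!
# Project FP (MP_d5570f_nt), piece FP-6: counting sets with few residue classes
-/

open Finset

namespace Pool.Agent.Helper24.FP

/-- Proof.  For `A ∈ Z` let `H p` be the set of the residues of the elements of `A` modulo
`p ^ 2` (`p ∈ P`; `H p = ∅` for the other `p`).  `A` is an `m`-element subset of the set
`{n ≤ N : n % p ^ 2 ∈ H p for all p ∈ P}`, which has at most `V` elements by `hV`.  There are at
most `∏ 2 ^ (p ^ 2) ≤ 2 ^ (y ^ 3)` families `H` (`Finset.pi` or `Fintype.piFinset`; `P` has at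
most `y` elements, each at most `y`), and each contributes at most `V.choose m`, where
`V.choose m * m! ≤ V ^ m` (`Nat.descFactorial_le_pow`). -/
theorem family_count (N y m V : ℕ) (P : Finset ℕ) (hP : ∀ p ∈ P, 0 < p ∧ p ≤ y)
    (hV : ∀ H : ℕ → Finset ℕ, (∀ p ∈ P, H p ⊆ Finset.range (p ^ 2) ∧ 2 * (H p).card ≤ p ^ 2) →
      ((Finset.Icc 1 N).filter (fun n => ∀ p ∈ P, n % p ^ 2 ∈ H p)).card ≤ V)
    (Z : Finset (Finset ℕ)) (hZ : ∀ A ∈ Z, A ⊆ Finset.Icc 1 N ∧ A.card = m ∧
      ∀ p ∈ P, 2 * (A.image (fun n => n % p ^ 2)).card ≤ p ^ 2) :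
    Z.card * m.factorial ≤ 2 ^ (y ^ 3) * V ^ m := by
  classical
  obtain ⟨F, hF⟩ : ∃ F : Finset ℕ → (∀ p ∈ P, Finset ℕ),
      ∀ A p (hp : p ∈ P), F A p hp = A.image (fun n => n % p ^ 2) :=
    ⟨fun A p _ => A.image (fun n => n % p ^ 2), fun _ _ _ => rfl⟩
  have hmap : ∀ A ∈ Z, F A ∈ P.pi (fun p => (Finset.range (p ^ 2)).powerset) := by
    intro A _
    rw [Finset.mem_pi]
    intro p hp
    rw [hF, Finset.mem_powerset]
    intro x hx
    rw [Finset.mem_image] at hx
    obtain ⟨n, -, rfl⟩ := hx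
    rw [Finset.mem_range]
    exact Nat.mod_lt _ (pow_pos (hP p hp).1 2)
  have hfib : ∀ b ∈ P.pi (fun p => (Finset.range (p ^ 2)).powerset),
      (Z.filter (fun A => F A = b)).card ≤ V.choose m := by
    intro b _
    rcases (Z.filter (fun A => F A = b)).eq_empty_or_nonempty with h | ⟨A0, hA0⟩
    · rw [h, Finset.card_empty]
      exact Nat.zero_le _
    · rw [Finset.mem_filter] at hA0
      obtain ⟨H, hH⟩ : ∃ H : ℕ → Finset ℕ, ∀ p (hp : p ∈ P), H p = b p hp :=
        ⟨fun p => if hp : p ∈ P then b p hp else ∅, fun p hp => dif_pos hp⟩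
      have hb : ∀ A, F A = b → ∀ p ∈ P, H p = A.image (fun n => n % p ^ 2) := by
        intro A hA p hp
        rw [hH p hp, ← hA, hF]
      have h1 : ∀ p ∈ P, H p ⊆ Finset.range (p ^ 2) ∧ 2 * (H p).card ≤ p ^ 2 := by
        intro p hp
        constructor
        · have h2 := hmap A0 hA0.1
          rw [Finset.mem_pi] at h2
          have h3 := h2 p hp
          rw [Finset.mem_powerset, hF] at h3
          rw [hb A0 hA0.2 p hp]
          exact h3
        · rw [hb A0 hA0.2 p hp]
          exact (hZ A0 hA0.1).2.2 p hp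
      have h4 := hV H h1
      refine le_trans (Finset.card_le_card (t := Finset.powersetCard m
        ((Finset.Icc 1 N).filter (fun n => ∀ p ∈ P, n % p ^ 2 ∈ H p))) ?_) ?_
      · intro A hA
        rw [Finset.mem_filter] at hA
        rw [Finset.mem_powersetCard]
        refine ⟨?_, (hZ A hA.1).2.1⟩
        intro n hn
        rw [Finset.mem_filter]
        refine ⟨(hZ A hA.1).1 hn, ?_⟩
        intro p hp
        rw [hb A hA.2 p hp]
        exact Finset.mem_image_of_mem _ hn
      · rw [Finset.card_powersetCard]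
        exact Nat.choose_le_choose m h4
  have hcard : (P.pi (fun p => (Finset.range (p ^ 2)).powerset)).card ≤ 2 ^ (y ^ 3) := by
    rw [Finset.card_pi]
    have h1 : ∏ p ∈ P, ((Finset.range (p ^ 2)).powerset).card = 2 ^ (∑ p ∈ P, p ^ 2) := by
      rw [← Finset.prod_pow_eq_pow_sum]
      refine Finset.prod_congr rfl fun p _ => ?_
      rw [Finset.card_powerset, Finset.card_range]
    rw [h1]
    refine Nat.pow_le_pow_right (by norm_num) ?_
    have h2 : P.card ≤ y := by
      have h3 : P ⊆ Finset.Icc 1 y := by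
        intro p hp
        rw [Finset.mem_Icc]
        exact ⟨(hP p hp).1, (hP p hp).2⟩
      have h4 := Finset.card_le_card h3
      rwa [Nat.card_Icc, Nat.add_sub_cancel] at h4
    calc ∑ p ∈ P, p ^ 2 ≤ P.card • y ^ 2 :=
          Finset.sum_le_card_nsmul _ _ _ (fun p hp => Nat.pow_le_pow_left (hP p hp).2 2)
      _ ≤ y * y ^ 2 := by
          rw [smul_eq_mul]
          exact Nat.mul_le_mul_right _ h2
      _ = y ^ 3 := by ring
  have hZc : Z.card ≤ 2 ^ (y ^ 3) * V.choose m := by
    rw [Finset.card_eq_sum_card_fiberwise hmap]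
    refine le_trans (Finset.sum_le_card_nsmul _ _ _ hfib) ?_
    rw [smul_eq_mul]
    exact Nat.mul_le_mul_right _ hcard
  calc Z.card * m.factorial ≤ 2 ^ (y ^ 3) * V.choose m * m.factorial :=
        Nat.mul_le_mul_right _ hZc
    _ = 2 ^ (y ^ 3) * V.descFactorial m := by
        rw [Nat.descFactorial_eq_factorial_mul_choose]
        ring
    _ ≤ 2 ^ (y ^ 3) * V ^ m := Nat.mul_le_mul_left _ (Nat.descFactorial_le_pow V m)

end Pool.Agent.Helper24.FP
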