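import Mathlib

/-!
# Project FP (MP_d5570f_nt), piece FP-8: primes up to `K log N` do not suffice
-/

open Finset

namespace Pool.Agent.Helper24.FP

/-- The estimates for large `x`. -/
private lemma FP8_asym (K ε : ℝ) (hK : 0 < K) (hε : 0 < ε) : ∀ᶠ x : ℝ in Filter.atTop,
    1 ≤ x ∧ 1 ≤ Real.log x ∧ 1 < K * Real.log x ∧
    (Real.log 4 * (K * Real.log x) / Real.log (Real.sqrt (K * Real.log x)) +
      Real.sqrt (K * Real.log x)) * Real.log 2 ≤ ε / 2 * Real.log x ∧
    x ^ (1 - ε / 2) + K * Real.log x + 1 ≤ (x * Real.log 2 - Real.log (x + 1)) / Real.log x := by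
  have hlog : Filter.Tendsto Real.log Filter.atTop Filter.atTop := Real.tendsto_log_atTop
  have hKlog : Filter.Tendsto (fun x => K * Real.log x) Filter.atTop Filter.atTop :=
    hlog.const_mul_atTop hK
  have hsq : Filter.Tendsto (fun x => Real.log (Real.sqrt (K * Real.log x))) Filter.atTop
      Filter.atTop := hlog.comp (Real.tendsto_sqrt_atTop.comp hKlog)
  have hl2 : 0 < Real.log 2 := Real.log_pos (by norm_num)
  have hl4 : 0 < Real.log 4 := Real.log_pos (by norm_num)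
  obtain ⟨δ, hδ⟩ : ∃ δ, δ = ε / 2 / Real.log 2 := ⟨_, rfl⟩
  have hδ0 : 0 < δ := by rw [hδ]; positivity
  have h1 : ∀ᶠ x : ℝ in Filter.atTop, 2 * (Real.log 4 * K) / δ ≤
      Real.log (Real.sqrt (K * Real.log x)) := hsq.eventually_ge_atTop _
  have h2 : ∀ᶠ x : ℝ in Filter.atTop, 4 * K / δ ^ 2 ≤ Real.log x := hlog.eventually_ge_atTop _
  have h3 : ∀ᶠ x : ℝ in Filter.atTop, 1 < K * Real.log x := hKlog.eventually_gt_atTop _
  have h4 : ∀ᶠ x : ℝ in Filter.atTop, 1 ≤ Real.log x := hlog.eventually_ge_atTop _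
  have h5 : ∀ᶠ x : ℝ in Filter.atTop, (1 : ℝ) ≤ x := Filter.eventually_ge_atTop _
  have h6 : ∀ᶠ x : ℝ in Filter.atTop, ‖Real.log x‖ ≤ 1 / 4 * ‖x ^ (ε / 2)‖ :=
    (isLittleO_log_rpow_atTop (by positivity : 0 < ε / 2)).def (by norm_num)
  have h7 : ∀ᶠ x : ℝ in Filter.atTop, ‖Real.log x ^ 2‖ ≤ 1 / (4 * (K + 1)) * ‖id x‖ :=
    (Real.isLittleO_pow_log_id_atTop (n := 2)).def (by positivity)
  have h8 : ∀ᶠ x : ℝ in Filter.atTop, ‖Real.log x‖ ≤ 1 / 12 * ‖id x‖ :=
    Real.isLittleO_log_id_atTop.def (by norm_num)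
  filter_upwards [h1, h2, h3, h4, h5, h6, h7, h8] with x h1 h2 h3 h4 h5 h6 h7 h8
  have hx0 : 0 < x := by linarith
  have hlx : 0 < Real.log x := by linarith
  have hKl : 0 < K * Real.log x := by positivity
  refine ⟨h5, h4, h3, ?_, ?_⟩
  · have hS : 0 < Real.log (Real.sqrt (K * Real.log x)) := lt_of_lt_of_le (by positivity) h1
    have e1 : Real.log 4 * (K * Real.log x) / Real.log (Real.sqrt (K * Real.log x)) ≤
        δ / 2 * Real.log x := by
      rw [div_le_iff₀ hS]
      have e2 := mul_le_mul_of_nonneg_left h1 (by positivity : 0 ≤ δ / 2 * Real.log x)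
      calc Real.log 4 * (K * Real.log x) = δ / 2 * Real.log x * (2 * (Real.log 4 * K) / δ) := by
            field_simp
        _ ≤ _ := e2
    have e2 : Real.sqrt (K * Real.log x) ≤ δ / 2 * Real.log x := by
      rw [Real.sqrt_le_left (by positivity)]
      have e3 : 4 * K ≤ Real.log x * δ ^ 2 := by
        rwa [div_le_iff₀ (by positivity)] at h2
      nlinarith
    have e3 : (Real.log 4 * (K * Real.log x) / Real.log (Real.sqrt (K * Real.log x)) +
      Real.sqrt (K * Real.log x)) ≤ δ * Real.log x := by linarith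
    calc _ ≤ δ * Real.log x * Real.log 2 := mul_le_mul_of_nonneg_right e3 hl2.le
      _ = ε / 2 * Real.log x := by rw [hδ]; field_simp
  · rw [le_div_iff₀ hlx]
    rw [Real.norm_of_nonneg hlx.le, Real.norm_of_nonneg (Real.rpow_nonneg hx0.le _)] at h6
    rw [Real.norm_of_nonneg (by positivity), id, Real.norm_of_nonneg hx0.le] at h7
    rw [Real.norm_of_nonneg hlx.le, id, Real.norm_of_nonneg hx0.le] at h8
    have e1 : x ^ (1 - ε / 2) * Real.log x ≤ x / 4 := by
      have e2 := mul_le_mul_of_nonneg_left h6 (Real.rpow_nonneg hx0.le (1 - ε / 2))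
      have e3 : x ^ (1 - ε / 2) * (1 / 4 * x ^ (ε / 2)) = x / 4 := by
        have e4 : x ^ (1 - ε / 2) * x ^ (ε / 2) = x := by
          rw [← Real.rpow_add hx0, sub_add_cancel, Real.rpow_one]
        calc _ = 1 / 4 * (x ^ (1 - ε / 2) * x ^ (ε / 2)) := by ring
          _ = x / 4 := by rw [e4]; ring
      linarith
    have e2 : (K * Real.log x + 1) * Real.log x ≤ x / 4 := by
      have e3 : (K * Real.log x + 1) * Real.log x ≤ (K + 1) * Real.log x ^ 2 := by nlinarith
      have e4 := mul_le_mul_of_nonneg_left h7 (by positivity : 0 ≤ K + 1)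
      have e5 : (K + 1) * (1 / (4 * (K + 1)) * x) = x / 4 := by field_simp
      linarith
    have e3 : Real.log (x + 1) ≤ Real.log x + Real.log 2 := by
      rw [← Real.log_mul hx0.ne' (by norm_num)]
      exact Real.log_le_log (by linarith) (by linarith)
    have e4 : (0.6931471803 : ℝ) < Real.log 2 := Real.log_two_gt_d9
    have e5 : Real.log 2 < (0.6931471808 : ℝ) := Real.log_two_lt_d9
    have e6 : 12 ≤ x := by linarith
    nlinarith

/-- The residues. -/
private lemma FP8_dvd {p n : ℕ} (hp : p.Prime) (h : ¬ p ∣ n) :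
    n % p ^ 2 ≠ 0 ∧ 2 * (n % p ^ 2) ≠ p ^ 2 := by
  have h1 : ¬ p ∣ n % p ^ 2 := by
    intro h2
    apply h
    rw [← Nat.mod_add_div n (p ^ 2)]
    exact dvd_add h2 (Dvd.dvd.mul_right (dvd_pow_self p two_ne_zero) _)
  refine ⟨?_, ?_⟩
  · intro h2
    rw [h2] at h1
    exact h1 (dvd_zero p)
  · intro h2
    have h3 : p ∣ 2 * (n % p ^ 2) := by rw [h2]; exact dvd_pow_self p two_ne_zero
    rcases hp.dvd_mul.mp h3 with h4 | h4
    · have h5 : p = 2 := (Nat.prime_dvd_prime_iff_eq hp Nat.prime_two).mp h4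
      subst h5
      apply h1
      omega
    · exact h1 h4

private lemma FP8_key {p a a' : ℕ} (hp : p.Prime) (ha : ¬ p ∣ a) (ha' : ¬ p ∣ a')
    (h : 2 * (a % p ^ 2) < p ^ 2 ↔ 2 * (a' % p ^ 2) < p ^ 2) : ¬ p ^ 2 ∣ a + a' := by
  obtain ⟨h1, h2⟩ := FP8_dvd hp ha
  obtain ⟨h3, h4⟩ := FP8_dvd hp ha'
  have hpos : 0 < p ^ 2 := pow_pos hp.pos 2
  have h5 := Nat.mod_lt a hpos
  have h6 := Nat.mod_lt a' hpos
  intro h7
  have h8 : p ^ 2 ∣ a % p ^ 2 + a' % p ^ 2 := by
    have h9 := (Nat.dvd_iff_mod_eq_zero).mp h7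
    rw [Nat.add_mod] at h9
    exact Nat.dvd_of_mod_eq_zero h9
  obtain ⟨c, hc⟩ := h8
  generalize p ^ 2 = q at *
  generalize a % q = r at *
  generalize a' % q = r' at *
  rcases c with _ | _ | c
  · omega
  · by_cases h9 : 2 * r < q
    · have := h.mp h9
      omega
    · have h10 : ¬ 2 * r' < q := fun h11 => h9 (h.mpr h11)
      omega
  · have : q * (c + 1 + 1) = q * c + 2 * q := by ring
    have h9 : 0 ≤ q * c := Nat.zero_le _
    omega

/-- Proof.  Let `y = ⌊K log N⌋₊` and let `G` be the set of the primes `n` with `y < n ≤ N`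
(and `2 < n`).  For `n ∈ G` and a prime `p ≤ y` the residue `n % p ^ 2` is not divisible by `p`.
Attach to `n` the function `p ↦ decide (2 * (n % p ^ 2) < p ^ 2)` on the primes `p ≤ y`; it takes
at most `2 ^ π y` values, so for one value the fibre `A` has at least `G.card / 2 ^ π y` elements
(`Finset.exists_le_card_fiber_of_mul_le_card_of_maps_to` or a similar pigeonhole).  For
`a, a' ∈ A` and a prime `p ≤ y` with residues `r, r'` modulo `p ^ 2`: either `0 < r, r' < p ^ 2 / 2`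
and `0 < r + r' < p ^ 2`, or `p ^ 2 / 2 < r, r' < p ^ 2` (`2 r = p ^ 2` is impossible, as `p` does
not divide `r`) and `p ^ 2 < r + r' < 2 * p ^ 2`; so `p ^ 2` does not divide `a + a'`.
Sizes: `π y ≤ log 4 * y / log √y + √y` (`Chebyshev.pi_le_log4_mul_div`) is `o (log N)`, and
`G.card ≥ π N - y - 2 ≥ N / (4 log N)` (`Chebyshev.pi_ge`) for large `N`; so
`A.card ≥ N ^ (1 - ε)` for large `N`. -/
theorem lower_threshold (K ε : ℝ) (hK : 0 < K) (hε : 0 < ε) : ∃ N₀ : ℕ, ∀ N : ℕ, N₀ ≤ N →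
    ∃ A : Finset ℕ, A ⊆ Finset.Icc 1 N ∧
      (∀ p : ℕ, p.Prime → (p : ℝ) ≤ K * Real.log N → ∀ a ∈ A, ∀ a' ∈ A, ¬ p ^ 2 ∣ a + a') ∧
      (N : ℝ) ^ (1 - ε) ≤ (A.card : ℝ) := by
  classical
  obtain ⟨N₀, hN₀⟩ := Filter.eventually_atTop.mp
    (tendsto_natCast_atTop_atTop.eventually (FP8_asym K ε hK hε))
  refine ⟨N₀, fun N hN => ?_⟩
  obtain ⟨h1, h2, h3, h4, h5⟩ := hN₀ N hN
  have hN0 : (0 : ℝ) < N := by linarith
  set y := ⌊K * Real.log N⌋₊ with hy
  let P : Finset ℕ := (Finset.range (y + 1)).filter Nat.Prime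
  have hP : P.card = Nat.primeCounting y := by
    rw [Nat.primeCounting, Nat.primeCounting', Nat.count_eq_card_filter_range]
  let G : Finset ℕ := (Finset.range (N + 1)).filter (fun n => n.Prime ∧ y < n)
  have hG : Nat.primeCounting N ≤ G.card + (y + 1) := by
    have e1 : (Finset.range (N + 1)).filter Nat.Prime ⊆ G ∪ Finset.range (y + 1) := by
      intro n hn
      simp only [G, Finset.mem_union, Finset.mem_filter, Finset.mem_range] at hn ⊢
      by_cases h : y < n
      · exact Or.inl ⟨hn.1, hn.2, h⟩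
      · right
        omega
    have e2 := (Finset.card_le_card e1).trans (Finset.card_union_le _ _)
    rw [Finset.card_range] at e2
    rwa [Nat.primeCounting, Nat.primeCounting', Nat.count_eq_card_filter_range]
  let f : ℕ → Finset ℕ := fun n => P.filter (fun p => 2 * (n % p ^ 2) < p ^ 2)
  have hf : ∀ n ∈ G, f n ∈ P.powerset := fun n _ =>
    Finset.mem_powerset.mpr (Finset.filter_subset _ _)
  have hpi : (Nat.primeCounting y : ℝ) * Real.log 2 ≤ ε / 2 * Real.log N := by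
    have e1 := Chebyshev.pi_le_log4_mul_div h3
    exact (mul_le_mul_of_nonneg_right e1 (Real.log_nonneg (by norm_num))).trans h4
  have hpow : (2 : ℝ) ^ Nat.primeCounting y ≤ (N : ℝ) ^ (ε / 2) := by
    rw [← Real.rpow_natCast 2, Real.rpow_def_of_pos (by norm_num : (0 : ℝ) < 2),
      Real.rpow_def_of_pos hN0]
    apply Real.exp_le_exp.mpr
    linarith
  have hGc : (N : ℝ) ^ (1 - ε / 2) ≤ G.card := by
    have e1 := Chebyshev.pi_ge N
    have e2 : (Nat.primeCounting N : ℝ) ≤ G.card + (y + 1) := by exact_mod_cast hG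
    have e3 : (y : ℝ) ≤ K * Real.log N := Nat.floor_le (by linarith)
    linarith
  have hcard : P.powerset.card • (N : ℝ) ^ (1 - ε) ≤ G.card := by
    rw [Finset.card_powerset, hP, nsmul_eq_mul]
    push_cast
    calc (2 : ℝ) ^ Nat.primeCounting y * (N : ℝ) ^ (1 - ε)
        ≤ (N : ℝ) ^ (ε / 2) * (N : ℝ) ^ (1 - ε) :=
          mul_le_mul_of_nonneg_right hpow (Real.rpow_nonneg hN0.le _)
      _ = (N : ℝ) ^ (1 - ε / 2) := by
          rw [← Real.rpow_add hN0]
          congr 1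
          ring
      _ ≤ G.card := hGc
  obtain ⟨v, _, hv⟩ := Finset.exists_le_card_fiber_of_nsmul_le_card_of_maps_to hf
    ⟨∅, Finset.empty_mem_powerset P⟩ hcard
  refine ⟨G.filter (fun n => f n = v), ?_, ?_, hv⟩
  · intro n hn
    rw [Finset.mem_filter, Finset.mem_filter, Finset.mem_range] at hn
    rw [Finset.mem_Icc]
    have := hn.1.2.1.pos
    omega
  · intro p hp hpK a ha a' ha'
    rw [Finset.mem_filter, Finset.mem_filter] at ha ha'
    have hpy : p ≤ y := Nat.le_floor hpK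
    have hpP : p ∈ P := by
      rw [Finset.mem_filter, Finset.mem_range]
      exact ⟨by omega, hp⟩
    have hnd : ∀ n : ℕ, n.Prime → y < n → ¬ p ∣ n := by
      intro n hn hyn hpn
      have := (Nat.prime_dvd_prime_iff_eq hp hn).mp hpn
      omega
    refine FP8_key hp (hnd a ha.1.2.1 ha.1.2.2) (hnd a' ha'.1.2.1 ha'.1.2.2) ?_
    have e1 : p ∈ f a ↔ p ∈ f a' := by rw [ha.2, ha'.2]
    simp only [f, Finset.mem_filter, hpP, true_and] at e1
    exact e1

end Pool.Agent.Helper24.FP
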