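import Mathlib

/-!
# Project FP (MP_d5570f_nt), piece FP-9: the choice of the parameters for the threshold
-/

open Finset

namespace Pool.Agent.Helper24.FP

/-- Proof.  Let `L = log N`, `y = ⌊L ^ C⌋₊`, `k = ⌊L / (4 * log y)⌋₊`.  Then `y ^ (4 * k) ≤ N` and
`N < y ^ (4 * (k + 1))`, so that `1 / y ^ k ≤ y * N ^ (- 1 / 4)`.  As `4 * k * log y ≤ L ≤ y`
(here `C > 1` is used), `(4 * k * log y) ^ k ≤ L ^ k = exp (k * log L)
≤ exp (L * log L / (4 * log y))`, and `log L / log y ≤ (1 + δ) / C` for large `N`, any `δ > 0`.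
Finally `32 * y ≤ N ^ (ε / 2)` for large `N`. -/
theorem numerics2 (C ε : ℝ) (hC : 1 < C) (hε : 0 < ε) (x₀ : ℕ) : ∃ N₀ : ℕ, ∀ N : ℕ, N₀ ≤ N →
    ∃ y k : ℕ, x₀ ≤ y ∧ 1 ≤ k ∧ (y : ℝ) ≤ (Real.log N) ^ C ∧ y ^ (4 * k) ≤ N ∧
      4 * k * Real.log y ≤ y ∧
      32 * (N : ℝ) * (4 * k * Real.log y) ^ k / (y : ℝ) ^ k
        ≤ (N : ℝ) ^ (3 / 4 + 1 / (4 * C) + ε) := by
  have hC0 : 0 < C := by linarith
  have hlog : ∀ c : ℝ, 0 < c → ∀ᶠ x : ℝ in Filter.atTop, Real.log x ≤ c * x := by
    intro c hc
    have h := Real.isLittleO_log_id_atTop.def hc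
    filter_upwards [h, Filter.eventually_ge_atTop (1 : ℝ)] with x hx hx1
    rw [Real.norm_eq_abs, Real.norm_eq_abs, id] at hx
    rw [abs_of_nonneg (Real.log_nonneg hx1), abs_of_nonneg (by linarith)] at hx
    exact hx
  have hev : ∀ᶠ L : ℝ in Filter.atTop, 2 ≤ L ∧ (x₀ : ℝ) ≤ L ∧ 2 ≤ L ^ (C - 1) ∧
      4 * C * Real.log L ≤ L ∧ (1 / C + 2 * ε) * Real.log 2 ≤ 2 * ε * C * Real.log L ∧
      Real.log 32 + C * Real.log L ≤ ε / 2 * L := by
    have h1 := Filter.eventually_ge_atTop (2 : ℝ)
    have h2 := Filter.eventually_ge_atTop (x₀ : ℝ)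
    have h3 := (tendsto_rpow_atTop (show 0 < C - 1 by linarith)).eventually_ge_atTop 2
    have h4 := hlog (1 / (4 * C)) (by positivity)
    have h5 := (Real.tendsto_log_atTop).eventually_ge_atTop
      ((1 / C + 2 * ε) * Real.log 2 / (2 * ε * C))
    have h6 := hlog (ε / (4 * C)) (by positivity)
    have h7 := Filter.eventually_ge_atTop (Real.log 32 / (ε / 4))
    filter_upwards [h1, h2, h3, h4, h5, h6, h7] with L a1 a2 a3 a4 a5 a6 a7
    refine ⟨a1, a2, a3, ?_, ?_, ?_⟩
    · have := mul_le_mul_of_nonneg_left a4 (show 0 ≤ 4 * C by positivity)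
      calc 4 * C * Real.log L ≤ 4 * C * (1 / (4 * C) * L) := this
        _ = L := by field_simp
    · rw [div_le_iff₀ (by positivity)] at a5
      linarith
    · have h8 := mul_le_mul_of_nonneg_left a6 hC0.le
      have h9 : C * (ε / (4 * C) * L) = ε / 4 * L := by field_simp
      rw [div_le_iff₀ (by positivity)] at a7
      linarith
  have htend : Filter.Tendsto (fun N : ℕ => Real.log (N : ℝ)) Filter.atTop Filter.atTop :=
    Real.tendsto_log_atTop.comp tendsto_natCast_atTop_atTop
  obtain ⟨N₀, hN₀⟩ := Filter.eventually_atTop.1 ((htend.eventually hev).and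
    (Filter.eventually_ge_atTop 1))
  refine ⟨N₀, fun N hN => ?_⟩
  obtain ⟨⟨a1, a2, a3, a4, a5, a6⟩, hN1⟩ := hN₀ N hN
  set L : ℝ := Real.log (N : ℝ) with hL
  have hNpos : (0 : ℝ) < N := by exact_mod_cast hN1
  have hLpos : 0 < L := by linarith
  have hLC : 2 * L ≤ L ^ C := by
    have h1 : L ^ C = L ^ (C - 1) * L := by
      rw [← Real.rpow_add_one hLpos.ne']
      congr 1
      ring
    rw [h1]
    exact mul_le_mul_of_nonneg_right a3 hLpos.le
  set y : ℕ := ⌊L ^ C⌋₊ with hy
  have hy1 : (y : ℝ) ≤ L ^ C := Nat.floor_le (by positivity)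
  have hy2 : L ^ C < (y : ℝ) + 1 := Nat.lt_floor_add_one _
  have hLy : L ≤ y := by linarith
  have hy3 : L ^ C / 2 ≤ y := by linarith
  have hypos : (0 : ℝ) < y := by linarith
  have hy2' : (2 : ℝ) ≤ y := by linarith
  have hlogy : 0 < Real.log y := Real.log_pos (by linarith)
  have hlogL : 0 < Real.log L := Real.log_pos (by linarith)
  have hlogy1 : Real.log y ≤ C * Real.log L := by
    rw [← Real.log_rpow hLpos]
    exact Real.log_le_log hypos hy1
  have hlogy2 : C * Real.log L - Real.log 2 ≤ Real.log y := by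
    rw [← Real.log_rpow hLpos, ← Real.log_div (by positivity) (by norm_num)]
    exact Real.log_le_log (by positivity) hy3
  set k : ℕ := ⌊L / (4 * Real.log y)⌋₊ with hk
  have hk1 : (k : ℝ) ≤ L / (4 * Real.log y) := Nat.floor_le (by positivity)
  have hk2 : L / (4 * Real.log y) < (k : ℝ) + 1 := Nat.lt_floor_add_one _
  have hk3 : 4 * k * Real.log y ≤ L := by
    rw [le_div_iff₀ (by positivity)] at hk1
    linarith
  have hk4 : L < 4 * (k + 1) * Real.log y := by
    rw [div_lt_iff₀ (by positivity)] at hk2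
    linarith
  have hk5 : 1 ≤ k := by
    rw [hk]
    apply Nat.le_floor
    rw [Nat.cast_one, le_div_iff₀ (by positivity)]
    linarith
  have hkpos : (0 : ℝ) < k := by exact_mod_cast hk5
  refine ⟨y, k, by exact_mod_cast a2.trans hLy, hk5, hy1, ?_, hk3.trans hLy, ?_⟩
  · have h1 : ((y ^ (4 * k) : ℕ) : ℝ) ≤ (N : ℝ) := by
      rw [← Real.exp_log hNpos, Nat.cast_pow, ← Real.exp_log hypos, ← Real.exp_nat_mul]
      apply Real.exp_le_exp.2
      push_cast
      exact hk3
    exact_mod_cast h1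
  · have hb : 0 < 4 * k * Real.log y := by positivity
    have h1 : (4 * k * Real.log y) ^ k ≤ Real.exp (k * Real.log L) := by
      rw [Real.exp_nat_mul, Real.exp_log hLpos]
      exact pow_le_pow_left₀ hb.le hk3 k
    have h2 : (y : ℝ) ^ k = Real.exp (k * Real.log y) := by
      rw [Real.exp_nat_mul, Real.exp_log hypos]
    have h3 : (N : ℝ) ^ (3 / 4 + 1 / (4 * C) + ε) =
        Real.exp (L * (3 / 4 + 1 / (4 * C) + ε)) := by
      rw [Real.rpow_def_of_pos hNpos]
    have h4 : 32 * (N : ℝ) = Real.exp (Real.log 32 + L) := by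
      rw [Real.exp_add, Real.exp_log (by norm_num), Real.exp_log hNpos]
    rw [h2, h3, h4, div_eq_mul_inv, ← Real.exp_neg]
    calc Real.exp (Real.log 32 + L) * (4 * k * Real.log y) ^ k * Real.exp (-(k * Real.log y))
        ≤ Real.exp (Real.log 32 + L) * Real.exp (k * Real.log L) *
          Real.exp (-(k * Real.log y)) := by gcongr
      _ = Real.exp (Real.log 32 + L + k * Real.log L + -(k * Real.log y)) := by
          rw [← Real.exp_add, ← Real.exp_add]
      _ ≤ _ := by
          apply Real.exp_le_exp.2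
          have h5 : Real.log L ≤ (1 / C + 2 * ε) * Real.log y := by
            have h6 : (1 / C + 2 * ε) * (C * Real.log L - Real.log 2) ≤
                (1 / C + 2 * ε) * Real.log y :=
              mul_le_mul_of_nonneg_left hlogy2 (by positivity)
            have h7 : (1 / C + 2 * ε) * (C * Real.log L - Real.log 2) =
                Real.log L + 2 * ε * C * Real.log L - (1 / C + 2 * ε) * Real.log 2 := by
              field_simp
            linarith
          have h8 : (k : ℝ) * Real.log L ≤ L * (1 / (4 * C) + ε / 2) := by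
            have h9 : (k : ℝ) * Real.log L ≤ k * ((1 / C + 2 * ε) * Real.log y) :=
              mul_le_mul_of_nonneg_left h5 hkpos.le
            have h10 : (k : ℝ) * ((1 / C + 2 * ε) * Real.log y) =
                (1 / C + 2 * ε) / 4 * (4 * k * Real.log y) := by ring
            have h11 : (1 / C + 2 * ε) / 4 * (4 * k * Real.log y) ≤
                (1 / C + 2 * ε) / 4 * L :=
              mul_le_mul_of_nonneg_left hk3 (by positivity)
            have h12 : (1 / C + 2 * ε) / 4 * L = L * (1 / (4 * C) + ε / 2) := by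
              field_simp
              ring
            linarith
          have h13 : L * (3 / 4 + 1 / (4 * C) + ε) =
              3 / 4 * L + L * (1 / (4 * C) + ε / 2) + ε / 2 * L := by ring
          rw [h13]
          linarith

end Pool.Agent.Helper24.FP
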