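import Mathlib
import Pool.Agent.Helper24.FP.Cont

/-!
# Project FP (MP_d5570f_nt): counting and random hosts
-/

set_option linter.unusedSectionVars false

open Finset Pool.Agent.Helper94.SF

namespace Pool.Agent.Helper24.FP

open Classical in
/-- The `m`-element sets with a small container. -/
noncomputable def Zm (N y m V : ℕ) : Finset (Finset ℕ) :=
  ((Icc 1 N).powersetCard m).filter (fun A => (Cn N (prs y) A).card ≤ V)

theorem Zm_card (N y m V : ℕ) (hym : y ^ 3 ≤ m) (W : ℝ) (hV : (V : ℝ) ≤ W) :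
    ((Zm N y m V).card : ℝ) * m.factorial ≤ (2 * W) ^ m := by
  have h := family_count2 N y m V (prs y)
    (fun p hp => ⟨((mem_prs _ _).1 hp).2.1.pos, ((mem_prs _ _).1 hp).1⟩) (Zm N y m V) (by
      intro A hA
      unfold Zm at hA
      rw [Finset.mem_filter, Finset.mem_powersetCard] at hA
      exact ⟨hA.1.1, hA.1.2, hA.2⟩)
  have h2 : (Zm N y m V).card * m.factorial ≤ 2 ^ m * V ^ m :=
    h.trans (Nat.mul_le_mul_right _ (Nat.pow_le_pow_right (by norm_num) hym))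
  have h3 : ((Zm N y m V).card : ℝ) * m.factorial ≤ 2 ^ m * (V : ℝ) ^ m := by exact_mod_cast h2
  refine h3.trans ?_
  rw [mul_pow]
  exact mul_le_mul_of_nonneg_left (pow_le_pow_left₀ (Nat.cast_nonneg _) hV m) (by positivity)

theorem base (ε : ℝ) (hε : 0 < ε) :
    ∃ C : ℝ, 0 < C ∧ ∃ N₀ : ℕ, ∀ N : ℕ, N₀ ≤ N →
      (∀ A B : Finset ℕ, A ⊆ Icc 1 N → B ⊆ Icc 1 N →
        (∀ p : ℕ, p.Prime → (p : ℝ) ≤ Real.log N ^ C → Cl 1 p A B) →
        (A.card : ℝ) * B.card ≤ (N : ℝ) ^ (16 / 11 + ε)) ∧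
      ∃ y V : ℕ, (y : ℝ) ^ 3 ≤ Real.log N ^ C ∧ (V : ℝ) ≤ (N : ℝ) ^ (8 / 11 + ε / 2) ∧
        ∀ A B : Finset ℕ, (∀ a ∈ A, ∀ b ∈ B, Squarefree (a + b)) →
          (Cn N (prs y) A).card ≤ V ∨ (Cn N (prs y) B).card ≤ V := by
  obtain ⟨C, hC, N₀, hN₀⟩ := pair_few ε 1 hε one_pos
  refine ⟨C, hC, N₀, fun N hN => ?_⟩
  obtain ⟨y, hy1, hyC, h⟩ := hN₀ N hN
  have hy1' : (1 : ℝ) ≤ y := by exact_mod_cast hy1
  have hyy : (y : ℝ) ≤ (y : ℝ) ^ 3 := by
    calc (y : ℝ) = y ^ 1 := (pow_one _).symm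
      _ ≤ y ^ 3 := pow_le_pow_right₀ hy1' (by norm_num)
  refine ⟨?_, y, ⌊(N : ℝ) ^ (8 / 11 + ε / 2)⌋₊, hyC, Nat.floor_le (by positivity), ?_⟩
  · intro A B hA hB hcl
    apply h A B hA hB
    intro p hp
    have h1 := (mem_prs _ _).1 hp
    apply hcl p h1.2.1
    have h2 : (p : ℝ) ≤ y := by exact_mod_cast h1.1
    linarith
  · intro A B hAB
    apply small_cn N y _ ((N : ℝ) ^ (8 / 11 + ε / 2)) (by positivity) (Nat.lt_floor_add_one _) _
      A B hAB
    intro A B hA hB hcl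
    refine (h A B hA hB hcl).trans (le_of_eq ?_)
    rw [← Real.rpow_natCast, ← Real.rpow_mul (Nat.cast_nonneg _)]
    congr 1
    push_cast
    ring

theorem large_N (ε K : ℝ) (hε : 0 < ε) : ∃ N₁ : ℕ, ∀ N : ℕ, N₁ ≤ N →
    1 ≤ N ∧ K ≤ (N : ℝ) ^ ε := by
  have h := (tendsto_rpow_atTop hε).comp tendsto_natCast_atTop_atTop
  have h2 := (h.eventually_ge_atTop K).and (Filter.eventually_ge_atTop (1 : ℕ))
  obtain ⟨N₁, hN₁⟩ := Filter.eventually_atTop.1 h2
  exact ⟨N₁, fun N hN => ⟨(hN₁ N hN).2, (hN₁ N hN).1⟩⟩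

open Classical in
/-- **Everything in one place.** -/
theorem few_count_hosts (ε : ℝ) (hε : 0 < ε) :
    ∃ C : ℝ, 0 < C ∧ ∃ N₀ : ℕ, ∀ N : ℕ, N₀ ≤ N →
      (∀ A B : Finset ℕ, A ⊆ Icc 1 N → B ⊆ Icc 1 N →
        (∀ p : ℕ, p.Prime → (p : ℝ) ≤ Real.log N ^ C → Cl 1 p A B) →
        (A.card : ℝ) * B.card ≤ (N : ℝ) ^ (16 / 11 + ε)) ∧
      (∀ m : ℕ, Real.log N ^ C ≤ m →
        ((((Icc 1 N).powersetCard m).filter
          (fun A => ∀ a ∈ A, ∀ a' ∈ A, Squarefree (a + a'))).card : ℝ) * m.factorial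
          ≤ (N : ℝ) ^ ((8 / 11 + ε) * m)) ∧
      (∀ r : ℕ, r ≤ N →
        ((((Icc 1 N).powersetCard r).filter (fun R => ∃ A B : Finset ℕ, A ⊆ R ∧ B ⊆ R ∧
          (∀ a ∈ A, ∀ b ∈ B, Squarefree (a + b)) ∧
          Real.log N ^ C + r * (N : ℝ) ^ (-(3 / 11) + ε) < A.card ∧
          Real.log N ^ C + r * (N : ℝ) ^ (-(3 / 11) + ε) < B.card)).card : ℝ)
          ≤ Real.exp (-(Real.log N ^ C)) * (N.choose r : ℝ)) := by
  obtain ⟨C, hC, N₀, hN₀⟩ := base ε hε
  obtain ⟨N₁, hN₁⟩ := large_N (ε / 2) (2 * Real.exp 2) (by positivity)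
  refine ⟨C, hC, max N₀ N₁, fun N hN => ?_⟩
  obtain ⟨h1, y, V, hy, hV, h2⟩ := hN₀ N (le_trans (le_max_left _ _) hN)
  obtain ⟨hN1, hNK⟩ := hN₁ N (le_trans (le_max_right _ _) hN)
  have hNr : (0 : ℝ) < N := by exact_mod_cast hN1
  have hexp2 : (1 : ℝ) ≤ Real.exp 2 := Real.one_le_exp (by norm_num)
  have hlog0 : 0 ≤ Real.log N := Real.log_natCast_nonneg N
  refine ⟨h1, ?_, ?_⟩
  · intro m hm
    have hym : y ^ 3 ≤ m := by
      have : (y : ℝ) ^ 3 ≤ m := hy.trans hm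
      exact_mod_cast this
    have hsub : (((Icc 1 N).powersetCard m).filter
          (fun A => ∀ a ∈ A, ∀ a' ∈ A, Squarefree (a + a'))) ⊆ Zm N y m V := by
      intro A hA
      rw [Finset.mem_filter] at hA
      unfold Zm
      rw [Finset.mem_filter]
      refine ⟨hA.1, ?_⟩
      rcases h2 A A hA.2 with h | h <;> exact h
    have h3 : ((((Icc 1 N).powersetCard m).filter
          (fun A => ∀ a ∈ A, ∀ a' ∈ A, Squarefree (a + a'))).card : ℝ) * m.factorial
        ≤ ((Zm N y m V).card : ℝ) * m.factorial := by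
      apply mul_le_mul_of_nonneg_right _ (Nat.cast_nonneg _)
      exact_mod_cast Finset.card_le_card hsub
    refine h3.trans ((Zm_card N y m V hym _ hV).trans ?_)
    have h4 : 2 * (N : ℝ) ^ (8 / 11 + ε / 2) ≤ (N : ℝ) ^ (8 / 11 + ε) := by
      have e : (N : ℝ) ^ (8 / 11 + ε) = (N : ℝ) ^ (ε / 2) * (N : ℝ) ^ (8 / 11 + ε / 2) := by
        rw [← Real.rpow_add hNr]; congr 1; ring
      rw [e]
      apply mul_le_mul_of_nonneg_right _ (by positivity)
      linarith
    have h5 := pow_le_pow_left₀ (by positivity) h4 m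
    refine h5.trans (le_of_eq ?_)
    rw [← Real.rpow_natCast, ← Real.rpow_mul hNr.le]
  · intro r hr
    set T : ℝ := Real.log N ^ C + r * (N : ℝ) ^ (-(3 / 11) + ε) with hT
    have hLC : 0 ≤ Real.log N ^ C := Real.rpow_nonneg hlog0 _
    have hT0 : 0 ≤ T := by positivity
    set m : ℕ := ⌊T⌋₊ + 1 with hm
    have hmT : T ≤ m := by
      rw [hm]; push_cast
      exact (Nat.lt_floor_add_one T).le
    have hmL : Real.log N ^ C ≤ m := by
      refine le_trans ?_ hmT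
      rw [hT]
      have : 0 ≤ r * (N : ℝ) ^ (-(3 / 11) + ε) := by positivity
      linarith
    have hmr : r * (N : ℝ) ^ (-(3 / 11) + ε) ≤ m := by
      refine le_trans ?_ hmT
      rw [hT]
      linarith
    have hm0 : (0 : ℝ) < m := by rw [hm]; positivity
    have hym : y ^ 3 ≤ m := by
      have : (y : ℝ) ^ 3 ≤ m := hy.trans hmL
      exact_mod_cast this
    -- the bad hosts contain a set with small container
    have hsub : (((Icc 1 N).powersetCard r).filter (fun R => ∃ A B : Finset ℕ, A ⊆ R ∧ B ⊆ R ∧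
          (∀ a ∈ A, ∀ b ∈ B, Squarefree (a + b)) ∧ T < A.card ∧ T < B.card))
        ⊆ ((Icc 1 N).powersetCard r).filter (fun R => ∃ A ∈ Zm N y m V, A ⊆ R) := by
      intro R hR
      rw [Finset.mem_filter] at hR ⊢
      refine ⟨hR.1, ?_⟩
      have hRN : R ⊆ Icc 1 N := (Finset.mem_powersetCard.1 hR.1).1
      obtain ⟨A, B, hA, hB, hAB, hTA, hTB⟩ := hR.2
      have hcA : m ≤ A.card := by
        rw [hm]
        exact (Nat.floor_lt hT0).2 hTA
      have hcB : m ≤ B.card := by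
        rw [hm]
        exact (Nat.floor_lt hT0).2 hTB
      obtain ⟨A', hA', hA'c⟩ := Finset.exists_subset_card_eq hcA
      obtain ⟨B', hB', hB'c⟩ := Finset.exists_subset_card_eq hcB
      rcases h2 A' B' (fun a ha b hb => hAB a (hA' ha) b (hB' hb)) with h | h
      · refine ⟨A', ?_, hA'.trans hA⟩
        unfold Zm
        rw [Finset.mem_filter, Finset.mem_powersetCard]
        exact ⟨⟨(hA'.trans hA).trans hRN, hA'c⟩, h⟩
      · refine ⟨B', ?_, hB'.trans hB⟩
        unfold Zm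
        rw [Finset.mem_filter, Finset.mem_powersetCard]
        exact ⟨⟨(hB'.trans hB).trans hRN, hB'c⟩, h⟩
    set bad : ℕ := (((Icc 1 N).powersetCard r).filter (fun R => ∃ A B : Finset ℕ, A ⊆ R ∧ B ⊆ R ∧
          (∀ a ∈ A, ∀ b ∈ B, Squarefree (a + b)) ∧ T < A.card ∧ T < B.card)).card with hbad
    have hhost := host_count (Icc 1 N) m r (Zm N y m V) (by
      intro A hA
      unfold Zm at hA
      rw [Finset.mem_filter, Finset.mem_powersetCard] at hA
      exact ⟨hA.1.1, hA.1.2⟩)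
    rw [Nat.card_Icc, Nat.add_sub_cancel] at hhost
    have h3 : bad * N ^ m ≤ (Zm N y m V).card * r ^ m * N.choose r := by
      refine le_trans (Nat.mul_le_mul_right _ ?_) hhost
      rw [hbad]
      convert Finset.card_le_card hsub
    have h4 : (bad : ℝ) * (N : ℝ) ^ m ≤ (Zm N y m V).card * (r : ℝ) ^ m * (N.choose r : ℝ) := by
      exact_mod_cast h3
    have h5 := Zm_card N y m V hym _ hV
    set W : ℝ := (N : ℝ) ^ (8 / 11 + ε / 2) with hW
    have hW0 : 0 < W := by positivity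
    have hfac : (0 : ℝ) < m.factorial := by exact_mod_cast Nat.factorial_pos m
    have hch0 : (0 : ℝ) ≤ (N.choose r : ℝ) := Nat.cast_nonneg _
    have h6 : (bad : ℝ) * (N : ℝ) ^ m * m.factorial
        ≤ (2 * W) ^ m * (r : ℝ) ^ m * (N.choose r : ℝ) := by
      calc (bad : ℝ) * (N : ℝ) ^ m * m.factorial
          ≤ ((Zm N y m V).card * (r : ℝ) ^ m * (N.choose r : ℝ)) * m.factorial :=
            mul_le_mul_of_nonneg_right h4 hfac.le
        _ = ((Zm N y m V).card * m.factorial) * ((r : ℝ) ^ m * (N.choose r : ℝ)) := by ring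
        _ ≤ (2 * W) ^ m * ((r : ℝ) ^ m * (N.choose r : ℝ)) :=
            mul_le_mul_of_nonneg_right h5 (by positivity)
        _ = _ := by ring
    -- `2 W r ≤ exp (-2) * m * N`
    have h7 : 2 * W * r ≤ Real.exp (-2) * m * N := by
      have e : W * (N : ℝ) ^ (ε / 2) = (N : ℝ) ^ (-(3 / 11) + ε) * N := by
        rw [hW, ← Real.rpow_add hNr]
        nth_rewrite 3 [← Real.rpow_one (N : ℝ)]
        rw [← Real.rpow_add hNr]
        congr 1; ring
      have h8 : 2 * W * r * Real.exp 2 ≤ m * N := by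
        calc 2 * W * r * Real.exp 2 = W * (2 * Real.exp 2) * r := by ring
          _ ≤ W * (N : ℝ) ^ (ε / 2) * r := by gcongr
          _ = (r * (N : ℝ) ^ (-(3 / 11) + ε)) * N := by rw [e]; ring
          _ ≤ m * N := mul_le_mul_of_nonneg_right hmr hNr.le
      rw [Real.exp_neg, inv_mul_eq_div, div_mul_eq_mul_div, le_div_iff₀ (Real.exp_pos _)]
      exact h8
    have h9 : (2 * W) ^ m * (r : ℝ) ^ m ≤ Real.exp (-2) ^ m * (m : ℝ) ^ m * (N : ℝ) ^ m := by
      rw [← mul_pow, ← mul_pow, ← mul_pow]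
      exact pow_le_pow_left₀ (by positivity) h7 m
    have h10 : (m : ℝ) ^ m ≤ Real.exp m * m.factorial := by
      have := Real.pow_div_factorial_le_exp (m : ℝ) hm0.le m
      rwa [div_le_iff₀ hfac] at this
    have h11 : (bad : ℝ) * (N : ℝ) ^ m * m.factorial
        ≤ (Real.exp (-m) * (N.choose r : ℝ)) * (N : ℝ) ^ m * m.factorial := by
      calc (bad : ℝ) * (N : ℝ) ^ m * m.factorial
          ≤ (2 * W) ^ m * (r : ℝ) ^ m * (N.choose r : ℝ) := h6
        _ ≤ Real.exp (-2) ^ m * (m : ℝ) ^ m * (N : ℝ) ^ m * (N.choose r : ℝ) :=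
            mul_le_mul_of_nonneg_right h9 hch0
        _ ≤ Real.exp (-2) ^ m * (Real.exp m * m.factorial) * (N : ℝ) ^ m * (N.choose r : ℝ) := by
            gcongr
        _ = (Real.exp (-2) ^ m * Real.exp m) * (N.choose r : ℝ) * (N : ℝ) ^ m * m.factorial := by
            ring
        _ = _ := by
            rw [← Real.exp_nat_mul, ← Real.exp_add]
            congr 4
            ring
    have h12 : (bad : ℝ) ≤ Real.exp (-m) * (N.choose r : ℝ) := by
      have hpos : (0 : ℝ) < (N : ℝ) ^ m * m.factorial := by positivity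
      rw [mul_assoc, mul_assoc] at h11
      exact le_of_mul_le_mul_right h11 hpos
    refine h12.trans ?_
    apply mul_le_mul_of_nonneg_right _ hch0
    apply Real.exp_le_exp.2
    linarith

end Pool.Agent.Helper24.FP
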