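import Mathlib
import Pool.Agent.Helper24.FP.Host

/-!
# Project FP (MP_d5570f_nt): random hosts, sets with few classes modulo few squares
-/

set_option linter.unusedSectionVars false

open Finset Pool.Agent.Helper94.SF

namespace Pool.Agent.Helper24.FP

theorem ncl_mono (m : ℕ) (A B : Finset ℕ) (h : A ⊆ B) : ncl m A ≤ ncl m B :=
  Finset.card_le_card (Finset.image_subset_image h)

theorem Cl_mono (η : ℝ) (p : ℕ) (hp : p.Prime) (A B A' B' : Finset ℕ)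
    (hA : ncl (p ^ 2) A' ≤ ncl (p ^ 2) A) (hB : ncl (p ^ 2) B' ≤ ncl (p ^ 2) B)
    (h : Cl η p A B) : Cl η p A' B' := by
  unfold Cl at *
  have hp0 : 0 < p ^ 2 := pow_pos hp.pos 2
  have h1 : (ncl (p ^ 2) A' : ℝ) ≤ ncl (p ^ 2) A := by exact_mod_cast hA
  have h2 : (ncl (p ^ 2) B' : ℝ) ≤ ncl (p ^ 2) B := by exact_mod_cast hB
  have h3 : (ncl (p ^ 2) A : ℝ) ≤ (p : ℝ) ^ 2 := by exact_mod_cast ncl_le (p ^ 2) hp0 A
  have h4 : (ncl (p ^ 2) B : ℝ) ≤ (p : ℝ) ^ 2 := by exact_mod_cast ncl_le (p ^ 2) hp0 B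
  have h5 : (0 : ℝ) ≤ ncl (p ^ 2) A' := Nat.cast_nonneg _
  have h6 : (0 : ℝ) ≤ ncl (p ^ 2) B' := Nat.cast_nonneg _
  have h7 : (ncl (p ^ 2) A' : ℝ) * ncl (p ^ 2) B' ≤ (ncl (p ^ 2) A : ℝ) * ncl (p ^ 2) B :=
    mul_le_mul h1 h2 h6 (by linarith)
  have h8 := mul_le_mul_of_nonneg_left h7 (sq_nonneg η)
  have h9 : ((p : ℝ) ^ 2 - ncl (p ^ 2) A) * ((p : ℝ) ^ 2 - ncl (p ^ 2) B)
      ≤ ((p : ℝ) ^ 2 - ncl (p ^ 2) A') * ((p : ℝ) ^ 2 - ncl (p ^ 2) B') :=
    mul_le_mul (by linarith) (by linarith) (by linarith) (by linarith)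
  linarith

theorem small_cn2 (N y V : ℕ) (η W : ℝ) (hW : 0 ≤ W) (hV : W < V + 1)
    (hb : ∀ A B : Finset ℕ, A ⊆ Icc 1 N → B ⊆ Icc 1 N → (∀ p ∈ prs y, Cl η p A B) →
      (A.card : ℝ) * B.card ≤ W ^ 2)
    (A B : Finset ℕ) (h : ∀ p ∈ prs y, Cl η p A B) :
    (Cn N (prs y) A).card ≤ V ∨ (Cn N (prs y) B).card ≤ V := by
  by_contra hno
  push Not at hno
  have h1 := hb (Cn N (prs y) A) (Cn N (prs y) B) (Finset.filter_subset _ _)
    (Finset.filter_subset _ _) (fun p hp => Cl_mono η p ((mem_prs _ _).1 hp).2.1 A B _ _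
      (ncl_Cn N (prs y) A p hp) (ncl_Cn N (prs y) B p hp) (h p hp))
  have h2 : (V : ℝ) + 1 ≤ (Cn N (prs y) A).card := by exact_mod_cast hno.1
  have h3 : (V : ℝ) + 1 ≤ (Cn N (prs y) B).card := by exact_mod_cast hno.2
  have hV0 : (0 : ℝ) ≤ V := Nat.cast_nonneg _
  have h4 : ((V : ℝ) + 1) * (V + 1) ≤ (Cn N (prs y) A).card * (Cn N (prs y) B).card :=
    mul_le_mul h2 h3 (by positivity) (by positivity)
  nlinarith

open Classical in
/-- **Random hosts.** -/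
theorem hosts2 (ε η : ℝ) (hε : 0 < ε) (hη : 0 < η) :
    ∃ C : ℝ, 0 < C ∧ ∃ N₀ : ℕ, ∀ N : ℕ, N₀ ≤ N → ∀ r : ℕ, r ≤ N →
      ((((Icc 1 N).powersetCard r).filter (fun R => ∃ A B : Finset ℕ, A ⊆ R ∧ B ⊆ R ∧
        (∀ p : ℕ, p.Prime → (p : ℝ) ≤ Real.log N ^ C → Cl η p A B) ∧
        Real.log N ^ C + r * (N : ℝ) ^ (-(3 / 11) + ε) < A.card ∧
        Real.log N ^ C + r * (N : ℝ) ^ (-(3 / 11) + ε) < B.card)).card : ℝ)
        ≤ Real.exp (-(Real.log N ^ C)) * (N.choose r : ℝ) := by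
  obtain ⟨C, hC, N₀, hN₀⟩ := pair_few ε η hε hη
  obtain ⟨N₁, hN₁⟩ := large_N (ε / 2) (2 * Real.exp 2) (by positivity)
  refine ⟨C, hC, max N₀ N₁, fun N hN => ?_⟩
  obtain ⟨y, hy1, hy, h1⟩ := hN₀ N (le_trans (le_max_left _ _) hN)
  obtain ⟨hN1, hNK⟩ := hN₁ N (le_trans (le_max_right _ _) hN)
  have hNr : (0 : ℝ) < N := by exact_mod_cast hN1
  have hlog0 : 0 ≤ Real.log N := Real.log_natCast_nonneg N
  set W : ℝ := (N : ℝ) ^ (8 / 11 + ε / 2) with hW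
  have hW0 : 0 < W := by positivity
  set V : ℕ := ⌊W⌋₊ with hVdef
  have hV : (V : ℝ) ≤ W := Nat.floor_le hW0.le
  have h2 : ∀ A B : Finset ℕ, (∀ p ∈ prs y, Cl η p A B) →
      (Cn N (prs y) A).card ≤ V ∨ (Cn N (prs y) B).card ≤ V := by
    intro A B hAB
    apply small_cn2 N y V η W hW0.le (Nat.lt_floor_add_one _) _ A B hAB
    intro A B hA hB hcl
    refine (h1 A B hA hB hcl).trans (le_of_eq ?_)
    rw [hW, ← Real.rpow_natCast, ← Real.rpow_mul (Nat.cast_nonneg _)]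
    congr 1
    push_cast
    ring
  have hy1' : (1 : ℝ) ≤ y := by exact_mod_cast hy1
  have hyy : (y : ℝ) ≤ (y : ℝ) ^ 3 := by
    calc (y : ℝ) = y ^ 1 := (pow_one _).symm
      _ ≤ y ^ 3 := pow_le_pow_right₀ hy1' (by norm_num)
  have hprs : ∀ p ∈ prs y, p.Prime ∧ (p : ℝ) ≤ Real.log N ^ C := by
    intro p hp
    have h3 := (mem_prs _ _).1 hp
    refine ⟨h3.2.1, ?_⟩
    have h4 : (p : ℝ) ≤ y := by exact_mod_cast h3.1
    linarith
  intro r hr
  set T : ℝ := Real.log N ^ C + r * (N : ℝ) ^ (-(3 / 11) + ε) with hT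
  have hLC : 0 ≤ Real.log N ^ C := Real.rpow_nonneg hlog0 _
  have hT0 : 0 ≤ T := by positivity
  set m : ℕ := ⌊T⌋₊ + 1 with hm
  have hmT : T ≤ m := by
    rw [hm]; push_cast
    exact (Nat.lt_floor_add_one T).le
  have hmL : Real.log N ^ C ≤ m := by
    refine le_trans ?_ hmT
    rw [hT]
    have : 0 ≤ r * (N : ℝ) ^ (-(3 / 11) + ε) := by positivity
    linarith
  have hmr : r * (N : ℝ) ^ (-(3 / 11) + ε) ≤ m := by
    refine le_trans ?_ hmT
    rw [hT]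
    linarith
  have hm0 : (0 : ℝ) < m := by rw [hm]; positivity
  have hym : y ^ 3 ≤ m := by
    have : (y : ℝ) ^ 3 ≤ m := hy.trans hmL
    exact_mod_cast this
  have hsub : (((Icc 1 N).powersetCard r).filter (fun R => ∃ A B : Finset ℕ, A ⊆ R ∧ B ⊆ R ∧
        (∀ p : ℕ, p.Prime → (p : ℝ) ≤ Real.log N ^ C → Cl η p A B) ∧ T < A.card ∧ T < B.card))
      ⊆ ((Icc 1 N).powersetCard r).filter (fun R => ∃ A ∈ Zm N y m V, A ⊆ R) := by
    intro R hR
    rw [Finset.mem_filter] at hR ⊢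
    refine ⟨hR.1, ?_⟩
    have hRN : R ⊆ Icc 1 N := (Finset.mem_powersetCard.1 hR.1).1
    obtain ⟨A, B, hA, hB, hAB, hTA, hTB⟩ := hR.2
    have hcA : m ≤ A.card := by
      rw [hm]
      exact (Nat.floor_lt hT0).2 hTA
    have hcB : m ≤ B.card := by
      rw [hm]
      exact (Nat.floor_lt hT0).2 hTB
    obtain ⟨A', hA', hA'c⟩ := Finset.exists_subset_card_eq hcA
    obtain ⟨B', hB', hB'c⟩ := Finset.exists_subset_card_eq hcB
    rcases h2 A' B' (fun p hp => Cl_mono η p (hprs p hp).1 A B A' B' (ncl_mono _ _ _ hA')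
      (ncl_mono _ _ _ hB') (hAB p (hprs p hp).1 (hprs p hp).2)) with h | h
    · refine ⟨A', ?_, hA'.trans hA⟩
      unfold Zm
      rw [Finset.mem_filter, Finset.mem_powersetCard]
      exact ⟨⟨(hA'.trans hA).trans hRN, hA'c⟩, h⟩
    · refine ⟨B', ?_, hB'.trans hB⟩
      unfold Zm
      rw [Finset.mem_filter, Finset.mem_powersetCard]
      exact ⟨⟨(hB'.trans hB).trans hRN, hB'c⟩, h⟩
  set bad : ℕ := (((Icc 1 N).powersetCard r).filter (fun R => ∃ A B : Finset ℕ, A ⊆ R ∧ B ⊆ R ∧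
        (∀ p : ℕ, p.Prime → (p : ℝ) ≤ Real.log N ^ C → Cl η p A B) ∧
        T < A.card ∧ T < B.card)).card with hbad
  have hhost := host_count (Icc 1 N) m r (Zm N y m V) (by
    intro A hA
    unfold Zm at hA
    rw [Finset.mem_filter, Finset.mem_powersetCard] at hA
    exact ⟨hA.1.1, hA.1.2⟩)
  rw [Nat.card_Icc, Nat.add_sub_cancel] at hhost
  have h3 : bad * N ^ m ≤ (Zm N y m V).card * r ^ m * N.choose r := by
    refine le_trans (Nat.mul_le_mul_right _ ?_) hhost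
    rw [hbad]
    convert Finset.card_le_card hsub
  have h4 : (bad : ℝ) * (N : ℝ) ^ m ≤ (Zm N y m V).card * (r : ℝ) ^ m * (N.choose r : ℝ) := by
    exact_mod_cast h3
  have h5 := Zm_card N y m V hym _ hV
  have hfac : (0 : ℝ) < m.factorial := by exact_mod_cast Nat.factorial_pos m
  have hch0 : (0 : ℝ) ≤ (N.choose r : ℝ) := Nat.cast_nonneg _
  have h6 : (bad : ℝ) * (N : ℝ) ^ m * m.factorial
      ≤ (2 * W) ^ m * (r : ℝ) ^ m * (N.choose r : ℝ) := by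
    calc (bad : ℝ) * (N : ℝ) ^ m * m.factorial
        ≤ ((Zm N y m V).card * (r : ℝ) ^ m * (N.choose r : ℝ)) * m.factorial :=
          mul_le_mul_of_nonneg_right h4 hfac.le
      _ = ((Zm N y m V).card * m.factorial) * ((r : ℝ) ^ m * (N.choose r : ℝ)) := by ring
      _ ≤ (2 * W) ^ m * ((r : ℝ) ^ m * (N.choose r : ℝ)) :=
          mul_le_mul_of_nonneg_right h5 (by positivity)
      _ = _ := by ring
  have h7 : 2 * W * r ≤ Real.exp (-2) * m * N := by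
    have e : W * (N : ℝ) ^ (ε / 2) = (N : ℝ) ^ (-(3 / 11) + ε) * N := by
      rw [hW, ← Real.rpow_add hNr]
      nth_rewrite 3 [← Real.rpow_one (N : ℝ)]
      rw [← Real.rpow_add hNr]
      congr 1; ring
    have h8 : 2 * W * r * Real.exp 2 ≤ m * N := by
      calc 2 * W * r * Real.exp 2 = W * (2 * Real.exp 2) * r := by ring
        _ ≤ W * (N : ℝ) ^ (ε / 2) * r := by gcongr
        _ = (r * (N : ℝ) ^ (-(3 / 11) + ε)) * N := by rw [e]; ring
        _ ≤ m * N := mul_le_mul_of_nonneg_right hmr hNr.le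
    rw [Real.exp_neg, inv_mul_eq_div, div_mul_eq_mul_div, le_div_iff₀ (Real.exp_pos _)]
    exact h8
  have h9 : (2 * W) ^ m * (r : ℝ) ^ m ≤ Real.exp (-2) ^ m * (m : ℝ) ^ m * (N : ℝ) ^ m := by
    rw [← mul_pow, ← mul_pow, ← mul_pow]
    exact pow_le_pow_left₀ (by positivity) h7 m
  have h10 : (m : ℝ) ^ m ≤ Real.exp m * m.factorial := by
    have := Real.pow_div_factorial_le_exp (m : ℝ) hm0.le m
    rwa [div_le_iff₀ hfac] at this
  have h11 : (bad : ℝ) * (N : ℝ) ^ m * m.factorial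
      ≤ (Real.exp (-m) * (N.choose r : ℝ)) * (N : ℝ) ^ m * m.factorial := by
    calc (bad : ℝ) * (N : ℝ) ^ m * m.factorial
        ≤ (2 * W) ^ m * (r : ℝ) ^ m * (N.choose r : ℝ) := h6
      _ ≤ Real.exp (-2) ^ m * (m : ℝ) ^ m * (N : ℝ) ^ m * (N.choose r : ℝ) :=
          mul_le_mul_of_nonneg_right h9 hch0
      _ ≤ Real.exp (-2) ^ m * (Real.exp m * m.factorial) * (N : ℝ) ^ m * (N.choose r : ℝ) := by
          gcongr
      _ = (Real.exp (-2) ^ m * Real.exp m) * (N.choose r : ℝ) * (N : ℝ) ^ m * m.factorial := by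
          ring
      _ = _ := by
          rw [← Real.exp_nat_mul, ← Real.exp_add]
          congr 4
          ring
  have h12 : (bad : ℝ) ≤ Real.exp (-m) * (N.choose r : ℝ) := by
    have hpos : (0 : ℝ) < (N : ℝ) ^ m * m.factorial := by positivity
    rw [mul_assoc, mul_assoc] at h11
    exact le_of_mul_le_mul_right h11 hpos
  refine h12.trans ?_
  apply mul_le_mul_of_nonneg_right _ hch0
  apply Real.exp_le_exp.2
  linarith

end Pool.Agent.Helper24.FP
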