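import Mathlib
import Pool.Agent.Helper24.FP.Block
import Pool.Agent.Helper24.FP.Side
import Pool.Agent.Helper24.FP.FP9
import Pool.Agent.Helper94.SF.Final

/-!
# Project FP (MP_d5570f_nt): primes up to `(log N) ^ C`, `C > 1`, give a power saving
-/

set_option linter.unusedSectionVars false

open Finset Pool.Agent.Helper94.SF

namespace Pool.Agent.Helper24.FP

section
variable {ι : Type*} [Fintype ι] [DecidableEq ι]
variable (m : ι → ℕ) [∀ i, NeZero (m i)] (F : ∀ i, ZMod (m i) → ℝ)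

theorem zero_term (u : ι → ℤ) (h0 : ∀ i, ∑ y, F i y = 0) (hF : ∀ i, ∑ y, F i y ^ 2 ≤ (m i : ℝ))
    (S T : Finset ι) :
    ‖cc m u F 0 (ee (S, (∅ : Finset ι)) + ee (T, (∅ : Finset ι)))‖
      ≤ if S = T then ∏ i, (m i : ℝ) else 0 := by
  split_ifs with h
  · apply cc_norm_le_all m u F 0 _ _ hF
    intro i
    simp only [Pi.add_apply, ee, Finset.notMem_empty, if_false, add_zero]
    split_ifs <;> omega
  · have hex : ∃ i, (ee (S, (∅ : Finset ι)) + ee (T, (∅ : Finset ι))) i = 1 := by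
      by_contra hno
      push Not at hno
      apply h
      ext i
      have hi := hno i
      simp only [Pi.add_apply, ee, Finset.notMem_empty, if_false, add_zero] at hi
      constructor
      · intro ha
        by_contra hb
        simp [ha, hb] at hi
      · intro ha
        by_contra hb
        simp [ha, hb] at hi
    obtain ⟨i, hi⟩ := hex
    rw [cc_zero_eq_zero m u F _ i hi (h0 i), norm_zero]

theorem core1 (q : ι → ℕ) (hm : ∀ i, m i = q i ^ 2) (hq : ∀ i, (q i).Prime)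
    (hqi : Function.Injective q)
    (h0 : ∀ i, ∑ y, F i y = 0) (hF : ∀ i, ∑ y, F i y ^ 2 ≤ (m i : ℝ))
    (y k N : ℕ) (hy1 : 1 ≤ y) (hN : 0 < N) (hM : 8 * N ≤ ∏ i, m i)
    (P : Finset ι) (hy : ∀ i ∈ P, q i ≤ y) (hsz : y ^ (4 * k) ≤ 8 * N) :
    ∑ n ∈ Icc 1 N, Psi m F (P.powersetCard k) (fun S => ee (S, (∅ : Finset ι)))
        (fun i => (n : ZMod (m i))) ^ 2 ≤ 32 * N * ((P.powersetCard k).card : ℝ) := by
  classical
  have hc : ∀ i j, i ≠ j → Nat.Coprime (m i) (m j) := by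
    intro i j hij
    rw [hm i, hm j]
    apply Nat.Coprime.pow
    rw [Nat.coprime_primes (hq i) (hq j)]
    exact fun h => hij (hqi h)
  obtain ⟨u, hu, h⟩ := secmom m F hc (P.powersetCard k) (fun S => ee (S, (∅ : Finset ι))) N hN hM
  set R : ℕ := (∏ i, m i) / (8 * N) with hRdef
  have hR : 8 * N * R ≤ ∏ i, m i := Nat.mul_div_le _ _
  have hM0 : (0 : ℝ) < ∏ i, (m i : ℝ) := Finset.prod_pos fun i _ => by
    exact_mod_cast Nat.pos_of_ne_zero (NeZero.ne (m i))
  have hone : ∀ w ∈ P.powersetCard k ×ˢ P.powersetCard k,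
      ∑ t ∈ Finset.Ioo (-(R : ℤ)) R,
        ‖cc m u F t (ee (w.1, (∅ : Finset ι)) + ee (w.2, (∅ : Finset ι)))‖
      ≤ if w.1 = w.2 then ∏ i, (m i : ℝ) else 0 := by
    intro w hw
    rw [Finset.mem_product, Finset.mem_powersetCard, Finset.mem_powersetCard] at hw
    have hSk : ∀ i, i ∉ w.1 ∪ w.2 →
        (ee (w.1, (∅ : Finset ι)) + ee (w.2, (∅ : Finset ι))) i = 0 := by
      intro i hi
      rw [Finset.mem_union, not_or] at hi
      simp [ee, hi.1, hi.2]
    have hSm : ∏ i ∈ w.1 ∪ w.2, m i ≤ 8 * N := by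
      refine le_trans ?_ hsz
      have h1 : ∀ i ∈ w.1 ∪ w.2, m i ≤ y ^ 2 := by
        intro i hi
        rw [hm i]
        apply Nat.pow_le_pow_left
        rw [Finset.mem_union] at hi
        rcases hi with hi | hi
        · exact hy i (hw.1.1 hi)
        · exact hy i (hw.2.1 hi)
      have h2 : (w.1 ∪ w.2).card ≤ 2 * k := by
        refine (Finset.card_union_le _ _).trans ?_
        rw [hw.1.2, hw.2.2]
        omega
      calc ∏ i ∈ w.1 ∪ w.2, m i ≤ ∏ _i ∈ w.1 ∪ w.2, y ^ 2 := Finset.prod_le_prod' h1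
        _ = y ^ (2 * (w.1 ∪ w.2).card) := by rw [Finset.prod_const, ← pow_mul]
        _ ≤ y ^ (4 * k) := Nat.pow_le_pow_right hy1 (by omega)
    have hz : ∀ t ∈ Finset.Ioo (-(R : ℤ)) R, t ≠ 0 →
        ‖cc m u F t (ee (w.1, (∅ : Finset ι)) + ee (w.2, (∅ : Finset ι)))‖ = 0 := by
      intro t ht ht0
      rw [Finset.mem_Ioo] at ht
      rw [norm_eq_zero]
      by_contra hcc
      exact ht0 (zero_freq m u F hc hu N R hR _ _ hSk hSm t (abs_lt.2 ht) hcc)
    by_cases hR0 : (0 : ℤ) ∈ Finset.Ioo (-(R : ℤ)) R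
    · rw [Finset.sum_eq_single_of_mem 0 hR0 hz]
      exact zero_term m F u h0 hF w.1 w.2
    · rw [Finset.sum_eq_zero (fun t ht => hz t ht (by rintro rfl; exact hR0 ht))]
      split_ifs
      · exact hM0.le
      · exact le_rfl
  have h1 : ∑ w ∈ P.powersetCard k ×ˢ P.powersetCard k,
      ∑ t ∈ Finset.Ioo (-(R : ℤ)) R,
        ‖cc m u F t (ee (w.1, (∅ : Finset ι)) + ee (w.2, (∅ : Finset ι)))‖
      ≤ (∏ i, (m i : ℝ)) * ((P.powersetCard k).card : ℝ) := by
    refine (Finset.sum_le_sum hone).trans (le_of_eq ?_)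
    rw [Finset.sum_product]
    have e : ∀ f ∈ P.powersetCard k,
        ∑ g ∈ P.powersetCard k, (if (f, g).1 = (f, g).2 then ∏ i, (m i : ℝ) else 0)
        = ∏ i, (m i : ℝ) := by
      intro f hf
      simp only
      rw [Finset.sum_ite_eq, if_pos hf]
    rw [Finset.sum_congr rfl e, Finset.sum_const, nsmul_eq_mul]
    ring
  have h2 := h.trans (mul_le_mul_of_nonneg_left h1 (by positivity))
  have h3 : (∏ i, (m i : ℝ)) * ∑ n ∈ Icc 1 N,
      Psi m F (P.powersetCard k) (fun S => ee (S, (∅ : Finset ι))) (fun i => (n : ZMod (m i))) ^ 2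
      ≤ (∏ i, (m i : ℝ)) * (32 * N * ((P.powersetCard k).card : ℝ)) := by
    refine h2.trans (le_of_eq ?_)
    ring
  exact le_of_mul_le_mul_left h3 hM0

end

/-- The weights are at least `1` for at most half of the classes. -/
theorem one_le_gam (m : ℕ) (A : Finset ℕ) (hA : A.Nonempty) (h : 2 * ncl m A ≤ m) :
    1 ≤ gam m A := by
  have h1 : (0 : ℝ) < ncl m A := by exact_mod_cast ncl_pos m A hA
  have h2 : 2 * (ncl m A : ℝ) ≤ m := by exact_mod_cast h
  unfold gam
  apply Real.le_sqrt_of_sq_le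
  rw [one_pow, le_div_iff₀ h1]
  linarith

theorem one_set (N y k : ℕ) (hy1 : 1 ≤ y) (hN : 0 < N)
    (A : Finset ℕ) (hA : A ⊆ Icc 1 N) (hA0 : A.Nonempty)
    (hhalf : ∀ p ∈ prs y, 2 * ncl (p ^ 2) A ≤ p ^ 2) (hsz : y ^ (4 * k) ≤ 8 * N)
    (hk : k ≤ (prs y).card) :
    (A.card : ℝ) * ((prs y).card.choose k : ℝ) ≤ 32 * N := by
  classical
  obtain ⟨r, hr1, hr⟩ := Nat.exists_infinite_primes (8 * N + y + 1)
  set S : Finset ℕ := insert r (prs y) with hS
  have hSp : ∀ x ∈ S, x.Prime := by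
    intro x hx
    rw [hS, Finset.mem_insert] at hx
    rcases hx with rfl | hx
    · exact hr
    · exact ((mem_prs _ _).1 hx).2.1
  let ι := {x : ℕ // x ∈ S}
  let q : ι → ℕ := fun i => i.val
  let m : ι → ℕ := fun i => i.val ^ 2
  have : ∀ i, NeZero (m i) := fun i => ⟨pow_ne_zero 2 (hSp i.val i.2).ne_zero⟩
  have hPS : ∀ x ∈ prs y, x ∈ S := fun x hx => Finset.mem_insert_of_mem hx
  let P : Finset ι := (prs y).subtype (· ∈ S)
  have hPmem : ∀ i, i ∈ P ↔ i.val ∈ prs y := fun i => Finset.mem_subtype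
  have hPc : P.card = (prs y).card := by
    rw [Finset.card_subtype, Finset.filter_true_of_mem hPS]
  have hM : 8 * N ≤ ∏ i, m i := by
    have hrS : r ∈ S := Finset.mem_insert_self _ _
    have h1 : m ⟨r, hrS⟩ ≤ ∏ i, m i :=
      Nat.le_of_dvd (Finset.prod_pos fun i _ => Nat.pos_of_ne_zero (NeZero.ne (m i)))
        (Finset.dvd_prod_of_mem m (Finset.mem_univ _))
    have h2 : m ⟨r, hrS⟩ = r ^ 2 := rfl
    have h3 : r ≤ r ^ 2 := by nlinarith [hr.one_le]
    omega
  have hnr : ∀ i : ι, i.val ≠ r → i.val ∈ prs y := by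
    intro i hi
    have h : i.val ∈ insert r (prs y) := i.2
    exact (Finset.mem_insert.1 h).resolve_left hi
  have hne : ∀ i : ι, i.val ∈ prs y → i.val ≠ r := by
    intro i hi h
    have := ((mem_prs _ _).1 hi).1
    omega
  have hlt : ∀ p ∈ prs y, ncl (p ^ 2) A < p ^ 2 := by
    intro p hp
    have h1 := hhalf p hp
    have h2 := ncl_pos (p ^ 2) A hA0
    omega
  let F : ∀ i : ι, ZMod (m i) → ℝ := fun i => if i.val = r then 0 else tst (m i) A
  have hcore := core1 m F q (fun i => rfl) (fun i => hSp i.val i.2) (fun a b h => Subtype.ext h)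
    (by
      intro i
      simp only [F]
      split_ifs with h
      · simp
      · exact sum_tst (m i) A hA0 (hlt i.val (hnr i h)))
    (by
      intro i
      simp only [F]
      split_ifs with h
      · simp
      · exact sum_tst_sq (m i) A hA0 (hlt i.val (hnr i h)))
    y k N hy1 hN hM P (fun i hi => ((mem_prs _ _).1 ((hPmem i).1 hi)).1) hsz
  rw [Finset.card_powersetCard, hPc] at hcore
  set b : ℝ := ((prs y).card.choose k : ℝ) with hb
  have hb0 : 0 < b := by
    rw [hb]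
    exact_mod_cast Nat.choose_pos hk
  have hval : ∀ n ∈ A, b ≤ Psi m F (P.powersetCard k) (fun S => ee (S, (∅ : Finset ι)))
      (fun i => (n : ZMod (m i))) := by
    intro n hn
    unfold Psi
    have h1 : ∀ T ∈ P.powersetCard k,
        (1 : ℝ) ≤ ∏ i, F i (n : ZMod (m i)) ^ (ee (T, (∅ : Finset ι)) i) := by
      intro T hT
      rw [Finset.mem_powersetCard] at hT
      have h2 : ∀ i ∈ Finset.univ, (1 : ℝ) ≤ F i (n : ZMod (m i)) ^ (ee (T, (∅ : Finset ι)) i) := by
        intro i _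
        by_cases hi : i ∈ T
        · have hip := (hPmem i).1 (hT.1 hi)
          have e : F i (n : ZMod (m i)) = gam (m i) A := by
            simp only [F]
            rw [if_neg (hne i hip)]
            exact tst_mem (m i) A n hn
          rw [e]
          exact one_le_pow₀ (one_le_gam _ _ hA0 (hhalf i.val hip))
        · simp [ee, hi]
      calc (1 : ℝ) = ∏ _i : ι, (1 : ℝ) := by rw [Finset.prod_const_one]
        _ ≤ _ := Finset.prod_le_prod (fun _ _ => zero_le_one) h2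
    calc b = ∑ _T ∈ P.powersetCard k, (1 : ℝ) := by
          rw [Finset.sum_const, nsmul_eq_mul, mul_one, Finset.card_powersetCard, hPc]
      _ ≤ _ := Finset.sum_le_sum h1
  have h3 : (A.card : ℝ) * b ^ 2 ≤ 32 * N * b := by
    refine le_trans ?_ hcore
    calc (A.card : ℝ) * b ^ 2 = ∑ _n ∈ A, b ^ 2 := by
          rw [Finset.sum_const, nsmul_eq_mul]
      _ ≤ ∑ n ∈ A, Psi m F (P.powersetCard k) (fun S => ee (S, (∅ : Finset ι)))
          (fun i => (n : ZMod (m i))) ^ 2 :=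
          Finset.sum_le_sum fun n hn => pow_le_pow_left₀ hb0.le (hval n hn) 2
      _ ≤ _ := Finset.sum_le_sum_of_subset_of_nonneg hA (fun _ _ _ => sq_nonneg _)
  have h4 : b * ((A.card : ℝ) * b) ≤ b * (32 * N) := by linarith [h3]
  exact le_of_mul_le_mul_left h4 hb0

/-- Sums that avoid the squares of the primes of a set meet at most half of the classes. -/
theorem half_of_avoid (p : ℕ) (hp : p.Prime) (A : Finset ℕ)
    (h : ∀ a ∈ A, ∀ a' ∈ A, ¬ p ^ 2 ∣ a + a') : 2 * ncl (p ^ 2) A ≤ p ^ 2 := by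
  classical
  have : NeZero (p ^ 2) := ⟨pow_ne_zero 2 hp.ne_zero⟩
  rw [← ncl_eq]
  set X := A.image (Nat.cast : ℕ → ZMod (p ^ 2))
  have h1 : (X.image Neg.neg).card = X.card := Finset.card_image_of_injective _ neg_injective
  have h2 : Disjoint X (X.image Neg.neg) := by
    rw [Finset.disjoint_left]
    intro x hx hx'
    obtain ⟨a, ha, rfl⟩ := Finset.mem_image.1 hx
    obtain ⟨y, hy, hy'⟩ := Finset.mem_image.1 hx'
    obtain ⟨b, hb, rfl⟩ := Finset.mem_image.1 hy
    have h3 : ((a + b : ℕ) : ZMod (p ^ 2)) = 0 := by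
      push_cast
      rw [← hy']
      ring
    rw [ZMod.natCast_eq_zero_iff] at h3
    exact h a ha b hb h3
  have h4 := Finset.card_le_univ (X ∪ X.image Neg.neg)
  rw [Finset.card_union_of_disjoint h2, h1, ZMod.card] at h4
  omega

/-- **The threshold, upper part.** -/
theorem upper_threshold (C ε : ℝ) (hC : 1 < C) (hε : 0 < ε) : ∃ N₀ : ℕ, ∀ N : ℕ, N₀ ≤ N →
    ∀ A : Finset ℕ, A ⊆ Icc 1 N →
      (∀ p : ℕ, p.Prime → (p : ℝ) ≤ Real.log N ^ C → ∀ a ∈ A, ∀ a' ∈ A, ¬ p ^ 2 ∣ a + a') →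
      (A.card : ℝ) ≤ (N : ℝ) ^ (3 / 4 + 1 / (4 * C) + ε) := by
  obtain ⟨x₀, hx₀⟩ := primes_count
  obtain ⟨N₀, hN₀⟩ := numerics2 C ε hC hε (max 8 x₀)
  refine ⟨max 1 N₀, ?_⟩
  intro N hN A hA hav
  have hN1 : 0 < N := lt_of_lt_of_le one_pos (le_trans (le_max_left _ _) hN)
  obtain ⟨y, k, hy0, hk, hyC, hyN, h4, hbig⟩ := hN₀ N (le_trans (le_max_right _ _) hN)
  have hy8 : 8 ≤ y := le_trans (le_max_left _ _) hy0
  have hyx : x₀ ≤ y := le_trans (le_max_right _ _) hy0
  rcases A.eq_empty_or_nonempty with rfl | hA0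
  · simp; positivity
  have hy8' : (8 : ℝ) ≤ y := by exact_mod_cast hy8
  have hk1 : (1 : ℝ) ≤ k := by exact_mod_cast hk
  have hlog : 0 < Real.log y := Real.log_pos (by linarith)
  have hcount : (y : ℝ) / (4 * Real.log y) ≤ ((prs y).card : ℝ) := hx₀ y hyx
  have hkc : k ≤ (prs y).card := by
    have : (k : ℝ) ≤ (prs y).card := by
      refine le_trans ?_ hcount
      rw [le_div_iff₀ (by positivity)]
      linarith
    exact_mod_cast this
  have hhalf : ∀ p ∈ prs y, 2 * ncl (p ^ 2) A ≤ p ^ 2 := by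
    intro p hp
    have h1 := (mem_prs _ _).1 hp
    apply half_of_avoid p h1.2.1 A
    apply hav p h1.2.1
    have h2 : (p : ℝ) ≤ y := by exact_mod_cast h1.1
    linarith
  have h1 := one_set N y k (by omega) hN1 A hA hA0 hhalf (by omega) hkc
  have h2 := choose_lower (prs y).card k hk hkc
  have h3 : ((y : ℝ) / (4 * k * Real.log y)) ^ k ≤ (((prs y).card : ℝ) / k) ^ k := by
    apply pow_le_pow_left₀ (by positivity)
    rw [div_le_div_iff₀ (by positivity) (by positivity)]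
    rw [div_le_iff₀ (by positivity)] at hcount
    calc (y : ℝ) * k ≤ ((prs y).card * (4 * Real.log y)) * k :=
          mul_le_mul_of_nonneg_right hcount (by positivity)
      _ = (prs y).card * (4 * k * Real.log y) := by ring
  have h5 : (A.card : ℝ) * ((y : ℝ) / (4 * k * Real.log y)) ^ k ≤ 32 * N :=
    (mul_le_mul_of_nonneg_left (h3.trans h2) (Nat.cast_nonneg _)).trans h1
  refine le_trans ?_ hbig
  rw [div_pow] at h5
  rw [le_div_iff₀ (by positivity)]
  have h6 : (0 : ℝ) < (4 * k * Real.log y) ^ k := by positivity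
  rw [mul_div_assoc', div_le_iff₀ h6] at h5
  exact h5

end Pool.Agent.Helper24.FP
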